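import Pool.Agent.K6.H97.UP.Base

set_option autoImplicit false

/-!
Project UP (helper97), leaf AIC: closure properties of the set of asymptotically central
ultrafilters (helper13).
-/

open Filter Topology

universe u v

namespace Pool.Agent.K6.H97.UP

open Pool.Agent.N709.UM

section

variable {G : Type u} [Group G] {ρ : G → ℝ}

theorem conj_pow_le {x : G} {t : ℝ} (h : ∀ c, ρ (x * c * x⁻¹) ≤ ρ c + t) :
    ∀ (n : ℕ) (c : G), ρ (x ^ n * c * (x ^ n)⁻¹) ≤ ρ c + n * t := by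
  intro n
  induction n with
  | zero => intro c; simp
  | succ n ih =>
    intro c
    have h1 : x ^ (n + 1) * c * (x ^ (n + 1))⁻¹ = x ^ n * (x * c * x⁻¹) * (x ^ n)⁻¹ := by
      rw [pow_succ]; group
    rw [h1]
    have h2 := ih (x * c * x⁻¹)
    have h3 := h c
    push_cast
    linarith

theorem comm_pow_le (hp : PN ρ) {x : G} {t s : ℝ} (h : ∀ c, ρ (x * c * x⁻¹) ≤ ρ c + t) {c : G}
    (hc : ρ (x * c * x⁻¹ * c⁻¹) ≤ s) :
    ∀ n : ℕ, ρ (x ^ n * c * (x ^ n)⁻¹ * c⁻¹) ≤ n * (s + t) := by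
  intro n
  induction n with
  | zero => simp [hp.one]
  | succ n ih =>
    have h1 : x ^ (n + 1) * c * (x ^ (n + 1))⁻¹ * c⁻¹ =
        (x * (x ^ n * c * (x ^ n)⁻¹ * c⁻¹) * x⁻¹) * (x * c * x⁻¹ * c⁻¹) := by
      rw [pow_succ']; group
    rw [h1]
    have h2 := hp.mul (x * (x ^ n * c * (x ^ n)⁻¹ * c⁻¹) * x⁻¹) (x * c * x⁻¹ * c⁻¹)
    have h3 := h (x ^ n * c * (x ^ n)⁻¹ * c⁻¹)
    push_cast
    linarith

theorem Iv.inv {t : ℝ} {x : G} (h : Iv ρ t x) : Iv ρ t x⁻¹ := fun c => by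
  rw [inv_inv]
  exact ⟨(h c).2, (h c).1⟩

theorem Iv.pow {t : ℝ} {x : G} (h : Iv ρ t x) (n : ℕ) : Iv ρ (n * t) (x ^ n) := fun c => by
  refine ⟨conj_pow_le (fun c => (h c).1) n c, ?_⟩
  have h1 := conj_pow_le (x := x⁻¹) (fun c => (h.inv c).1) n c
  rwa [inv_pow, inv_inv] at h1

theorem Iv.zpow {t : ℝ} {x : G} (h : Iv ρ t x) (n : ℤ) : Iv ρ (n.natAbs * t) (x ^ n) := by
  rcases Int.natAbs_eq n with h1 | h1
  · rw [h1, zpow_natCast, Int.natAbs_natCast]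
    exact h.pow _
  · rw [h1, zpow_neg, zpow_natCast, Int.natAbs_neg, Int.natAbs_natCast]
    exact (h.pow _).inv

theorem cm_pow (hp : PN ρ) {t s : ℝ} {x c : G} (h : Iv ρ t x)
    (hc : ρ (x * c * x⁻¹ * c⁻¹) ≤ s ∧ ρ (x⁻¹ * c * x * c⁻¹) ≤ s) (n : ℕ) :
    ρ (x ^ n * c * (x ^ n)⁻¹ * c⁻¹) ≤ n * (s + t) ∧
      ρ ((x ^ n)⁻¹ * c * x ^ n * c⁻¹) ≤ n * (s + t) := by
  refine ⟨comm_pow_le hp (fun c => (h c).1) hc.1 n, ?_⟩
  have h1 := comm_pow_le (x := x⁻¹) (s := s) (c := c) hp (fun c => (h.inv c).1)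
    (by rw [inv_inv]; exact hc.2) n
  rwa [inv_pow, inv_inv] at h1

theorem cm_zpow (hp : PN ρ) {t s : ℝ} {x c : G} (h : Iv ρ t x)
    (hc : ρ (x * c * x⁻¹ * c⁻¹) ≤ s ∧ ρ (x⁻¹ * c * x * c⁻¹) ≤ s) (n : ℤ) :
    ρ (x ^ n * c * (x ^ n)⁻¹ * c⁻¹) ≤ n.natAbs * (s + t) ∧
      ρ ((x ^ n)⁻¹ * c * x ^ n * c⁻¹) ≤ n.natAbs * (s + t) := by
  rcases Int.natAbs_eq n with h1 | h1
  · rw [h1, zpow_natCast, Int.natAbs_natCast]
    exact cm_pow hp h hc _
  · rw [h1, zpow_neg, zpow_natCast, Int.natAbs_neg, Int.natAbs_natCast, inv_inv]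
    exact (cm_pow hp h hc _).symm

theorem ai_map (hp : PN ρ) {F : Ultrafilter G} (h : AI ρ F) (n : ℤ) :
    AI ρ (F.map fun x => x ^ n) := by
  refine ⟨fun t ht => ?_, fun t ht c => ?_⟩
  · have hn : (0 : ℝ) < (n.natAbs : ℝ) + 1 := by positivity
    refine (AI.iv h (div_pos ht hn)).mono fun x hx => ?_
    have h1 := hx.zpow n
    have h2 : (n.natAbs : ℝ) * (t / ((n.natAbs : ℝ) + 1)) ≤ t := by
      rw [mul_div_assoc', div_le_iff₀ hn]
      nlinarith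
    intro c
    exact ⟨(h1 c).1.trans (by linarith), (h1 c).2.trans (by linarith)⟩
  · have hn : (0 : ℝ) < 2 * (n.natAbs : ℝ) + 1 := by positivity
    have hs : 0 < t / (2 * (n.natAbs : ℝ) + 1) := div_pos ht hn
    refine (ev_map F _ _).2 ?_
    filter_upwards [AI.iv h hs, AI.cm1 h hs c] with x hx hx'
    have h1 := cm_zpow hp hx ⟨hx'.1.le, hx'.2.le⟩ n
    have h2 : (n.natAbs : ℝ) * (t / (2 * (n.natAbs : ℝ) + 1) + t / (2 * (n.natAbs : ℝ) + 1)) < t := by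
      rw [← add_div, mul_div_assoc', div_lt_iff₀ hn]
      nlinarith
    exact ⟨h1.1.trans_lt h2, h1.2.trans_lt h2⟩

theorem ai_um (hp : PN ρ) {F H : Ultrafilter G} (hF : AI ρ F) (hH : AI ρ H) : AI ρ (um F H) := by
  refine ⟨fun t ht => ?_, fun t ht c => ?_⟩
  · refine (ev_um F H _).2 ?_
    refine (AI.iv hF (half_pos ht)).mono fun a ha => (AI.iv hH (half_pos ht)).mono fun b hb => ?_
    intro c
    constructor
    · have e : a * b * c * (a * b)⁻¹ = a * (b * c * b⁻¹) * a⁻¹ := by group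
      rw [e]
      have h1 := (ha (b * c * b⁻¹)).1
      have h2 := (hb c).1
      linarith
    · have e : (a * b)⁻¹ * c * (a * b) = b⁻¹ * (a⁻¹ * c * a) * b := by group
      rw [e]
      have h1 := (hb (a⁻¹ * c * a)).2
      have h2 := (ha c).2
      linarith
  · have ht3 : 0 < t / 3 := by positivity
    refine (ev_um F H _).2 ?_
    filter_upwards [AI.iv hF ht3, AI.cm1 hF ht3 c] with a ha ha'
    filter_upwards [AI.iv hH ht3, AI.cm1 hH ht3 c] with b hb hb'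
    constructor
    · have e : a * b * c * (a * b)⁻¹ * c⁻¹ =
          (a * (b * c * b⁻¹ * c⁻¹) * a⁻¹) * (a * c * a⁻¹ * c⁻¹) := by group
      rw [e]
      have h1 := hp.mul (a * (b * c * b⁻¹ * c⁻¹) * a⁻¹) (a * c * a⁻¹ * c⁻¹)
      have h2 := (ha (b * c * b⁻¹ * c⁻¹)).1
      have h3 := ha'.1
      have h4 := hb'.1
      linarith
    · have e : (a * b)⁻¹ * c * (a * b) * c⁻¹ =
          (b⁻¹ * (a⁻¹ * c * a * c⁻¹) * b) * (b⁻¹ * c * b * c⁻¹) := by group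
      rw [e]
      have h1 := hp.mul (b⁻¹ * (a⁻¹ * c * a * c⁻¹) * b) (b⁻¹ * c * b * c⁻¹)
      have h2 := (hb (a⁻¹ * c * a * c⁻¹)).2
      have h3 := ha'.2
      have h4 := hb'.2
      linarith

theorem ai_bind {ι : Type v} (V : Ultrafilter ι) {H : ι → Ultrafilter G} (h : ∀ i, AI ρ (H i)) :
    AI ρ (V.bind H) := by
  refine ⟨fun t ht => ?_, fun t ht c => ?_⟩
  · exact (ev_bind V H _).2 (Eventually.of_forall fun i => (h i).inv t ht)
  · exact (ev_bind V H _).2 (Eventually.of_forall fun i => (h i).com t ht c)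

theorem ai_center (hp : PN ρ) {F : Ultrafilter G} (h : (Subgroup.center G : Set G) ∈ F) :
    AI ρ F := by
  have h1 : ∀ x ∈ (Subgroup.center G : Set G), ∀ c, x * c * x⁻¹ = c ∧ x⁻¹ * c * x = c := by
    intro x hx c
    have h2 := Subgroup.mem_center_iff.1 hx c
    constructor
    · rw [← h2, mul_inv_cancel_right]
    · rw [mul_assoc, h2, inv_mul_cancel_left]
  refine ⟨fun t ht => ?_, fun t ht c => ?_⟩
  · refine F.mem_of_superset h fun x hx c => ?_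
    rw [(h1 x hx c).1, (h1 x hx c).2]
    exact ⟨by linarith, by linarith⟩
  · refine F.mem_of_superset h fun x hx => ?_
    show ρ (x * c * x⁻¹ * c⁻¹) < t ∧ ρ (x⁻¹ * c * x * c⁻¹) < t
    rw [(h1 x hx c).1, (h1 x hx c).2, mul_inv_cancel, hp.one]
    exact ⟨ht, ht⟩

end

theorem t_AIC : S_AIC.{u,v} := by
  intro G _ ρ hp
  exact ⟨fun F hF n => ai_map hp hF n, fun F H hF hH => ai_um hp hF hH,
    fun ι V H h => ai_bind V h, fun F h => ai_center hp h⟩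

end Pool.Agent.K6.H97.UP
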