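import Pool.Agent.K6.H97.UP.Stm

set_option autoImplicit false

/-!
Project UP (helper97): elementary facts for the leaves.
-/

open Filter Topology

universe u v

namespace Pool.Agent.K6.H97.UP

open Pool.Agent.N709.UM

section bind

variable {α : Type u} {β : Type v}

theorem ev_bind (F : Ultrafilter α) (H : α → Ultrafilter β) (p : β → Prop) :
    (∀ᶠ x in (F.bind H : Filter β), p x) ↔ ∀ᶠ a in (F : Filter α), ∀ᶠ b in (H a : Filter β), p b :=
  Iff.rfl

theorem ev_map (F : Ultrafilter α) (f : α → β) (p : β → Prop) :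
    (∀ᶠ x in (F.map f : Filter β), p x) ↔ ∀ᶠ a in (F : Filter α), p (f a) :=
  Iff.rfl

/-- negation of a double quantifier -/
theorem not_ev2 (F : Ultrafilter α) (H : α → Ultrafilter β) (p : α → β → Prop) :
    (¬ ∀ᶠ a in (F : Filter α), ∀ᶠ b in (H a : Filter β), p a b) ↔
      ∀ᶠ a in (F : Filter α), ∀ᶠ b in (H a : Filter β), ¬ p a b := by
  rw [← Ultrafilter.eventually_not]
  refine eventually_congr (Eventually.of_forall fun a => ?_)
  rw [← Ultrafilter.eventually_not]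

end bind

variable {G : Type u} [Group G]

theorem ev_um (F H : Ultrafilter G) (p : G → Prop) :
    (∀ᶠ x in (um F H : Filter G), p x) ↔
      ∀ᶠ a in (F : Filter G), ∀ᶠ b in (H : Filter G), p (a * b) :=
  Iff.rfl

theorem AI.iv {ρ : G → ℝ} {F : Ultrafilter G} (h : AI ρ F) {t : ℝ} (ht : 0 < t) :
    ∀ᶠ x in (F : Filter G), Iv ρ t x := h.inv t ht

theorem AI.cm1 {ρ : G → ℝ} {F : Ultrafilter G} (h : AI ρ F) {t : ℝ} (ht : 0 < t) (c : G) :
    ∀ᶠ x in (F : Filter G), ρ (x * c * x⁻¹ * c⁻¹) < t ∧ ρ (x⁻¹ * c * x * c⁻¹) < t := h.com t ht c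

theorem AI.cm {ρ : G → ℝ} {F : Ultrafilter G} (h : AI ρ F) {t : ℝ} (ht : 0 < t) {D : Set G}
    (hD : D.Finite) : ∀ᶠ x in (F : Filter G), Cm ρ t D x :=
  (eventually_all_finite hD).2 fun c _ => h.com t ht c

theorem nonneg {ρ : G → ℝ} (h : PN ρ) (g : G) : 0 ≤ ρ g := by
  have h1 := h.mul g g⁻¹
  rw [mul_inv_cancel, h.one, h.inv] at h1
  linarith

theorem le_mul_left {ρ : G → ℝ} (h : PN ρ) (a b : G) : ρ b ≤ ρ (a * b) + ρ a := by
  have h1 := h.mul a⁻¹ (a * b)
  rw [inv_mul_cancel_left, h.inv] at h1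
  linarith

theorem le_mul_right {ρ : G → ℝ} (h : PN ρ) (a b : G) : ρ a ≤ ρ (a * b) + ρ b := by
  have h1 := h.mul (a * b) b⁻¹
  rw [mul_inv_cancel_right, h.inv] at h1
  linarith

theorem one_mem_WW (x : ℕ → G) (T : ℕ → ℕ) (K k : ℕ) : (1 : G) ∈ WW x T K k := by
  induction k with
  | zero => exact rfl
  | succ k ih => exact ⟨1, ih, 0, by simp, fun _ => rfl, by simp⟩

theorem WW_mono (x : ℕ → G) {T T' : ℕ → ℕ} (hT : ∀ j, T j ≤ T' j) {K K' : ℕ} (hK : K' ≤ K) :
    ∀ k, WW x T K k ⊆ WW x T' K' k := by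
  intro k
  induction k with
  | zero => exact subset_rfl
  | succ k ih =>
    rintro g ⟨h, hh, m, hm, hm0, rfl⟩
    exact ⟨h, ih hh, m, hm.trans (hT k), fun hk => hm0 (lt_of_lt_of_le hk hK), rfl⟩

theorem WW_congr {x x' : ℕ → G} (T : ℕ → ℕ) (K : ℕ) :
    ∀ k : ℕ, (∀ j, j < k → x j = x' j) → WW x T K k = WW x' T K k := by
  intro k
  induction k with
  | zero => intro _; rfl
  | succ k ih =>
    intro h
    have h1 := ih fun j hj => h j (Nat.lt_succ_of_lt hj)
    simp only [WW, h1, h k (Nat.lt_succ_self k)]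

theorem WW_finite (x : ℕ → G) (T : ℕ → ℕ) (K : ℕ) : ∀ k : ℕ, (WW x T K k).Finite := by
  intro k
  induction k with
  | zero => exact Set.finite_singleton _
  | succ k ih =>
    have h1 : ({M : ℤ | M.natAbs ≤ T k} : Set ℤ).Finite := by
      refine (Set.finite_Icc (-(T k : ℤ)) (T k)).subset ?_
      intro M hM
      have hM' : M.natAbs ≤ T k := hM
      simp only [Set.mem_Icc]
      omega
    refine ((ih.prod h1).image fun p => p.1 * x k ^ p.2).subset ?_
    rintro g ⟨h, hh, M, hM, -, rfl⟩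
    exact ⟨(h, M), ⟨hh, hM⟩, rfl⟩

section top

variable [TopologicalSpace G]

theorem tendsto_one {ρ : G → ℝ} (hG : Gen ρ) {α : Type v} (F : Filter α) (w : α → G)
    (h : ∀ t > 0, ∀ᶠ b in F, ρ (w b) < t) : Tendsto w F (𝓝 1) := by
  intro U hU
  obtain ⟨r, hr, h1⟩ := hG.gen U hU
  exact (h r hr).mono fun b hb => h1 _ hb

theorem small {ρ : G → ℝ} (hG : Gen ρ) {α : Type v} {F : Filter α} {w : α → G}
    (h : Tendsto w F (𝓝 1)) {t : ℝ} (ht : 0 < t) : ∀ᶠ b in F, ρ (w b) < t := by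
  have h1 : Tendsto (fun b => ρ (w b)) F (𝓝 (ρ 1)) := (hG.cont.tendsto 1).comp h
  rw [hG.pn.one] at h1
  exact h1.eventually_lt_const ht

end top

end Pool.Agent.K6.H97.UP
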