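import Pool.Agent.K6.H97.UP.Base
import Pool.Agent.N521.UM3CAU3

set_option autoImplicit false

/-!
Project UP (helper97), leaf CAP (helper53): powers of almost central elements are close to the
central subgroup of limits of powers.
-/

open Filter Topology

universe u v

namespace Pool.Agent.K6.H97.UP

open Pool.Agent.N709.UM

/-- an asymptotically central ultrafilter which is Cauchy converges -/
theorem conv_of_cauchy' {G : Type u} [Group G] [TopologicalSpace G] [IsTopologicalGroup G]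
    (hRC : RC G) {ρ : G → ℝ} (hρ : Gen ρ) {F : Ultrafilter G} (hF : AI ρ F)
    (h : ∀ e : ℝ, 0 < e → ∀ᶠ a in (F : Filter G), ∀ᶠ b in (F : Filter G), ρ (a * b⁻¹) < e) :
    ∃ z : G, (F : Filter G) ≤ 𝓝 z := by
  by_contra hno
  obtain ⟨e, he, h1⟩ := Pool.Agent.N521.UM3CAU3.cau3 G hRC ρ hρ F hF hno
  have h2 : ∀ᶠ a in (F : Filter G), ∀ᶠ b in (F : Filter G), e ≤ ρ (a * b⁻¹) := h1
  obtain ⟨a, ha⟩ := ((h e he).and h2).exists
  obtain ⟨b, hb⟩ := (ha.1.and ha.2).exists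
  exact absurd hb.1 (not_lt.2 hb.2)

/-- an asymptotically central ultrafilter which contains `S`, if `S` meets all the sets of almost
central elements -/
theorem exists_AI {G : Type u} [Group G] {ρ : G → ℝ} (S : G → Prop)
    (h : ∀ t : ℝ, 0 < t → ∀ D : Set G, D.Finite → ∃ x, Iv ρ t x ∧ Cm ρ t D x ∧ S x) :
    ∃ H : Ultrafilter G, AI ρ H ∧ ∀ᶠ x in (H : Filter G), S x := by
  let T : {t : ℝ // 0 < t} × {D : Set G // D.Finite} → Set G := fun p =>
    {x | Iv ρ p.1.1 x ∧ Cm ρ p.1.1 p.2.1 x ∧ S x}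
  let f : Filter G := ⨅ p, 𝓟 (T p)
  have hf : f.NeBot := by
    refine @iInf_neBot_of_directed' _ _ _ ⟨(⟨1, one_pos⟩, ⟨∅, Set.finite_empty⟩)⟩ ?_ ?_
    · rintro ⟨⟨t, ht⟩, ⟨D, hD⟩⟩ ⟨⟨t', ht'⟩, ⟨D', hD'⟩⟩
      have hmono : ∀ (t₁ t₂ : ℝ) (D₁ D₂ : Set G), t₁ ≤ t₂ → D₂ ⊆ D₁ → ∀ x,
          (Iv ρ t₁ x ∧ Cm ρ t₁ D₁ x ∧ S x) → (Iv ρ t₂ x ∧ Cm ρ t₂ D₂ x ∧ S x) := by
        rintro t₁ t₂ D₁ D₂ h1 h2 x ⟨h3, h4, h5⟩
        refine ⟨fun c => ?_, fun c hc => ?_, h5⟩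
        · have h6 := h3 c
          exact ⟨by linarith [h6.1], by linarith [h6.2]⟩
        · have h6 := h4 c (h2 hc)
          exact ⟨h6.1.trans_le h1, h6.2.trans_le h1⟩
      refine ⟨(⟨min t t', lt_min ht ht'⟩, ⟨D ∪ D', hD.union hD'⟩), ?_, ?_⟩
      · refine principal_mono.2 fun x hx => ?_
        exact hmono (min t t') t (D ∪ D') D (min_le_left t t') Set.subset_union_left x hx
      · refine principal_mono.2 fun x hx => ?_
        exact hmono (min t t') t' (D ∪ D') D' (min_le_right t t') Set.subset_union_right x hx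
    · rintro ⟨⟨t, ht⟩, ⟨D, hD⟩⟩
      rw [principal_neBot_iff]
      exact h t ht D hD
  have hmem : ∀ t : ℝ, 0 < t → ∀ D : Set G, D.Finite →
      ∀ᶠ x in (Ultrafilter.of f : Filter G), Iv ρ t x ∧ Cm ρ t D x ∧ S x := by
    intro t ht D hD
    have h1 : T (⟨t, ht⟩, ⟨D, hD⟩) ∈ f :=
      mem_iInf_of_mem (⟨t, ht⟩, ⟨D, hD⟩) (mem_principal_self _)
    exact Ultrafilter.of_le f h1
  refine ⟨Ultrafilter.of f, ⟨?_, ?_⟩, ?_⟩
  · intro t ht
    exact (hmem t ht ∅ Set.finite_empty).mono fun x hx => hx.1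
  · intro t ht c
    exact (hmem t ht {c} (Set.finite_singleton c)).mono fun x hx => hx.2.1 c rfl
  · exact (hmem 1 one_pos ∅ Set.finite_empty).mono fun x hx => hx.2.2

theorem t_CAP (hA : S_AIC.{u, 0}) : S_CAP.{u} := by
  intro G _ _ _ _ ρ hρ hRC L hL C hCL ε hε n0
  obtain ⟨hpow, -, hbind, hcen⟩ := hA G ρ hρ.pn
  have h1A : AI ρ (pure 1 : Ultrafilter G) := by
    refine hcen _ ?_
    rw [Ultrafilter.mem_pure]
    exact (Subgroup.center G).one_mem
  have hpow' : ∀ F : Ultrafilter G, AI ρ F → ∀ n : ℕ, AI ρ (F.map fun x => x ^ n) := by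
    intro F hF n
    have h1 := hpow F hF (n : ℤ)
    simpa only [zpow_natCast] using h1
  by_contra hcon
  have hU : ∀ n : ℕ, ∃ H : Ultrafilter G, AI ρ H ∧
      (n0 ≤ n → ∀ᶠ x in (H : Filter G), ∀ c ∈ C, ε ≤ ρ (x ^ L n * c⁻¹)) := by
    intro n
    by_cases hn : n0 ≤ n
    · obtain ⟨H, h1, h2⟩ := exists_AI (ρ := ρ) (fun x : G => ∀ c ∈ C, ε ≤ ρ (x ^ L n * c⁻¹)) (by
        intro t ht D hD
        by_contra hno
        refine hcon ⟨n, hn, t, ht, D, hD, fun x hx1 hx2 => ?_⟩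
        by_contra hno'
        refine hno ⟨x, hx1, hx2, fun c hc => ?_⟩
        by_contra hlt
        exact hno' ⟨c, hc, not_le.1 hlt⟩)
      exact ⟨H, h1, fun _ => h2⟩
    · exact ⟨pure 1, h1A, fun h => absurd h hn⟩
  choose H hH hHC using hU
  let V : Ultrafilter ℕ := hyperfilter ℕ
  have hV : ∀ j : ℕ, ∀ᶠ n in (V : Filter ℕ), j ≤ n := by
    intro j
    have h1 : (V : Filter ℕ) ≤ cofinite := hyperfilter_le_cofinite
    rw [Nat.cofinite_eq_atTop] at h1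
    exact h1 (eventually_ge_atTop j)
  let P : Ultrafilter G := V.bind fun n => (H n).map fun x => x ^ L n
  let Q : ℕ → Ultrafilter G := fun j => V.bind fun n => (H n).map fun x => x ^ (L n / L j)
  have hP : AI ρ P := hbind ℕ V _ fun n => hpow' (H n) (hH n) (L n)
  have hQ : ∀ j, AI ρ (Q j) := fun j => hbind ℕ V _ fun n => hpow' (H n) (hH n) (L n / L j)
  have hPQ : ∀ (j : ℕ) (p : G → Prop),
      (∀ᶠ a in (Q j : Filter G), p (a ^ L j)) ↔ ∀ᶠ y in (P : Filter G), p y := by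
    intro j p
    have h1 : (∀ᶠ n in (V : Filter ℕ), ∀ᶠ x in (H n : Filter G), p ((x ^ (L n / L j)) ^ L j)) ↔
        ∀ᶠ n in (V : Filter ℕ), ∀ᶠ x in (H n : Filter G), p (x ^ L n) := by
      refine eventually_congr ?_
      filter_upwards [hV j] with n hn
      refine eventually_congr (Eventually.of_forall fun x => ?_)
      rw [← pow_mul, Nat.div_mul_cancel (hL.dvd j n hn)]
    exact h1
  obtain ⟨p, hp⟩ : ∃ p : G, (P : Filter G) ≤ 𝓝 p := by
    refine conv_of_cauchy' hRC hρ hP ?_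
    intro e he
    obtain ⟨j, hj⟩ := exists_nat_one_div_lt he
    have h1 := hL.cau j (Q j) (hQ j) 1
    rw [one_mul] at h1
    rw [← hPQ j (fun a => ∀ᶠ b in (P : Filter G), ρ (a * b⁻¹) < e)]
    refine h1.mono fun a ha => ?_
    rw [← hPQ j (fun b => ρ (a ^ L j * b⁻¹) < e)]
    exact ha.mono fun b hb => hb.trans hj
  have hpC : p ∈ C := by
    refine (hCL p).2 fun j => ⟨Q j, hQ j, ?_⟩
    intro O hO
    exact (hPQ j (fun y => y ∈ O)).2 (hp hO)
  have h2 : ∀ᶠ y in (P : Filter G), ε ≤ ρ (y * p⁻¹) := by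
    have h3 : ∀ᶠ n in (V : Filter ℕ), ∀ᶠ x in (H n : Filter G), ε ≤ ρ (x ^ L n * p⁻¹) := by
      filter_upwards [hV n0] with n hn
      exact (hHC n hn).mono fun x hx => hx p hpC
    exact h3
  have h4 : ∀ᶠ y in (P : Filter G), ρ (y * p⁻¹) < ε := by
    refine small hρ ?_ hε
    have h5 : Tendsto (fun y : G => y * p⁻¹) (P : Filter G) (𝓝 (p * p⁻¹)) :=
      (tendsto_id.mono_right hp).mul_const p⁻¹
    rwa [mul_inv_cancel] at h5
  obtain ⟨y, hy1, hy2⟩ := (h2.and h4).exists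
  exact absurd hy2 (not_lt.2 hy1)

end Pool.Agent.K6.H97.UP
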