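import Pool.Agent.K6.H97.UP.Base
import Pool.Agent.N521.UM3CAU3

set_option autoImplicit false

/-!
Project UP (helper97), leaf CCP (helper53): the central subgroup of limits of powers is compact.
-/

open Filter Topology

universe u v

namespace Pool.Agent.K6.H97.UP

open Pool.Agent.N709.UM

/-- an asymptotically central ultrafilter which is Cauchy converges -/
theorem conv_of_cauchy {G : Type u} [Group G] [TopologicalSpace G] [IsTopologicalGroup G]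
    (hRC : RC G) {ρ : G → ℝ} (hρ : Gen ρ) {F : Ultrafilter G} (hF : AI ρ F)
    (h : ∀ e : ℝ, 0 < e → ∀ᶠ a in (F : Filter G), ∀ᶠ b in (F : Filter G), ρ (a * b⁻¹) < e) :
    ∃ z : G, (F : Filter G) ≤ 𝓝 z := by
  by_contra hno
  obtain ⟨e, he, h1⟩ := Pool.Agent.N521.UM3CAU3.cau3 G hRC ρ hρ F hF hno
  have h2 : ∀ᶠ a in (F : Filter G), ∀ᶠ b in (F : Filter G), e ≤ ρ (a * b⁻¹) := h1
  obtain ⟨a, ha⟩ := ((h e he).and h2).exists
  obtain ⟨b, hb⟩ := (ha.1.and ha.2).exists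
  exact absurd hb.1 (not_lt.2 hb.2)

theorem t_CCP (hA : S_AIC.{u, u}) : S_CCP.{u} := by
  intro G _ _ _ _ ρ hρ hRC L hL C hC hCL
  rw [isCompact_iff_ultrafilter_le_nhds]
  intro W hW
  have hWC : ∀ᶠ c in (W : Filter G), c ∈ C := le_principal_iff.1 hW
  obtain ⟨-, -, hbind, hcen⟩ := hA G ρ hρ.pn
  have hWA : AI ρ W := hcen W (mem_of_superset hWC hC)
  have h1A : AI ρ (pure 1 : Ultrafilter G) := by
    refine hcen _ ?_
    rw [Ultrafilter.mem_pure]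
    exact (Subgroup.center G).one_mem
  have hch : ∀ n : ℕ, ∃ H : G → Ultrafilter G, (∀ c, AI ρ (H c)) ∧
      ∀ c ∈ C, Tendsto (fun x : G => x ^ L n) (H c) (𝓝 c) := by
    intro n
    have h1 : ∀ c : G, ∃ F : Ultrafilter G, AI ρ F ∧
        (c ∈ C → Tendsto (fun x : G => x ^ L n) F (𝓝 c)) := by
      intro c
      by_cases hc : c ∈ C
      · obtain ⟨F, hF, h⟩ := (hCL c).1 hc n
        exact ⟨F, hF, fun _ => h⟩
      · exact ⟨pure 1, h1A, fun h => absurd h hc⟩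
    choose H h1 h2 using h1
    exact ⟨H, h1, h2⟩
  obtain ⟨z, hz⟩ : ∃ z : G, (W : Filter G) ≤ 𝓝 z := by
    refine conv_of_cauchy hRC hρ hWA ?_
    intro e he
    obtain ⟨n, hn⟩ := exists_nat_one_div_lt (show (0 : ℝ) < e / 3 by linarith)
    obtain ⟨H, hH, hHC⟩ := hch n
    have h1 : ∀ᶠ c in (W : Filter G), ∀ᶠ a in (H c : Filter G), ∀ᶠ c' in (W : Filter G),
        ∀ᶠ b in (H c' : Filter G),
          ρ (a ^ (1 * L n) * (b ^ (1 * L n))⁻¹) < 1 / ((n : ℝ) + 1) :=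
      hL.cau n (W.bind H) (hbind G W H hH) 1
    have h2 : ∀ᶠ c in (W : Filter G), ∀ᶠ a in (H c : Filter G), ρ (a ^ L n * c⁻¹) < e / 3 := by
      filter_upwards [hWC] with c hc
      refine small hρ ?_ (show (0 : ℝ) < e / 3 by linarith)
      have h3 : Tendsto (fun x : G => x ^ L n * c⁻¹) (H c) (𝓝 (c * c⁻¹)) :=
        (hHC c hc).mul_const c⁻¹
      rwa [mul_inv_cancel] at h3
    filter_upwards [h1, h2] with c h3 h4
    obtain ⟨a, ha1, ha2⟩ := (h3.and h4).exists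
    filter_upwards [ha1, h2] with c' h5 h6
    obtain ⟨b, hb1, hb2⟩ := (h5.and h6).exists
    rw [one_mul] at hb1
    have h7 := hρ.pn.mul (a ^ L n * c⁻¹)⁻¹ (a ^ L n * (b ^ L n)⁻¹)
    have h8 := hρ.pn.mul ((a ^ L n * c⁻¹)⁻¹ * (a ^ L n * (b ^ L n)⁻¹)) (b ^ L n * c'⁻¹)
    have h9 : (a ^ L n * c⁻¹)⁻¹ * (a ^ L n * (b ^ L n)⁻¹) * (b ^ L n * c'⁻¹) = c * c'⁻¹ := by
      group
    rw [h9] at h8
    rw [hρ.pn.inv] at h7
    linarith
  refine ⟨z, ?_, hz⟩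
  refine (hCL z).2 fun n => ?_
  obtain ⟨H, hH, hHC⟩ := hch n
  refine ⟨W.bind H, hbind G W H hH, ?_⟩
  intro O hO
  obtain ⟨O', hO', hop, hzO'⟩ := mem_nhds_iff.1 hO
  have h1 : ∀ᶠ c in (W : Filter G), c ∈ O' := hz (hop.mem_nhds hzO')
  have h2 : ∀ᶠ c in (W : Filter G), ∀ᶠ a in (H c : Filter G), a ^ L n ∈ O := by
    filter_upwards [h1, hWC] with c hc hcC
    exact (hHC c hcC).eventually_mem (mem_of_superset (hop.mem_nhds hc) hO')
  exact h2

end Pool.Agent.K6.H97.UP
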