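import Pool.Agent.K6.H97.UP.Base

set_option autoImplicit false

/-!
Project UP: leaf COL (helper11).
-/

open Filter Topology

universe u v

namespace Pool.Agent.K6.H97.UP

open Pool.Agent.N709.UM

/-- reduction of a doubled exponent -/
theorem col_exp (m : ℤ) (T : ℕ) (hm : m.natAbs ≤ T) :
    ∃ r : ℤ, r.natAbs ≤ T ∧ (2 * m - r = 0 ∨ 2 * m - r = T ∨ 2 * m - r = -(T : ℤ)) := by
  by_cases h1 : (T : ℤ) < 2 * m
  · exact ⟨2 * m - T, by omega, by omega⟩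
  by_cases h2 : 2 * m < -(T : ℤ)
  · exact ⟨2 * m + T, by omega, by omega⟩
  · exact ⟨2 * m, by omega, by omega⟩

/-- the doubling lemma -/
theorem col_double {G : Type u} [Group G] {ρ : G → ℝ} (hρ : PN ρ) {x : ℕ → G} {T : ℕ → ℕ}
    {K : ℕ} {τ : ℕ → ℝ}
    (h3 : ∀ k, K ≤ k → ∀ h ∈ WW x T K k, ∀ m : ℤ, m.natAbs ≤ T k →
      ρ ((h * x k ^ m) ^ 2 * (h ^ 2 * x k ^ (2 * m))⁻¹) ≤ τ k)
    (h4 : ∀ k, K ≤ k → ∀ h ∈ WW x T K k, ρ (h * x k ^ (T k : ℤ) * h⁻¹) ≤ τ k)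
    (hτ : ∀ k, 0 ≤ τ k) : ∀ k, ∀ W ∈ WW x T K k, ∃ W' ∈ WW x T K k,
      ρ (W ^ 2 * W'⁻¹) ≤ ∑ j ∈ Finset.Ico K k, 2 * τ j := by
  intro k
  induction k with
  | zero =>
    intro W hW
    have hW' : W = 1 := hW
    refine ⟨1, rfl, ?_⟩
    rw [hW']
    simp [hρ.one]
  | succ k ih =>
    rintro W ⟨h, hh, m, hm, hm0, rfl⟩
    obtain ⟨h', hh', h5⟩ := ih h hh
    rcases lt_or_ge k K with hk | hk
    · have hm1 := hm0 hk
      subst hm1
      refine ⟨h', ⟨h', hh', 0, by simp, fun _ => rfl, by simp⟩, ?_⟩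
      rw [zpow_zero, mul_one, Finset.Ico_eq_empty (by omega), Finset.sum_empty]
      rw [Finset.Ico_eq_empty (by omega), Finset.sum_empty] at h5
      exact h5
    · obtain ⟨r, hr, hr'⟩ := col_exp m (T k) hm
      refine ⟨h' * x k ^ r, ⟨h', hh', r, hr, fun hk' => absurd hk' (by omega), rfl⟩, ?_⟩
      have e1 : (h * x k ^ m) ^ 2 * (h' * x k ^ r)⁻¹ =
          ((h * x k ^ m) ^ 2 * (h ^ 2 * x k ^ (2 * m))⁻¹) *
            ((h ^ 2 * h'⁻¹) * (h' * x k ^ (2 * m - r) * h'⁻¹)) := by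
        rw [zpow_sub]
        group
      have e2 : ρ (h' * x k ^ (2 * m - r) * h'⁻¹) ≤ τ k := by
        rcases hr' with h6 | h6 | h6
        · rw [h6, zpow_zero, mul_one, mul_inv_cancel, hρ.one]
          exact hτ k
        · rw [h6]
          exact h4 k hk h' hh'
        · rw [h6]
          have e3 : h' * x k ^ (-(T k : ℤ)) * h'⁻¹ = (h' * x k ^ (T k : ℤ) * h'⁻¹)⁻¹ := by
            rw [mul_inv_rev, mul_inv_rev, inv_inv, zpow_neg, mul_assoc]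
          rw [e3, hρ.inv]
          exact h4 k hk h' hh'
      rw [e1, Finset.sum_Ico_succ_top hk]
      have e4 := hρ.mul ((h * x k ^ m) ^ 2 * (h ^ 2 * x k ^ (2 * m))⁻¹)
            ((h ^ 2 * h'⁻¹) * (h' * x k ^ (2 * m - r) * h'⁻¹))
      have e5 := hρ.mul (h ^ 2 * h'⁻¹) (h' * x k ^ (2 * m - r) * h'⁻¹)
      have e6 := h3 k hk h hh m hm
      linarith

theorem t_COL : S_COL.{u} := by
  intro G _ ρ hρ C hC D ε η L x T K τ σ hη hDC hDε hnear hlock h1 h2 h3 h4 hτ hσ h5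
  have hcen : ∀ c ∈ C, ∀ g : G, g * c = c * g := fun c hc g =>
    Subgroup.mem_center_iff.1 (hC hc) g
  have hdbl := col_double hρ h3 h4 hτ
  have main : ∀ k, ∀ W ∈ WW x T K k, ∀ c ∈ C, ρ (W ^ L * c⁻¹) < η → c ∈ D := by
    intro k
    induction k with
    | zero =>
      intro W hW c hc h
      have hW' : W = 1 := hW
      rw [hW', one_pow, one_mul, hρ.inv] at h
      exact hnear c hc (by linarith)
    | succ k ih =>
      -- elements of `C` which approximate elements of the next set are close to `D`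
      have star : ∀ W ∈ WW x T K (k + 1), ∀ c ∈ C, ρ (W ^ L * c⁻¹) < η →
          ∃ d ∈ D, ρ (c * d⁻¹) ≤ 5 * η := by
        rintro W ⟨h, hh, m, hm, hm0, rfl⟩ c hc hcW
        obtain ⟨d, hd, hdh⟩ := h1 k h hh
        refine ⟨d, ih h hh d hd hdh, ?_⟩
        have e1 : ρ ((h * x k ^ m) ^ L * (h ^ L)⁻¹) ≤ 3 * η := by
          rcases lt_or_ge k K with hk | hk
          · rw [hm0 hk, zpow_zero, mul_one, mul_inv_cancel, hρ.one]
            linarith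
          · exact h2 k hk h hh m hm
        have e2 : c * d⁻¹ = ((h * x k ^ m) ^ L * c⁻¹)⁻¹ *
            (((h * x k ^ m) ^ L * (h ^ L)⁻¹) * (h ^ L * d⁻¹)) := by
          group
        have e3 := hρ.mul ((h * x k ^ m) ^ L * c⁻¹)⁻¹
            (((h * x k ^ m) ^ L * (h ^ L)⁻¹) * (h ^ L * d⁻¹))
        have e4 := hρ.mul ((h * x k ^ m) ^ L * (h ^ L)⁻¹) (h ^ L * d⁻¹)
        rw [hρ.inv] at e3
        rw [e2]
        linarith
      intro W hW c hc hcW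
      obtain ⟨W', hW', e1⟩ := hdbl (k + 1) W hW
      have e2 := h5 (k + 1) W hW W' hW' (e1.trans (hσ _))
      obtain ⟨c', hc', e3⟩ := h1 (k + 1) W' hW'
      obtain ⟨d, hd, e4⟩ := star W' hW' c' hc' e3
      obtain ⟨d', hd', e5⟩ := star W hW c hc hcW
      refine hlock c hc ⟨d', hd', by linarith⟩ ⟨d, hd, ?_⟩
      have hcc : Commute (W ^ L) c⁻¹ := by
        have := hcen c⁻¹ (C.inv_mem hc) (W ^ L)
        exact this
      have e6 : ρ (W ^ (2 * L) * (c ^ 2)⁻¹) ≤ 2 * η := by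
        have e7 : W ^ (2 * L) * (c ^ 2)⁻¹ = (W ^ L * c⁻¹) * (W ^ L * c⁻¹) := by
          rw [← pow_two, hcc.mul_pow, ← pow_mul, mul_comm L 2, inv_pow]
        have e8 := hρ.mul (W ^ L * c⁻¹) (W ^ L * c⁻¹)
        rw [e7]
        linarith
      have e9 : c ^ 2 * d⁻¹ = (W ^ (2 * L) * (c ^ 2)⁻¹)⁻¹ * ((W ^ (2 * L) * (W' ^ L)⁻¹) *
          ((W' ^ L * c'⁻¹) * (c' * d⁻¹))) := by
        group
      have f1 := hρ.mul (W ^ (2 * L) * (c ^ 2)⁻¹)⁻¹ ((W ^ (2 * L) * (W' ^ L)⁻¹) *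
          ((W' ^ L * c'⁻¹) * (c' * d⁻¹)))
      have f2 := hρ.mul (W ^ (2 * L) * (W' ^ L)⁻¹) ((W' ^ L * c'⁻¹) * (c' * d⁻¹))
      have f3 := hρ.mul (W' ^ L * c'⁻¹) (c' * d⁻¹)
      rw [hρ.inv] at f1
      rw [e9]
      linarith
  intro k W hW
  obtain ⟨c, hc, e1⟩ := h1 k W hW
  have e2 := hDε c (main k W hW c hc e1)
  have e3 := hρ.mul (W ^ L * c⁻¹) c
  rw [inv_mul_cancel_right] at e3
  linarith

end Pool.Agent.K6.H97.UP
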