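import Pool.Agent.K6.H97.UP.Base

set_option autoImplicit false

/-!
Project UP (helper97), leaf CSG (helper84): the limits of powers of asymptotically central
elements form a central subgroup.
-/

open Filter Topology

universe u v

namespace Pool.Agent.K6.H97.UP

open Pool.Agent.N709.UM

section

variable {G : Type u} [Group G] [TopologicalSpace G] [IsTopologicalGroup G] {ρ : G → ℝ}

theorem Lp_one (hA : S_AIC.{u, 0}) (hG : Gen ρ) (n : ℕ) : Lp ρ n 1 := by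
  refine ⟨pure 1, (hA G ρ hG.pn).2.2.2 _ ?_, ?_⟩
  · exact Subgroup.one_mem (Subgroup.center G)
  · have h1 := tendsto_pure_nhds (fun x : G => x ^ n) (1 : G)
    rw [one_pow] at h1
    exact h1

theorem Lp_mul (hA : S_AIC.{u, 0}) (hP : S_PWR.{u}) (hG : Gen ρ) {n : ℕ} {c c' : G}
    (h : Lp ρ n c) (h' : Lp ρ n c') : Lp ρ n (c * c') := by
  obtain ⟨H, hH, hc⟩ := h
  obtain ⟨H', hH', hc'⟩ := h'
  refine ⟨um H H', (hA G ρ hG.pn).2.1 H H' hH hH', ?_⟩
  have h1 : ∀ a : G, Tendsto (fun b : G => (a * b) ^ n) H' (𝓝 (a ^ n * c')) := by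
    intro a
    have h2 := ((hP G ρ hG H' hH').2 n 1 a).mul hc'
    refine h2.congr fun b => ?_
    rw [zpow_one, one_mul, zpow_natCast, inv_mul_cancel_right]
  have h2 : Tendsto (fun a : G => a ^ n * c') H (𝓝 (c * c')) := hc.mul_const c'
  rw [tendsto_nhds]
  intro O hO hcO
  have h3 := h2.eventually (hO.mem_nhds hcO)
  show ∀ᶠ x in (um H H' : Filter G), x ^ n ∈ O
  rw [ev_um]
  exact h3.mono fun a ha => (h1 a).eventually (hO.mem_nhds ha)

theorem Lp_inv (hA : S_AIC.{u, 0}) (hG : Gen ρ) {n : ℕ} {c : G}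
    (h : Lp ρ n c) : Lp ρ n c⁻¹ := by
  obtain ⟨H, hH, hc⟩ := h
  refine ⟨H.map fun x => x ^ (-1 : ℤ), (hA G ρ hG.pn).1 H hH (-1), ?_⟩
  have h1 : Tendsto ((fun x : G => x ^ n) ∘ fun x : G => x ^ (-1 : ℤ)) H (𝓝 c⁻¹) := by
    refine hc.inv.congr fun x => ?_
    show (x ^ n)⁻¹ = (x ^ (-1 : ℤ)) ^ n
    rw [zpow_neg_one, inv_pow]
  exact tendsto_map'_iff.2 h1

theorem Lp_central [T2Space G] (hP : S_PWR.{u}) (hG : Gen ρ) {n : ℕ} {c : G}
    (h : Lp ρ n c) : c ∈ Subgroup.center G := by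
  obtain ⟨H, hH, hc⟩ := h
  rw [Subgroup.mem_center_iff]
  intro g
  have h1 := (hP G ρ hG H hH).1 n g
  simp only [zpow_natCast] at h1
  have h2 : Tendsto (fun x : G => x ^ n * g * (x ^ n)⁻¹) H (𝓝 (c * g * c⁻¹)) :=
    (hc.mul_const g).mul hc.inv
  have h3 := tendsto_nhds_unique h1 h2
  calc g * c = c * g * c⁻¹ * c := by rw [← h3]
    _ = c * g := by group

end

theorem t_CSG (hA : S_AIC.{u, 0}) (hP : S_PWR.{u}) : S_CSG.{u} := by
  intro G _ _ _ _ ρ hG L
  refine ⟨{ carrier := {c | ∀ n, Lp ρ (L n) c}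
            mul_mem' := fun {a b} ha hb n => Lp_mul hA hP hG (ha n) (hb n)
            one_mem' := fun n => Lp_one hA hG (L n)
            inv_mem' := fun {a} ha n => Lp_inv hA hG (ha n) }, ?_, fun c => Iff.rfl⟩
  intro c hc
  exact Lp_central hP hG (hc 0)

end Pool.Agent.K6.H97.UP
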