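import Pool.Agent.K6.H97.UP.Base

set_option autoImplicit false

/-!
Project UP (helper97), leaf D1 (helper45): the selection property in the first case.
-/

open Filter Topology

universe u v

namespace Pool.Agent.K6.H97.UP

open Pool.Agent.N709.UM

/-- an ultrafilter without concentration of the `e`-th powers, `1 ≤ e ≤ k` -/
theorem d1_exists (hA : S_AIC.{u,0}) (h1 : S_NC1.{u}) (h2 : S_NC2.{u})
    {G : Type u} [Group G] [TopologicalSpace G] [IsTopologicalGroup G]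
    (ρ : G → ℝ) (hρ : Gen ρ) (δ : ℝ)
    (hH : ∀ e : ℕ, 1 ≤ e → ∃ H : Ultrafilter G, AI ρ H ∧ Big ρ H e δ) (k : ℕ) :
    ∃ P : Ultrafilter G, AI ρ P ∧ ∀ e, 1 ≤ e → e ≤ k → NC ρ P e (δ / 2) := by
  obtain ⟨-, hum, -, hcen⟩ := hA G ρ hρ.pn
  induction k with
  | zero =>
    refine ⟨pure 1, hcen _ ?_, fun e he he' => absurd (he.trans he') (by norm_num)⟩
    exact (Subgroup.center G).one_mem
  | succ k ih =>
    obtain ⟨P, hP, hNC⟩ := ih
    obtain ⟨H, hHAI, hBig⟩ := hH (k + 1) (Nat.succ_le_succ (Nat.zero_le k))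
    refine ⟨um H P, hum H P hHAI hP, fun e he he' => ?_⟩
    rcases Nat.lt_or_ge k e with hlt | hle
    · have : e = k + 1 := le_antisymm he' hlt
      subst this
      exact h1 G ρ hρ H P hHAI hP _ δ hBig
    · exact h2 G ρ hρ H P hHAI hP e (δ / 2) (hNC e he hle)

theorem t_D1 (hA : S_AIC.{u,0}) (_hP : S_PWR.{u}) (h1 : S_NC1.{u}) (h2 : S_NC2.{u}) :
    S_D1.{u} := by
  intro G _ _ _ ρ hρ δ hδ hH D hD t ht k
  obtain ⟨P, hP, hNC⟩ := d1_exists hA h1 h2 ρ hρ δ hH (k + 1)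
  obtain ⟨hpow, -, -, -⟩ := hA G ρ hρ.pn
  -- the basic estimate
  have key : ∀ n : ℕ, 1 ≤ n → n ≤ k + 1 → ∀ a b : G,
      ∀ᶠ y in (P : Filter G), δ / 4 - t < ρ (a * y ^ n * b) := by
    intro n hn hnk a b
    have e1 : ∀ᶠ y in (P : Filter G), δ / 4 < ρ (a * b * y ^ n) :=
      hNC n hn hnk (δ / 4) (by linarith) (a * b)
    have e2 : ∀ᶠ y in (P : Filter G), ρ ((y ^ (n : ℤ))⁻¹ * b⁻¹ * y ^ (n : ℤ) * (b⁻¹)⁻¹) < t := by
      have h3 := AI.cm1 (hpow P hP (n : ℤ)) ht b⁻¹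
      exact (h3.mono fun x hx => hx.2 :
        ∀ᶠ x in (P.map (fun x : G => x ^ (n : ℤ)) : Filter G), ρ (x⁻¹ * b⁻¹ * x * (b⁻¹)⁻¹) < t)
    filter_upwards [e1, e2] with y hy1 hy2
    have h4 : a * b * y ^ n * ((y ^ (n : ℤ))⁻¹ * b⁻¹ * y ^ (n : ℤ) * (b⁻¹)⁻¹)
        = a * y ^ n * b := by
      rw [zpow_natCast]
      group
    have h5 := le_mul_right hρ.pn (a * b * y ^ n)
      ((y ^ (n : ℤ))⁻¹ * b⁻¹ * y ^ (n : ℤ) * (b⁻¹)⁻¹)
    rw [h4] at h5
    linarith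
  have ev1 : ∀ᶠ y in (P : Filter G), δ / 4 < ρ y := by
    have h6 := hNC 1 le_rfl (Nat.succ_le_succ (Nat.zero_le k)) (δ / 4) (by linarith) 1
    refine h6.mono fun y hy => ?_
    simpa using hy
  have ev2 : ∀ᶠ y in (P : Filter G), ∀ n ∈ Finset.Icc 1 (k + 1), ∀ h ∈ D, ∀ q ∈ D,
      δ / 4 - t < ρ (h * y ^ n * q) ∧ δ / 4 - t < ρ (q⁻¹ * y ^ n * h⁻¹) := by
    refine (Filter.eventually_all_finset _).2 fun n hn => ?_
    rw [Finset.mem_Icc] at hn
    refine (Filter.eventually_all_finite hD).2 fun h _ => ?_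
    refine (Filter.eventually_all_finite hD).2 fun q _ => ?_
    exact (key n hn.1 hn.2 h q).and (key n hn.1 hn.2 q⁻¹ h⁻¹)
  obtain ⟨y, hy1, hy2, hy3, hy4⟩ := (ev1.and ((AI.iv hP ht).and ((AI.cm hP ht hD).and ev2))).exists
  refine ⟨y, hy1.le, hy2, hy3, ?_⟩
  intro i _ h hh q hq M hM
  show min (ρ (h * q)) (δ / 4) - t ≤ ρ (h * y ^ M * q)
  rcases Nat.eq_zero_or_pos M.natAbs with h0 | hpos
  · have : M = 0 := Int.natAbs_eq_zero.1 h0
    subst this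
    rw [zpow_zero, mul_one]
    have := min_le_left (ρ (h * q)) (δ / 4)
    linarith
  · have hmem : M.natAbs ∈ Finset.Icc 1 (k + 1) := by
      rw [Finset.mem_Icc]
      exact ⟨hpos, hM.trans (Nat.le_succ k)⟩
    obtain ⟨h7, h8⟩ := hy4 _ hmem h hh q hq
    have h9 := min_le_right (ρ (h * q)) (δ / 4)
    rcases Int.natAbs_eq M with hM' | hM'
    · have h10 : y ^ M = y ^ M.natAbs := by
        conv_lhs => rw [hM']
        rw [zpow_natCast]
      rw [h10]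
      linarith
    · have h10 : y ^ M = (y ^ M.natAbs)⁻¹ := by
        conv_lhs => rw [hM']
        rw [zpow_neg, zpow_natCast]
      have h11 : ρ (h * y ^ M * q) = ρ (q⁻¹ * y ^ M.natAbs * h⁻¹) := by
        rw [h10, ← hρ.pn.inv (h * (y ^ M.natAbs)⁻¹ * q)]
        congr 1
        group
      rw [h11]
      linarith

end Pool.Agent.K6.H97.UP
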