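import Pool.Agent.K6.H97.UP.Base

set_option autoImplicit false

/-!
Project UP (helper97), leaf DER (helper84): collective smallness for the sequence.
-/

open Filter Topology

universe u v

namespace Pool.Agent.K6.H97.UP

open Pool.Agent.N709.UM

section

variable {G : Type u} [Group G] {ρ : G → ℝ}

theorem iv_mono {s t : ℝ} (h : s ≤ t) {x : G} (hx : Iv ρ s x) : Iv ρ t x := fun c =>
  ⟨(hx c).1.trans (by linarith), (hx c).2.trans (by linarith)⟩

theorem iv_one : Iv ρ 0 (1 : G) := fun c => by simp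

theorem iv_mul {s t : ℝ} {x y : G} (hx : Iv ρ s x) (hy : Iv ρ t y) : Iv ρ (s + t) (x * y) := by
  intro c
  have e1 : x * y * c * (x * y)⁻¹ = x * (y * c * y⁻¹) * x⁻¹ := by group
  have e2 : (x * y)⁻¹ * c * (x * y) = y⁻¹ * (x⁻¹ * c * x) * y := by group
  rw [e1, e2]
  have h1 := (hx (y * c * y⁻¹)).1
  have h2 := (hy c).1
  have h3 := (hy (x⁻¹ * c * x)).2
  have h4 := (hx c).2
  exact ⟨by linarith, by linarith⟩

theorem iv_inv {s : ℝ} {x : G} (hx : Iv ρ s x) : Iv ρ s x⁻¹ := by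
  intro c
  rw [inv_inv]
  exact ⟨(hx c).2, (hx c).1⟩

theorem iv_pow {s : ℝ} {x : G} (hx : Iv ρ s x) (n : ℕ) : Iv ρ ((n : ℝ) * s) (x ^ n) := by
  induction n with
  | zero => simpa using (iv_one : Iv ρ 0 (1 : G))
  | succ n ih =>
    rw [pow_succ]
    exact iv_mono (by push_cast; linarith) (iv_mul ih hx)

theorem iv_zpow {s : ℝ} (hs : 0 ≤ s) {x : G} (hx : Iv ρ s x) (m : ℤ) {T : ℕ}
    (hm : m.natAbs ≤ T) : Iv ρ ((T : ℝ) * s) (x ^ m) := by
  have h1 : ((m.natAbs : ℕ) : ℝ) * s ≤ (T : ℝ) * s :=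
    mul_le_mul_of_nonneg_right (by exact_mod_cast hm) hs
  refine iv_mono h1 ?_
  rcases Int.natAbs_eq m with h | h
  · have h2 := iv_pow hx m.natAbs
    rw [← zpow_natCast, ← h] at h2
    exact h2
  · have h2 := iv_inv (iv_pow hx m.natAbs)
    rw [← zpow_natCast, ← zpow_neg, ← h] at h2
    exact h2

theorem WW_iv {x : ℕ → G} {s : ℕ → ℝ} (hs : ∀ k, 0 ≤ s k) (hx : ∀ k, Iv ρ (s k) (x k))
    (T : ℕ → ℕ) (K : ℕ) : ∀ k, ∀ W ∈ WW x T K k,
      Iv ρ (∑ j ∈ Finset.Ico K k, (T j : ℝ) * s j) W := by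
  intro k
  induction k with
  | zero =>
    rintro W hW
    have hW' : W = 1 := hW
    subst hW'
    simpa using (iv_one : Iv ρ 0 (1 : G))
  | succ k ih =>
    rintro W ⟨h, hh, m, hm, hm0, rfl⟩
    rcases lt_or_ge k K with hk | hk
    · rw [hm0 hk, zpow_zero, mul_one, Finset.Ico_eq_empty (by omega), Finset.sum_empty]
      have h1 := ih h hh
      rw [Finset.Ico_eq_empty (by omega), Finset.sum_empty] at h1
      exact h1
    · rw [Finset.sum_Ico_succ_top hk]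
      exact iv_mul (ih h hh) (iv_zpow (hs k) (hx k) m hm)

theorem zpw {W' : G} (hp : PN ρ) {ι : ℝ} (hW : Iv ρ ι W') (δ : G) (n : ℕ) :
    ρ ((δ * W') ^ n * (W' ^ n)⁻¹) ≤ (n : ℝ) * (ρ δ + ι) := by
  induction n with
  | zero => simp [hp.one]
  | succ n ih =>
    have e : (δ * W') ^ (n + 1) * (W' ^ (n + 1))⁻¹
        = δ * (W' * ((δ * W') ^ n * (W' ^ n)⁻¹) * W'⁻¹) := by
      rw [pow_succ' (δ * W'), pow_succ' W']
      group
    rw [e]
    have h1 := hp.mul δ (W' * ((δ * W') ^ n * (W' ^ n)⁻¹) * W'⁻¹)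
    have h2 := (hW ((δ * W') ^ n * (W' ^ n)⁻¹)).1
    push_cast
    linarith

theorem sum4 (K k : ℕ) : ∑ j ∈ Finset.Ico K k, (1 / 4 : ℝ) ^ j ≤ 4 / 3 * (1 / 4 : ℝ) ^ K := by
  have h := geom_sum_Ico_le_of_lt_one (x := (1 / 4 : ℝ)) (by norm_num) (by norm_num)
    (m := K) (n := k)
  refine h.trans (le_of_eq ?_)
  ring

end

theorem t_DER (hC : S_COL.{u}) : S_DER.{u} := by
  intro G _ ρ hp C hCc L η E t D hS q s e hs0 hs x hx i
  -- basic constants
  set μ : ℝ := min (t i) (η i) with hμ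
  have hμt : μ ≤ t i := min_le_left _ _
  have hμη : μ ≤ η i := min_le_right _ _
  have hti : 0 < t i := hS.tpos i
  have hηi : 0 < η i := hS.ηpos i
  have hμ0 : 0 < μ := lt_min hti hηi
  have hη1 : η i ≤ 1 := (hS.ηle i).trans (pow_le_one₀ (by norm_num) (by norm_num))
  have hL0 : (0 : ℝ) < L i := by
    have := hS.Lpos i
    have h2 : 0 < L i := by omega
    exact_mod_cast h2
  obtain ⟨K0, hK0⟩ : ∃ K0 : ℕ, (1 / 4 : ℝ) ^ K0 < η i / (10 * (L i : ℝ)) :=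
    exists_pow_lt_of_lt_one (by positivity) (by norm_num)
  set K : ℕ := max K0 (max i 1) with hK
  have hKi : i ≤ K := (le_max_left _ _).trans (le_max_right _ _)
  have hK1 : 1 ≤ K := (le_max_right _ _).trans (le_max_right _ _)
  have hKK0 : K0 ≤ K := le_max_left _ _
  have hpK : (1 / 4 : ℝ) ^ K ≤ (1 / 4 : ℝ) ^ K0 :=
    pow_le_pow_of_le_one (by norm_num) (by norm_num) hKK0
  have hpK1 : (1 / 4 : ℝ) ^ K ≤ 1 / 4 := by
    have h := pow_le_pow_of_le_one (a := (1 / 4 : ℝ)) (by norm_num) (by norm_num) hK1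
    simpa using h
  have hpK0 : (0 : ℝ) < (1 / 4 : ℝ) ^ K := by positivity
  -- the tolerances
  have hsm : ∀ k, K ≤ k → ((L k : ℝ) + 1) * s k ≤ (1 / 4 : ℝ) ^ k * μ := fun k hk =>
    hs k i (hKi.trans hk)
  have hLs : ∀ k, 0 ≤ (L k : ℝ) * s k := fun k => mul_nonneg (Nat.cast_nonneg _) (hs0 k).le
  have hs1 : ∀ k, K ≤ k → s k ≤ (1 / 4 : ℝ) ^ k * μ := fun k hk => by
    have h1 := hsm k hk
    have h2 := hLs k
    linarith [add_mul (L k : ℝ) 1 (s k)]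
  have hs2 : ∀ k, K ≤ k → (L k : ℝ) * s k ≤ (1 / 4 : ℝ) ^ k * μ := fun k hk => by
    have h1 := hsm k hk
    have h2 := (hs0 k).le
    linarith [add_mul (L k : ℝ) 1 (s k)]
  have hsumL : ∀ k, ∑ j ∈ Finset.Ico K k, (L j : ℝ) * s j ≤ 4 / 3 * (1 / 4 : ℝ) ^ K * μ := by
    intro k
    calc ∑ j ∈ Finset.Ico K k, (L j : ℝ) * s j
        ≤ ∑ j ∈ Finset.Ico K k, (1 / 4 : ℝ) ^ j * μ :=
          Finset.sum_le_sum fun j hj => hs2 j (Finset.mem_Ico.1 hj).1
      _ = (∑ j ∈ Finset.Ico K k, (1 / 4 : ℝ) ^ j) * μ := by rw [Finset.sum_mul]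
      _ ≤ 4 / 3 * (1 / 4 : ℝ) ^ K * μ := mul_le_mul_of_nonneg_right (sum4 K k) hμ0.le
  have hsumS : ∀ k, ∑ j ∈ Finset.Ico K k, s j ≤ 4 / 3 * (1 / 4 : ℝ) ^ K * μ := by
    intro k
    calc ∑ j ∈ Finset.Ico K k, s j
        ≤ ∑ j ∈ Finset.Ico K k, (1 / 4 : ℝ) ^ j * μ :=
          Finset.sum_le_sum fun j hj => hs1 j (Finset.mem_Ico.1 hj).1
      _ = (∑ j ∈ Finset.Ico K k, (1 / 4 : ℝ) ^ j) * μ := by rw [Finset.sum_mul]
      _ ≤ 4 / 3 * (1 / 4 : ℝ) ^ K * μ := mul_le_mul_of_nonneg_right (sum4 K k) hμ0.le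
  have hsmall : 4 / 3 * (1 / 4 : ℝ) ^ K * μ ≤ 1 / 3 * μ :=
    mul_le_mul_of_nonneg_right (by linarith) hμ0.le
  have hsub : ∀ k, WW x L K k ⊆ WW x L 0 k := WW_mono x (fun _ => le_rfl) (Nat.zero_le K)
  -- facts on the words
  have hIv : ∀ k, ∀ W ∈ WW x L K k, Iv ρ (4 / 3 * (1 / 4 : ℝ) ^ K * μ) W := fun k W hW =>
    iv_mono (hsumL k) (WW_iv (fun j => (hs0 j).le) (fun j => (hx j).inv) L K k W hW)
  have hCm : ∀ k, ∀ W ∈ WW x L K k, ∀ c ∈ D i,
      ρ (W * c * W⁻¹ * c⁻¹) ≤ ∑ j ∈ Finset.Ico K k, s j ∧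
      ρ (W⁻¹ * c * W * c⁻¹) ≤ ∑ j ∈ Finset.Ico K k, s j := by
    intro k
    induction k with
    | zero =>
      intro W hW c _
      have hW' : W = 1 := hW
      subst hW'
      simp [hp.one]
    | succ k ih =>
      rintro W ⟨h, hh, m, hm, hm0, rfl⟩ c hc
      obtain ⟨i1, i2⟩ := ih h hh c hc
      rcases lt_or_ge k K with hk | hk
      · rw [hm0 hk, zpow_zero, mul_one, Finset.Ico_eq_empty (by omega), Finset.sum_empty]
        rw [Finset.Ico_eq_empty (by omega), Finset.sum_empty] at i1 i2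
        exact ⟨i1, i2⟩
      · rw [Finset.sum_Ico_succ_top hk]
        have j1 := (hx k).cD1 i (hKi.trans hk) h (hsub k hh) c hc m hm
        have j2 := (hx k).cD2 i (hKi.trans hk) h (hsub k hh) c hc m hm
        have e1 : h * x k ^ m * c * (h * x k ^ m)⁻¹ * c⁻¹
            = (h * (x k ^ m * c * (x k ^ m)⁻¹ * c⁻¹) * h⁻¹) * (h * c * h⁻¹ * c⁻¹) := by group
        have e2 : (h * x k ^ m)⁻¹ * c * (h * x k ^ m) * c⁻¹
            = ((x k ^ m)⁻¹ * (h⁻¹ * c * h) * x k ^ m * (h⁻¹ * c * h)⁻¹) *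
              (h⁻¹ * c * h * c⁻¹) := by group
        rw [e1, e2]
        have k1 := hp.mul (h * (x k ^ m * c * (x k ^ m)⁻¹ * c⁻¹) * h⁻¹) (h * c * h⁻¹ * c⁻¹)
        have k2 := hp.mul ((x k ^ m)⁻¹ * (h⁻¹ * c * h) * x k ^ m * (h⁻¹ * c * h)⁻¹)
          (h⁻¹ * c * h * c⁻¹)
        exact ⟨by linarith, by linarith⟩
  -- application of COL
  have hη0 : ∀ k, 0 ≤ η k := fun k => (hS.ηpos k).le
  have hcol := hC G ρ hp C hCc (E i) (1 / ((i : ℝ) + 1)) (η i) (L i) x L K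
    (fun k => s k + 2 * η k) (8 * (1 / 4 : ℝ) ^ K) hηi (hS.Esub i) (hS.Elt i) (hS.near i)
    (hS.lock i) ?_ ?_ ?_ ?_ ?_ ?_ ?_
  rotate_left
  · -- H1
    intro k W hW
    refine hS.app i W (iv_mono ?_ (hIv k W hW)) ?_
    · linarith
    · intro c hc
      obtain ⟨h1, h2⟩ := hCm k W hW c hc
      have h3 := hsumS k
      exact ⟨by linarith, by linarith⟩
  · -- H2
    intro k hk h hh m hm
    have h1 := (hx k).pow i (hKi.trans hk) h (hsub k hh) m hm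
    have h2 := (hx k).sml i (hKi.trans hk) h (hsub k hh) m hm
    have e : (h * x k ^ m) ^ L i * (h ^ L i)⁻¹
        = ((h * x k ^ m) ^ L i * (h ^ L i * x k ^ (m * (L i : ℤ)))⁻¹) *
          (h ^ L i * x k ^ (m * (L i : ℤ)) * (h ^ L i)⁻¹) := by group
    rw [e]
    have h3 := hp.mul ((h * x k ^ m) ^ L i * (h ^ L i * x k ^ (m * (L i : ℤ)))⁻¹)
      (h ^ L i * x k ^ (m * (L i : ℤ)) * (h ^ L i)⁻¹)
    have h4 := hs1 k hk
    have h5 : (1 / 4 : ℝ) ^ k * μ ≤ μ := by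
      have h6 : (1 / 4 : ℝ) ^ k ≤ 1 := pow_le_one₀ (by norm_num) (by norm_num)
      nlinarith
    linarith
  · -- H3
    intro k hk h hh m hm
    have h1 := (hx k).squ h (hsub k hh) m hm
    have h2 := hη0 k
    show _ ≤ s k + 2 * η k
    linarith
  · -- H4
    intro k hk h hh
    have h1 := (hx k).tor h (hsub k hh)
    have h2 := (hs0 k).le
    show _ ≤ s k + 2 * η k
    linarith
  · -- H5
    intro k
    have h1 := hη0 k
    have h2 := (hs0 k).le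
    show 0 ≤ s k + 2 * η k
    linarith
  · -- H6
    intro k
    have h1 : ∀ j ∈ Finset.Ico K k, 2 * (s j + 2 * η j) ≤ 6 * (1 / 4 : ℝ) ^ j := by
      intro j hj
      have hj1 := (Finset.mem_Ico.1 hj).1
      have h2 := hs1 j hj1
      have h3 := hS.ηle j
      have h4 : (1 / 4 : ℝ) ^ j * μ ≤ (1 / 4 : ℝ) ^ j := by
        have h5 : (0 : ℝ) < (1 / 4 : ℝ) ^ j := by positivity
        nlinarith
      linarith
    calc ∑ j ∈ Finset.Ico K k, 2 * (s j + 2 * η j)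
        ≤ ∑ j ∈ Finset.Ico K k, 6 * (1 / 4 : ℝ) ^ j := Finset.sum_le_sum h1
      _ = 6 * ∑ j ∈ Finset.Ico K k, (1 / 4 : ℝ) ^ j := by rw [Finset.mul_sum]
      _ ≤ 8 * (1 / 4 : ℝ) ^ K := by linarith [sum4 K k]
  · -- H7
    intro k W hW W' hW' hWW
    have h1 := zpw hp (hIv k W' hW') (W ^ 2 * W'⁻¹) (L i)
    rw [inv_mul_cancel_right, ← pow_mul] at h1
    refine h1.trans ?_
    have h2 : 4 / 3 * (1 / 4 : ℝ) ^ K * μ ≤ 4 / 3 * (1 / 4 : ℝ) ^ K := by nlinarith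
    have h3 : ρ (W ^ 2 * W'⁻¹) + 4 / 3 * (1 / 4 : ℝ) ^ K * μ ≤ η i / L i := by
      have h4 : (10 : ℝ) * (1 / 4 : ℝ) ^ K ≤ η i / L i := by
        have h5 := hpK.trans hK0.le
        have h6 : η i / (10 * (L i : ℝ)) = (η i / L i) / 10 := by
          rw [mul_comm, div_div]
        rw [h6] at h5
        linarith
      linarith
    calc (L i : ℝ) * (ρ (W ^ 2 * W'⁻¹) + 4 / 3 * (1 / 4 : ℝ) ^ K * μ)
        ≤ (L i : ℝ) * (η i / L i) := mul_le_mul_of_nonneg_left h3 hL0.le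
      _ = η i := by field_simp
  -- conclusion
  have hfin : ∀ k, ∀ h ∈ WW (fun j => x j ^ L i) (fun j => j) K k, ∃ W ∈ WW x L K k,
      ρ (W ^ L i * h⁻¹) ≤ ∑ j ∈ Finset.Ico K k, s j := by
    intro k
    induction k with
    | zero =>
      intro h hh
      have hh' : h = 1 := hh
      subst hh'
      exact ⟨1, rfl, by simp [hp.one]⟩
    | succ k ih =>
      rintro g ⟨h, hh, m, hm, hm0, rfl⟩
      obtain ⟨W, hW, hWh⟩ := ih h hh
      have hmL : m.natAbs ≤ L k := by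
        have h1 := hS.Lpos k
        have h2 : m.natAbs ≤ k := hm
        omega
      refine ⟨W * x k ^ m, ⟨W, hW, m, hmL, hm0, rfl⟩, ?_⟩
      rcases lt_or_ge k K with hk | hk
      · rw [hm0 hk, zpow_zero, zpow_zero, mul_one, mul_one, Finset.Ico_eq_empty (by omega),
          Finset.sum_empty]
        rw [Finset.Ico_eq_empty (by omega), Finset.sum_empty] at hWh
        exact hWh
      · rw [Finset.sum_Ico_succ_top hk]
        have h1 := (hx k).pow i (hKi.trans hk) W (hsub k hW) m hmL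
        have e0 : (x k ^ L i) ^ m = x k ^ (m * (L i : ℤ)) := by
          rw [← zpow_natCast, ← zpow_mul]
          congr 1
          ring
        have e : (W * x k ^ m) ^ L i * (h * (x k ^ L i) ^ m)⁻¹
            = ((W * x k ^ m) ^ L i * (W ^ L i * x k ^ (m * (L i : ℤ)))⁻¹) *
              (W ^ L i * h⁻¹) := by
          rw [e0]
          group
        show ρ ((W * x k ^ m) ^ L i * (h * (x k ^ L i) ^ m)⁻¹) ≤ _
        rw [e]
        have h2 := hp.mul ((W * x k ^ m) ^ L i * (W ^ L i * x k ^ (m * (L i : ℤ)))⁻¹)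
          (W ^ L i * h⁻¹)
        linarith
  refine ⟨K, fun k h hh => ?_⟩
  obtain ⟨W, hW, hWh⟩ := hfin k h hh
  have h1 := hcol k W hW
  have h2 : ρ h ≤ ρ (W ^ L i) + ρ (W ^ L i * h⁻¹) := by
    have h3 := hp.mul (W ^ L i * h⁻¹)⁻¹ (W ^ L i)
    have e : (W ^ L i * h⁻¹)⁻¹ * W ^ L i = h := by group
    rw [e, hp.inv] at h3
    linarith
  have h3 := hsumS k
  have h4 : η i ≤ 1 / ((i : ℝ) + 1) := by
    refine (hS.ηle i).trans ?_
    rw [one_div_pow]
    refine one_div_le_one_div_of_le (by positivity) ?_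
    have h5 : ∀ n : ℕ, (n : ℝ) + 1 ≤ (4 : ℝ) ^ n := by
      intro n
      induction n with
      | zero => norm_num
      | succ n ih =>
        rw [pow_succ]
        push_cast
        have h6 : (0 : ℝ) ≤ (n : ℝ) := Nat.cast_nonneg n
        linarith
    exact h5 i
  have h6 : (3 : ℝ) / ((i : ℝ) + 1) = 3 * (1 / ((i : ℝ) + 1)) := by ring
  rw [h6]
  linarith

end Pool.Agent.K6.H97.UP
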