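import Pool.Agent.K6.H97.UP.Base

set_option autoImplicit false

/-!
Project UP (helper97), leaf EX (helper96): existence of the sequence of exponents.
-/

open Filter Topology

universe u

namespace Pool.Agent.K6.H97.UP

open Pool.Agent.N709.UM

theorem t_EX (hA : S_AIC.{u, 0}) : S_EX.{u} := by
  intro G _ ρ hρ hD
  have h1 : ∀ n : ℕ, ∃ e : ℕ, 1 ≤ e ∧ ∀ H : Ultrafilter G, AI ρ H →
      ∀ᶠ a in (H : Filter G), ∀ᶠ b in (H : Filter G),
        ρ (a ^ e * (b ^ e)⁻¹) < 1 / ((n : ℝ) + 1) := fun n => hD _ (by positivity)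
  choose e he he2 using h1
  refine ⟨fun n => ∏ j ∈ Finset.range (n + 1), e j * (j + 1), ?_, ?_, ?_⟩
  · intro n
    have hpos : 1 ≤ ∏ j ∈ Finset.range n, e j * (j + 1) :=
      Finset.one_le_prod' fun j _ => Nat.mul_pos (he j) (Nat.succ_pos j)
    calc n + 1 = 1 * (1 * (n + 1)) := by ring
      _ ≤ (∏ j ∈ Finset.range n, e j * (j + 1)) * (e n * (n + 1)) :=
        Nat.mul_le_mul hpos (Nat.mul_le_mul_right _ (he n))
      _ = ∏ j ∈ Finset.range (n + 1), e j * (j + 1) := (Finset.prod_range_succ _ _).symm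
  · intro j n hjn
    refine Finset.prod_dvd_prod_of_subset _ _ _ ?_
    intro i hi
    rw [Finset.mem_range] at hi ⊢
    omega
  · intro n H hH m
    have h2 := he2 n _ ((hA G ρ hρ).1 H hH
      ((m * ((∏ j ∈ Finset.range n, e j * (j + 1)) * (n + 1)) : ℕ) : ℤ))
    have h3 : ∀ x : G, (x ^ ((m * ((∏ j ∈ Finset.range n, e j * (j + 1)) * (n + 1)) : ℕ) : ℤ)) ^
        e n = x ^ (m * ∏ j ∈ Finset.range (n + 1), e j * (j + 1)) := by
      intro x
      rw [zpow_natCast, ← pow_mul, Finset.prod_range_succ]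
      congr 1
      ring
    have h4 : ∀ᶠ a in (H : Filter G), ∀ᶠ b in (H : Filter G),
        ρ ((a ^ ((m * ((∏ j ∈ Finset.range n, e j * (j + 1)) * (n + 1)) : ℕ) : ℤ)) ^ e n *
          ((b ^ ((m * ((∏ j ∈ Finset.range n, e j * (j + 1)) * (n + 1)) : ℕ) : ℤ)) ^ e n)⁻¹) <
          1 / ((n : ℝ) + 1) := h2
    refine h4.mono fun a ha => ha.mono fun b hb => ?_
    rw [h3, h3] at hb
    exact hb

end Pool.Agent.K6.H97.UP
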