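import Pool.Agent.N709.UM.Prod2

set_option autoImplicit false

/-!
Project UP (helper97): compact normal subgroups.
-/

open Filter Topology

universe u v

namespace Pool.Agent.K6.H97.UP

open Pool.Agent.N709.UM

/-- a group is minimal if its quotient by a compact normal subgroup is -/
theorem min_of_quot {A : Type u} [Group A] [tA : TopologicalSpace A] [hA : IsTopologicalGroup A]
    (K : Subgroup A) [K.Normal] (hK : IsCompact (K : Set A))
    (h : Pool.Agent.N709.UM.Min (A ⧸ K)) : Pool.Agent.N709.UM.Min A := by
  intro s hs1 hs2 hle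
  have hid : @Continuous A A tA s id := continuous_id_iff_le.2 hle
  have hKs : @IsCompact A s (K : Set A) := by
    have h1 := @IsCompact.image A A tA s _ _ hK hid
    rwa [Set.image_id] at h1
  have hKc : @IsClosed A s (K : Set A) := @IsCompact.isClosed A s hs2 _ hKs
  have key : @QuotientGroup.instTopologicalSpace A s _ K =
      @QuotientGroup.instTopologicalSpace A tA _ K := by
    refine h _ ?_ ?_ ?_
    · exact @QuotientGroup.instIsTopologicalGroup A s _ hs1 K _
    · let _ := s
      have _ := hs1
      have _ : IsClosed (K : Set A) := hKc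
      infer_instance
    · exact coinduced_mono hle
  have hn : @nhds A s 1 = @nhds A tA 1 := by
    refine le_antisymm ?_ (nhds_mono hle)
    rw [le_iff_ultrafilter]
    intro W hW
    have h1 : @Tendsto A (A ⧸ K) (fun a : A => (a : A ⧸ K)) W
        (@nhds (A ⧸ K) (@QuotientGroup.instTopologicalSpace A tA _ K) ((1 : A) : A ⧸ K)) := by
      have h2 : @Tendsto A (A ⧸ K) (fun a : A => (a : A ⧸ K)) (@nhds A s 1)
          (@nhds (A ⧸ K) (@QuotientGroup.instTopologicalSpace A s _ K) ((1 : A) : A ⧸ K)) := by
        have h3 : @Continuous A (A ⧸ K) s (@QuotientGroup.instTopologicalSpace A s _ K)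
            (fun a : A => (a : A ⧸ K)) := @continuous_quotient_mk' A s (QuotientGroup.leftRel K)
        exact h3.tendsto 1
      rw [key] at h2
      exact h2.mono_left hW
    obtain ⟨z, hz⟩ := @conv_of_quot A _ tA hA K hK W _ h1
    have h4 : (W : Filter A) ≤ @nhds A s z := hz.trans (nhds_mono hle)
    have h5 : z = 1 := @tendsto_nhds_unique A A s hs2 id W z 1 _ h4 hW
    rwa [h5] at hz
  exact IsTopologicalGroup.ext hs1 hA hn

/-- products of groups with compact normal subgroups such that the product of the quotients is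
minimal -/
theorem prod_of_quot (I : Type v) (G : I → Type u) [∀ i, Group (G i)]
    [∀ i, TopologicalSpace (G i)] [∀ i, IsTopologicalGroup (G i)] (K : ∀ i, Subgroup (G i))
    [∀ i, (K i).Normal] (hK : ∀ i, IsCompact (K i : Set (G i)))
    (h : Pool.Agent.N709.UM.Min (∀ i, G i ⧸ K i)) : Pool.Agent.N709.UM.Min (∀ i, G i) := by
  classical
  let q : (∀ i, G i) →* (∀ i, G i ⧸ K i) :=
    { toFun := Pi.map fun i x => (QuotientGroup.mk x : G i ⧸ K i)
      map_one' := rfl
      map_mul' := fun _ _ => rfl }
  have hq : Function.Surjective q := by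
    intro y
    choose x hx using fun i => QuotientGroup.mk_surjective (y i)
    exact ⟨x, funext hx⟩
  have hqc : Continuous q :=
    continuous_pi fun i => QuotientGroup.continuous_mk.comp (continuous_apply i)
  have hqo : IsOpenMap q :=
    IsOpenMap.piMap (fun i => QuotientGroup.isOpenMap_coe)
      (Eventually.of_forall fun i => QuotientGroup.mk_surjective)
  have hker : (q.ker : Set (∀ i, G i)) = Set.pi Set.univ fun i => (K i : Set (G i)) := by
    ext x
    simp only [SetLike.mem_coe, MonoidHom.mem_ker, Set.mem_pi, Set.mem_univ, true_imp_iff]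
    constructor
    · intro hx i
      have h1 : q x i = 1 := by rw [hx]; rfl
      exact (QuotientGroup.eq_one_iff (x i)).1 h1
    · intro hx
      funext i
      exact (QuotientGroup.eq_one_iff (x i)).2 (hx i)
  have hkc : IsCompact (q.ker : Set (∀ i, G i)) := by
    rw [hker]
    exact isCompact_univ_pi hK
  refine min_of_quot q.ker hkc ?_
  let e : (∀ i, G i) ⧸ q.ker ≃* (∀ i, G i ⧸ K i) := QuotientGroup.quotientKerEquivOfSurjective q hq
  have hec : ∀ x : ∀ i, G i, e (QuotientGroup.mk x) = q x := fun x => rfl
  refine Pool.Agent.N942.UMQUO.min_congr e ?_ ?_ h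
  · rw [(QuotientGroup.isQuotientMap_mk (N := q.ker)).continuous_iff]
    exact hqc
  · intro U hU
    have h1 : (e '' U : Set (∀ i, G i ⧸ K i)) = q '' (QuotientGroup.mk ⁻¹' U) := by
      ext y
      constructor
      · rintro ⟨x, hx, rfl⟩
        obtain ⟨x, rfl⟩ := QuotientGroup.mk_surjective x
        exact ⟨x, hx, (hec x).symm⟩
      · rintro ⟨x, hx, rfl⟩
        exact ⟨QuotientGroup.mk x, hx, hec x⟩
    rw [h1]
    exact hqo _ (hU.preimage QuotientGroup.continuous_mk)

end Pool.Agent.K6.H97.UP
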