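import Pool.Agent.K6.H97.UP.Base
import Pool.Agent.Helper472.Lat_Chars

set_option autoImplicit false

/-!
Project UP (helper97), leaf LOCK: neighbourhoods of `1` in a compact central subgroup which are
stable under doubling (by helper44).
-/

open Filter Topology

universe u v

namespace Pool.Agent.K6.H97.UP

open Pool.Agent.N709.UM

namespace LOCK

/-- doubling moves a complex number of norm one away from `1` -/
theorem dbl (z : ℂ) {r : ℝ} (h : ‖z - 1‖ ≤ r) : ‖z - 1‖ * (2 - r) ≤ ‖z ^ 2 - 1‖ := by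
  have h1 : z ^ 2 - 1 = (z - 1) * (z + 1) := by ring
  rw [h1, norm_mul]
  have h2 : (2 : ℝ) - r ≤ ‖z + 1‖ := by
    have h3 : ‖(2 : ℂ)‖ ≤ ‖z + 1‖ + ‖z - 1‖ := by
      have h4 : (2 : ℂ) = (z + 1) - (z - 1) := by ring
      calc ‖(2 : ℂ)‖ = ‖(z + 1) - (z - 1)‖ := by rw [← h4]
        _ ≤ ‖z + 1‖ + ‖z - 1‖ := norm_sub_le _ _
    have h5 : ‖(2 : ℂ)‖ = 2 := by simp
    rw [h5] at h3
    linarith
  exact mul_le_mul_of_nonneg_left h2 (norm_nonneg _)

/-- some power of a complex number different from `1` is far from `1` -/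
theorem far (z : ℂ) (hz : z ≠ 1) : ∃ n : ℕ, 1 / 4 < ‖z ^ n - 1‖ := by
  by_contra hcon
  push Not at hcon
  have h1 : ∀ k : ℕ, (7 / 4 : ℝ) ^ k * ‖z - 1‖ ≤ ‖z ^ (2 ^ k) - 1‖ := by
    intro k
    induction k with
    | zero => simp
    | succ k ih =>
      have h2 := dbl (z ^ (2 ^ k)) (hcon (2 ^ k))
      have h3 : (z ^ (2 ^ k)) ^ 2 = z ^ (2 ^ (k + 1)) := by rw [← pow_mul, pow_succ]
      rw [h3] at h2
      calc (7 / 4 : ℝ) ^ (k + 1) * ‖z - 1‖ = ((7 / 4 : ℝ) ^ k * ‖z - 1‖) * (7 / 4) := by ring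
        _ ≤ ‖z ^ (2 ^ k) - 1‖ * (7 / 4) := by
          exact mul_le_mul_of_nonneg_right ih (by norm_num)
        _ = ‖z ^ (2 ^ k) - 1‖ * (2 - 1 / 4) := by norm_num
        _ ≤ _ := h2
  have hpos : 0 < ‖z - 1‖ := norm_pos_iff.2 (sub_ne_zero.2 hz)
  obtain ⟨k, hk⟩ := pow_unbounded_of_one_lt (1 / ‖z - 1‖) (by norm_num : (1 : ℝ) < 7 / 4)
  have h4 : 1 < (7 / 4 : ℝ) ^ k * ‖z - 1‖ := by
    rw [div_lt_iff₀ hpos] at hk
    exact hk
  have h5 := h1 k
  have h6 := hcon (2 ^ k)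
  linarith

end LOCK

open LOCK in
theorem t_LOCK : S_LOCK.{u} := by
  intro G _ _ _ _ ρ hG C hC hcpt ε hε
  classical
  let _ : CommGroup C :=
    { (inferInstance : Group C) with
      mul_comm := fun a b => by
        apply Subtype.ext
        exact ((Subgroup.mem_center_iff.1 (hC b.2)) a.1) }
  have _ : IsTopologicalGroup C := inferInstance
  have _ : CompactSpace C := isCompact_iff_compactSpace.1 hcpt
  let f : ContinuousMonoidHom C Circle × ℕ → C → ℂ := fun p k => ((p.1 k : Circle) : ℂ) ^ p.2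
  have f1 : ∀ p, f p 1 = 1 := fun p => by simp [f]
  have fm : ∀ p a b, f p (a * b) = f p a * f p b := fun p a b => by
    simp only [f, map_mul, Circle.coe_mul, mul_pow]
  have fn : ∀ p a, ‖f p a‖ = 1 := fun p a => by simp only [f, norm_pow, Circle.norm_coe, one_pow]
  have fc : ∀ p, Continuous (f p) := by
    intro p
    have h1 : Continuous fun k : C => ((p.1 k : Circle) : ℂ) := by
      exact Continuous.comp (by fun_prop : Continuous fun z : Circle => (z : ℂ)) p.1.continuous_toFun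
    exact h1.pow p.2
  -- the finite set of characters
  have hS : IsCompact {k : C | ε ≤ ρ k} :=
    (isClosed_le continuous_const (hG.cont.comp continuous_subtype_val)).isCompact
  obtain ⟨Φ, hΦ⟩ := hS.elim_finite_subcover (fun p => {k : C | 1 / 4 < ‖f p k - 1‖})
    (fun p => isOpen_lt continuous_const ((fc p).sub continuous_const).norm) (by
      intro k hk
      have hk' : ε ≤ ρ k := hk
      have hk1 : k ≠ 1 := by
        rintro rfl
        have : ρ ((1 : C) : G) = 0 := by rw [Subgroup.coe_one]; exact hG.pn.one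
        linarith
      obtain ⟨χ, hχ⟩ := Pool.LatH472.chars k hk1
      obtain ⟨n, hn⟩ := far ((χ k : Circle) : ℂ) (fun h => hχ (Circle.ext (by simpa using h)))
      exact Set.mem_iUnion.2 ⟨(χ, n), hn⟩)
  -- the radius
  have hU : {k : C | ∀ p ∈ Φ, ‖f p k - 1‖ < 1 / 16} ∈ 𝓝 (1 : C) := by
    have h1 : ∀ p ∈ Φ, ∀ᶠ k in 𝓝 (1 : C), ‖f p k - 1‖ < 1 / 16 := by
      intro p _
      have h2 : Tendsto (fun k => ‖f p k - 1‖) (𝓝 1) (𝓝 ‖f p 1 - 1‖) :=
        (((fc p).sub continuous_const).norm).tendsto 1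
      rw [f1, sub_self, norm_zero] at h2
      exact h2.eventually_lt_const (by norm_num)
    exact (Finset.eventually_all Φ).2 h1
  obtain ⟨U, hU1, hU2⟩ := mem_nhds_subtype (C : Set G) (1 : C) _ |>.1 hU
  have hU1' : U ∈ 𝓝 (1 : G) := by simpa using hU1
  obtain ⟨r, hr, hrU⟩ := hG.gen U hU1'
  have key : ∀ k : C, ρ k ≤ r / 2 → ∀ p ∈ Φ, ‖f p k - 1‖ < 1 / 16 := by
    intro k hk
    have h1 : (k : G) ∈ U := hrU _ (by linarith)
    exact hU2 h1
  -- closeness to an element of the lock set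
  have cl : ∀ c d : C, ρ ((c : G) * (d : G)⁻¹) ≤ r / 2 → ∀ p ∈ Φ, ‖f p d - 1‖ ≤ 1 / 4 →
      ‖f p c - 1‖ ≤ 5 / 16 := by
    intro c d hcd p hp hd
    have h1 := key (c * d⁻¹) (by simpa using hcd) p hp
    have h2 : f p c = f p (c * d⁻¹) * f p d := by rw [← fm, inv_mul_cancel_right]
    have h3 : f p c - 1 = (f p (c * d⁻¹) - 1) * f p d + (f p d - 1) := by rw [h2]; ring
    calc ‖f p c - 1‖ ≤ ‖(f p (c * d⁻¹) - 1) * f p d‖ + ‖f p d - 1‖ := by
          rw [h3]; exact norm_add_le _ _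
      _ = ‖f p (c * d⁻¹) - 1‖ + ‖f p d - 1‖ := by rw [norm_mul, fn, mul_one]
      _ ≤ 1 / 16 + 1 / 4 := add_le_add h1.le hd
      _ = 5 / 16 := by norm_num
  refine ⟨{g : G | ∃ h : g ∈ C, ∀ p ∈ Φ, ‖f p ⟨g, h⟩ - 1‖ ≤ 1 / 4}, r / 2, by linarith, ?_, ?_,
    ?_, ?_⟩
  · rintro g ⟨h, _⟩
    exact h
  · rintro c ⟨hc, hc2⟩
    by_contra hcon
    push Not at hcon
    have h1 := hΦ (show (⟨c, hc⟩ : C) ∈ {k : C | ε ≤ ρ k} from hcon)
    simp only [Set.mem_iUnion, Set.mem_ofPred_eq] at h1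
    obtain ⟨p, hp, hp2⟩ := h1
    have h2 := hc2 p hp
    linarith
  · intro c hc hcr
    exact ⟨hc, fun p hp => (key ⟨c, hc⟩ hcr p hp).le.trans (by norm_num)⟩
  · rintro c hc ⟨d, ⟨hd, hd2⟩, hcd⟩ ⟨d', ⟨hd', hd2'⟩, hcd'⟩
    refine ⟨hc, fun p hp => ?_⟩
    have h1 := cl ⟨c, hc⟩ ⟨d, hd⟩ hcd p hp (hd2 p hp)
    have h2 := cl (⟨c, hc⟩ ^ 2) ⟨d', hd'⟩ (by simpa using hcd') p hp (hd2' p hp)
    have h3 : f p ((⟨c, hc⟩ : C) ^ 2) = f p ⟨c, hc⟩ ^ 2 := by rw [pow_two, fm, pow_two]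
    rw [h3] at h2
    have h4 := dbl (f p ⟨c, hc⟩) h1
    have h5 := norm_nonneg (f p ⟨c, hc⟩ - 1)
    nlinarith

end Pool.Agent.K6.H97.UP
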