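import Pool.Agent.K6.H97.UP.Nc2

set_option autoImplicit false

/-!
Project UP (helper97), leaf NC1 (helper15).
-/

open Filter Topology

universe u

namespace Pool.Agent.K6.H97.UP

open Pool.Agent.N709.UM

theorem t_NC1 (_ : S_AIC.{u, 0}) (hP : S_PWR.{u}) : S_NC1.{u} := by
  intro G _ _ _ ρ hG F H hF hH e δ hB s hs g
  by_contra hcon
  rw [ev_um, not_ev2] at hcon
  obtain ⟨v, hv, hv2⟩ : ∃ v : ℝ, 0 < v ∧ 2 * s + 4 * v < δ :=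
    ⟨(δ - 2 * s) / 8, by linarith, by linarith⟩
  have h1 : ∀ᶠ a in (F : Filter G), ∀ᶠ b in (H : Filter G), ρ (g * a ^ e * b ^ e) ≤ s + v := by
    refine hcon.mono fun a ha => ?_
    filter_upwards [ha, pow_close hP hG hH e g a hv] with b h3 h4
    linarith
  have h2 : ∀ᶠ a in (F : Filter G), ρ (a ^ e * g * (a ^ e)⁻¹ * g⁻¹) < v := by
    have h3 := ((hP G ρ hG F hF).1 (e : ℤ) g).mul_const g⁻¹
    rw [mul_inv_cancel] at h3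
    refine (small hG h3 hv).mono fun a ha => ?_
    rwa [zpow_natCast] at ha
  obtain ⟨a, ⟨ha1, ha2⟩, ha3⟩ := ((h1.and h2).and hB).exists
  obtain ⟨a', ⟨hb1, hb2⟩, hb3⟩ := ((h1.and h2).and ha3).exists
  obtain ⟨b, hc1, hc2⟩ := (ha1.and hb1).exists
  have k1 := hG.pn.mul (g * a ^ e * b ^ e) (g * a' ^ e * b ^ e)⁻¹
  rw [hG.pn.inv] at k1
  have k2 : g * a ^ e * b ^ e * (g * a' ^ e * b ^ e)⁻¹ = g * a ^ e * (a' ^ e)⁻¹ * g⁻¹ := by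
    group
  rw [k2] at k1
  have k3 : a ^ e * (a' ^ e)⁻¹ = (a ^ e * g * (a ^ e)⁻¹ * g⁻¹) *
      ((g * a ^ e * (a' ^ e)⁻¹ * g⁻¹) * (a' ^ e * g * (a' ^ e)⁻¹ * g⁻¹)⁻¹) := by
    group
  have k4 := hG.pn.mul (a ^ e * g * (a ^ e)⁻¹ * g⁻¹)
      ((g * a ^ e * (a' ^ e)⁻¹ * g⁻¹) * (a' ^ e * g * (a' ^ e)⁻¹ * g⁻¹)⁻¹)
  have k5 := hG.pn.mul (g * a ^ e * (a' ^ e)⁻¹ * g⁻¹) (a' ^ e * g * (a' ^ e)⁻¹ * g⁻¹)⁻¹
  rw [hG.pn.inv] at k5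
  rw [← k3] at k4
  linarith

end Pool.Agent.K6.H97.UP
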