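import Pool.Agent.K6.H97.UP.Base

set_option autoImplicit false

/-!
Project UP (helper97), leaf NC2 (helper15).
-/

open Filter Topology

universe u

namespace Pool.Agent.K6.H97.UP

open Pool.Agent.N709.UM

/-- `g (a b)^e` is close to `g a^e b^e` for typical `b` -/
theorem pow_close (hP : S_PWR.{u}) {G : Type u} [Group G] [TopologicalSpace G]
    [IsTopologicalGroup G] {ρ : G → ℝ} (hG : Gen ρ) {H : Ultrafilter G} (hH : AI ρ H) (e : ℕ)
    (g a : G) {t : ℝ} (ht : 0 < t) :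
    ∀ᶠ b in (H : Filter G), ρ (g * a ^ e * b ^ e) ≤ ρ (g * (a * b) ^ e) + t := by
  have h1 := (hP G ρ hG H hH).2 e 1 a
  have h2 : Tendsto (fun b : G => g * ((a * b ^ (1 : ℤ)) ^ e * (b ^ ((1 : ℤ) * (e : ℤ)))⁻¹) *
      (a ^ e)⁻¹ * g⁻¹) H (𝓝 (g * a ^ e * (a ^ e)⁻¹ * g⁻¹)) :=
    ((h1.const_mul g).mul_const _).mul_const _
  rw [mul_inv_cancel_right, mul_inv_cancel] at h2
  refine (small hG h2 ht).mono fun b hb => ?_
  have h3 := hG.pn.mul (g * ((a * b ^ (1 : ℤ)) ^ e * (b ^ ((1 : ℤ) * (e : ℤ)))⁻¹) *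
      (a ^ e)⁻¹ * g⁻¹)⁻¹ (g * (a * b) ^ e)
  rw [hG.pn.inv] at h3
  have h4 : (g * ((a * b ^ (1 : ℤ)) ^ e * (b ^ ((1 : ℤ) * (e : ℤ)))⁻¹) *
      (a ^ e)⁻¹ * g⁻¹)⁻¹ * (g * (a * b) ^ e) = g * a ^ e * b ^ e := by
    rw [zpow_one, one_mul, zpow_natCast]
    group
  rw [h4] at h3
  linarith

theorem t_NC2 (hP : S_PWR.{u}) : S_NC2.{u} := by
  intro G _ _ _ ρ hG F H _ hH e r hN s hs g
  rw [ev_um]
  refine Eventually.of_forall fun a => ?_
  have h1 := hN ((s + r) / 2) (by linarith) (g * a ^ e)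
  have h2 := pow_close hP hG hH e g a (t := (r - s) / 2) (by linarith)
  filter_upwards [h1, h2] with b h3 h4
  linarith

end Pool.Agent.K6.H97.UP
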