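import Pool.Agent.K6.H97.UP.Base
import Pool.Agent.N499.UMNWD

set_option autoImplicit false

/-!
Project UP (helper97), leaf NI (helper84): the norm in which the `L`-th powers of the letters
tend to `1`.
-/

open Filter Topology

universe u v

namespace Pool.Agent.K6.H97.UP

open Pool.Agent.N709.UM

section

variable {G : Type u} [Group G] {ρ : G → ℝ}

open Pool.Agent.N499.UM (NN NN_le le_NN NN_inv_le wt_nonneg wt_append ev_append ev_one)

theorem ni_pn (h : PN ρ) {c : ℕ → ℝ} (hc : ∀ k, 0 < c k) (y : ℕ → G) : PN (NN ρ c y) := by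
  refine ⟨?_, fun g => ?_, fun g g' => ?_⟩
  · refine le_antisymm (NN_le h hc y [] rfl) (le_NN y fun w _ => wt_nonneg h hc w)
  · refine le_antisymm (NN_inv_le h hc y g) ?_
    have h1 := NN_inv_le h hc y g⁻¹
    rwa [inv_inv] at h1
  · have h1 : NN ρ c y (g * g') - NN ρ c y g' ≤ NN ρ c y g := by
      refine le_NN y fun w hw => ?_
      have h2 : NN ρ c y (g * g') - wt ρ c w ≤ NN ρ c y g' := by
        refine le_NN y fun w' hw' => ?_
        have h3 := NN_le h hc y (w ++ w') (g := g * g') (by rw [ev_append, hw, hw'])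
        rw [wt_append] at h3
        linarith
      linarith
    linarith

theorem ni_cnt (hρ : ∀ g, 0 ≤ ρ g) {c : ℕ → ℝ} (hc : ∀ j, 0 ≤ c j) {j : ℕ} {e : ℝ}
    (he : ∀ i, i ≤ j → e ≤ c i) : ∀ w : List (G ⊕ (ℕ × Bool)), (cnt j w : ℝ) * e ≤ wt ρ c w := by
  intro w
  induction w with
  | nil => simp [cnt, wt]
  | cons a w ih =>
    rcases a with u | ⟨i, s⟩
    · simp only [cnt, wt]
      have := hρ u
      linarith
    · simp only [cnt, wt]
      by_cases hi : i ≤ j
      · have := he i hi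
        rw [if_pos hi]
        push_cast
        linarith
      · rw [if_neg hi]
        have := hc i
        push_cast
        linarith

theorem ni_rw {c : ℕ → ℝ} (hc : ∀ j, 0 ≤ c j) (w : List (G ⊕ (ℕ × Bool))) :
    rw ρ w ≤ wt ρ c w := by
  unfold rw
  induction w with
  | nil => simp [wt]
  | cons a w ih =>
    rcases a with u | ⟨i, s⟩
    · simp only [wt]
      linarith
    · simp only [wt]
      have := hc i
      linarith

theorem ni_npow (h : PN ρ) (g : G) (n : ℕ) : ρ (g ^ n) ≤ (n : ℝ) * ρ g := by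
  induction n with
  | zero => simp [h.one]
  | succ n ih =>
    rw [pow_succ]
    have h1 := h.mul (g ^ n) g
    push_cast
    linarith

theorem ni_nzpow (h : PN ρ) (g : G) (m : ℤ) : ρ (g ^ m) ≤ (m.natAbs : ℝ) * ρ g := by
  rcases Int.natAbs_eq m with e | e
  · have h1 := ni_npow h g m.natAbs
    rw [← zpow_natCast, ← e] at h1
    exact h1
  · have h1 := ni_npow h g m.natAbs
    rw [← h.inv, ← zpow_natCast, ← zpow_neg, ← e] at h1
    exact h1

theorem ni_iv {s : ℝ} {x : G} (hx : Iv ρ s x) (n : ℕ) : Iv ρ ((n : ℝ) * s) (x ^ n) := by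
  induction n with
  | zero =>
    intro c
    simp
  | succ n ih =>
    intro c
    have e1 : x ^ (n + 1) * c * (x ^ (n + 1))⁻¹ = x * (x ^ n * c * (x ^ n)⁻¹) * x⁻¹ := by
      rw [pow_succ']
      group
    have e2 : (x ^ (n + 1))⁻¹ * c * x ^ (n + 1) = x⁻¹ * ((x ^ n)⁻¹ * c * x ^ n) * x := by
      rw [pow_succ]
      group
    rw [e1, e2]
    have h1 := (hx (x ^ n * c * (x ^ n)⁻¹)).1
    have h2 := (ih c).1
    have h3 := (hx ((x ^ n)⁻¹ * c * x ^ n)).2
    have h4 := (ih c).2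
    push_cast
    exact ⟨by linarith, by linarith⟩

/-- commutators of powers -/
theorem ni_com (hp : PN ρ) {s : ℝ} {x : G} (hx : Iv ρ s x) {c : G}
    (h1 : ρ (x * c * x⁻¹ * c⁻¹) ≤ s) (h2 : ρ (x⁻¹ * c * x * c⁻¹) ≤ s) (n : ℕ) :
    ρ (x ^ n * c * (x ^ n)⁻¹ * c⁻¹) ≤ (n : ℝ) * (2 * s) ∧
      ρ ((x ^ n)⁻¹ * c * x ^ n * c⁻¹) ≤ (n : ℝ) * (2 * s) := by
  induction n with
  | zero => simp [hp.one]
  | succ n ih =>
    obtain ⟨i1, i2⟩ := ih
    have e1 : x ^ (n + 1) * c * (x ^ (n + 1))⁻¹ * c⁻¹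
        = (x * (x ^ n * c * (x ^ n)⁻¹ * c⁻¹) * x⁻¹) * (x * c * x⁻¹ * c⁻¹) := by
      rw [pow_succ']
      group
    have e2 : (x ^ (n + 1))⁻¹ * c * x ^ (n + 1) * c⁻¹
        = (x⁻¹ * ((x ^ n)⁻¹ * c * x ^ n * c⁻¹) * x) * (x⁻¹ * c * x * c⁻¹) := by
      rw [pow_succ]
      group
    rw [e1, e2]
    have j1 := hp.mul (x * (x ^ n * c * (x ^ n)⁻¹ * c⁻¹) * x⁻¹) (x * c * x⁻¹ * c⁻¹)
    have j2 := hp.mul (x⁻¹ * ((x ^ n)⁻¹ * c * x ^ n * c⁻¹) * x) (x⁻¹ * c * x * c⁻¹)
    have k1 := (hx (x ^ n * c * (x ^ n)⁻¹ * c⁻¹)).1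
    have k2 := (hx ((x ^ n)⁻¹ * c * x ^ n * c⁻¹)).2
    push_cast
    exact ⟨by linarith, by linarith⟩

end

open Pool.Agent.N499.UM (NN NN_le le_NN ev_one) in
theorem t_NI (hW : S_WD.{u}) : S_NI.{u} := by
  intro G _ ρ hp x s hs0 hs hinv hcom L hL K ε hε hsm
  obtain ⟨K0, hK0⟩ : ∃ K0 : ℕ, (1 / 4 : ℝ) ^ K0 < ε / 2 :=
    exists_pow_lt_of_lt_one (by positivity) (by norm_num)
  obtain ⟨K', h1K, hKK, hLK, hKε⟩ : ∃ K' : ℕ, 1 ≤ K' ∧ K ≤ K' ∧ L ≤ K' ∧
      2 * (1 / 4 : ℝ) ^ K' ≤ ε := by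
    refine ⟨K0 + K + L, by omega, by omega, by omega, ?_⟩
    have h1 : (1 / 4 : ℝ) ^ (K0 + K + L) ≤ (1 / 4 : ℝ) ^ K0 :=
      pow_le_pow_of_le_one (by norm_num) (by norm_num) (by omega)
    linarith
  set c : ℕ → ℝ := fun j => if j < K' then 1 else 1 / (j : ℝ) with hc
  have hc0 : ∀ j, 0 < c j := by
    intro j
    simp only [hc]
    split_ifs with h
    · norm_num
    · have : (0 : ℝ) < j := by
        have : 0 < j := by omega
        exact_mod_cast this
      positivity
  have hcK : ∀ j, j < K' → ∀ i, i ≤ j → (1 : ℝ) ≤ c i := by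
    intro j hj i hi
    simp only [hc]
    rw [if_pos (by omega)]
  have hcj : ∀ j, K' ≤ j → ∀ i, i ≤ j → 1 / (j : ℝ) ≤ c i := by
    intro j hj i hi
    have hj1 : (1 : ℝ) ≤ j := by
      have : 1 ≤ j := by omega
      exact_mod_cast this
    simp only [hc]
    split_ifs with h
    · rw [div_le_one (by linarith)]
      exact hj1
    · have hi1 : (0 : ℝ) < i := by
        have : 0 < i := by omega
        exact_mod_cast this
      exact one_div_le_one_div_of_le hi1 (by exact_mod_cast hi)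
  set y : ℕ → G := fun j => x j ^ L with hy
  have hρ0 : ∀ g, 0 ≤ ρ g := nonneg hp
  have hLk : ∀ k, K' ≤ k → (L : ℝ) * (2 * s k) ≤ 2 * (k : ℝ) * s k := by
    intro k hk
    have h1 : (L : ℝ) ≤ k := by exact_mod_cast hLK.trans hk
    have h2 := mul_le_mul_of_nonneg_right h1 (by linarith [hs0 k] : (0 : ℝ) ≤ 2 * s k)
    linarith
  refine ⟨NN ρ c y, ni_pn hp hc0 y, fun g => ?_, fun g => ?_, fun m => ?_⟩
  · have h1 := NN_le hp hc0 y [Sum.inl g] (ev_one y g)
    simpa [wt] using h1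
  · refine le_NN y fun w hw => ?_
    by_cases hw1 : 1 ≤ wt ρ c w
    · have h1 := min_le_right (ρ g) 1
      linarith
    rw [not_le] at hw1
    obtain ⟨k, u, h, hh, hu, hgu⟩ := hW G ρ hp y (fun k => 2 * (k : ℝ) * s k) K' h1K
      (fun k _ => by
        have h1 := (hs0 k).le
        positivity)
      (fun k _ => hs k)
      (fun k hk z => by
        have h1 := ni_iv (hinv k) L z
        have h2 : (L : ℝ) * s k ≤ 2 * (k : ℝ) * s k := by
          have h3 := hLk k hk
          have h4 : 0 ≤ (L : ℝ) * s k := mul_nonneg (Nat.cast_nonneg _) (hs0 k).le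
          linarith
        exact ⟨h1.1.trans (by linarith), h1.2.trans (by linarith)⟩)
      (fun k hk j hj z hz => by
        have h1 : ∃ M : ℤ, M.natAbs ≤ k ∧ z = x j ^ M := by
          rcases hz with hz | hz
          · exact ⟨(L : ℤ), by simpa using hLK.trans hk, by rw [hz, zpow_natCast]⟩
          · exact ⟨-(L : ℤ), by simpa using hLK.trans hk, by rw [hz, zpow_neg, zpow_natCast]⟩
        obtain ⟨M, hM, rfl⟩ := h1
        have h2 := hcom k j hj M hM (x j ^ M) rfl
        have h3 := ni_com hp (hinv k) h2.1.le h2.2.le L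
        have h4 := hLk k hk
        exact ⟨h3.1.trans h4, h3.2.trans h4⟩)
      w
      (fun j hj => by
        have h1 := ni_cnt hρ0 (fun j => (hc0 j).le) (hcK j hj) w
        by_contra hne
        have h2 : (1 : ℝ) ≤ cnt j w := by
          have : 1 ≤ cnt j w := Nat.one_le_iff_ne_zero.mpr hne
          exact_mod_cast this
        linarith)
      (fun j hj => by
        have h1 := ni_cnt hρ0 (fun j => (hc0 j).le) (hcj j hj) w
        have hj0 : (0 : ℝ) < j := by
          have : 0 < j := by omega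
          exact_mod_cast this
        have h2 : (cnt j w : ℝ) / j < 1 := by
          have h3 : (cnt j w : ℝ) * (1 / j) = (cnt j w : ℝ) / j := by ring
          rw [← h3]
          linarith
        rw [div_lt_one hj0] at h2
        have h3 : cnt j w < j := by exact_mod_cast h2
        omega)
    have h1 := hsm k h (WW_mono y (fun _ => le_rfl) hKK k hh)
    have h2 := ni_rw (ρ := ρ) (fun j => (hc0 j).le) w
    have h3 := hp.mul u h
    rw [← hgu, hw] at h3
    have h4 := min_le_left (ρ g) 1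
    linarith
  · have hN := ni_pn hp hc0 y
    have h7 : Tendsto (fun k : ℕ => (m.natAbs : ℝ) / (k : ℝ)) atTop (𝓝 0) :=
      tendsto_const_div_atTop_nhds_zero_nat _
    refine tendsto_of_tendsto_of_tendsto_of_le_of_le' tendsto_const_nhds h7
      (Eventually.of_forall fun k => nonneg hN _) ?_
    filter_upwards [eventually_ge_atTop K'] with k hk
    have h8 := ni_nzpow hN (y k) m
    have e : y k ^ m = x k ^ ((L : ℤ) * m) := by
      simp only [hy]
      rw [← zpow_natCast, ← zpow_mul]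
    rw [e] at h8
    have h9 : NN ρ c y (y k) ≤ c k := by
      have h1 := NN_le hp hc0 y [Sum.inr (k, true)] (g := y k) (by simp [ev])
      simpa [wt] using h1
    have h10 : c k = 1 / (k : ℝ) := by
      simp only [hc]
      rw [if_neg (by omega)]
    rw [h10] at h9
    refine h8.trans ?_
    calc (m.natAbs : ℝ) * NN ρ c y (y k) ≤ (m.natAbs : ℝ) * (1 / (k : ℝ)) :=
          mul_le_mul_of_nonneg_left h9 (Nat.cast_nonneg _)
      _ = (m.natAbs : ℝ) / (k : ℝ) := by ring

end Pool.Agent.K6.H97.UP
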