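import Pool.Agent.K6.H97.UP.Base
import Pool.Agent.N99.UM2PWC

set_option autoImplicit false

/-!
Project UP (helper97), leaf PWR (helper84): limits of conjugates and of powers.
-/

open Filter Topology

universe u v

namespace Pool.Agent.K6.H97.UP

open Pool.Agent.N709.UM

theorem t_PWR (hA : S_AIC.{u, 0}) : S_PWR.{u} := by
  intro G _ _ _ ρ hG F hF
  have hA1 := (hA G ρ hG.pn).1 F hF
  refine ⟨fun m g => ?_, fun N m g => ?_⟩
  · have h1 : Tendsto (fun x : G => x ^ m * g * (x ^ m)⁻¹ * g⁻¹) F (𝓝 1) := by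
      refine tendsto_one hG _ _ fun t ht => ?_
      have h2 := AI.cm1 (hA1 m) ht g
      rw [ev_map] at h2
      exact h2.mono fun x hx => hx.1
    have h2 := h1.mul_const g
    simpa using h2
  · have h1 := Pool.Agent.N99.UM2PWC.pwc G ρ hG (F.map fun x => x ^ (-m)) (hA1 (-m)) N g
    have h2 : Tendsto ((fun b : G => (g * b⁻¹) ^ N * b ^ N) ∘ fun x : G => x ^ (-m)) F
        (𝓝 (g ^ N)) := h1.comp tendsto_map
    refine h2.congr fun x => ?_
    have h3 : (x ^ (-m)) ^ N = (x ^ (m * (N : ℤ)))⁻¹ := by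
      rw [← zpow_natCast, ← zpow_mul, ← zpow_neg]
      congr 1
      ring
    show (g * (x ^ (-m))⁻¹) ^ N * (x ^ (-m)) ^ N = (g * x ^ m) ^ N * (x ^ (m * (N : ℤ)))⁻¹
    rw [h3, zpow_neg, inv_inv]

end Pool.Agent.K6.H97.UP
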