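import Pool.Agent.K6.H97.UP.Base
import Pool.Agent.N709.UM.Star2

set_option autoImplicit false

/-!
Project UP: leaf SEQ (helper11).
-/

open Filter Topology

universe u v

namespace Pool.Agent.K6.H97.UP

open Pool.Agent.N709.UM

theorem fin_int (n : ℕ) : ({m : ℤ | m.natAbs ≤ n} : Set ℤ).Finite := by
  refine (Set.finite_Icc (-(n : ℤ)) n).subset ?_
  intro M hM
  have hM' : M.natAbs ≤ n := hM
  simp only [Set.mem_Icc]
  omega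

/-- the properties of the letter `y` of stage `k`, the previous letters being `x` -/
structure SeqSt {G : Type u} [Group G] (ρ : G → ℝ) (L : ℕ → ℕ) (η : ℕ → ℝ) (D : ℕ → Set G)
    (q : ℕ → G) (s : ℕ → ℝ) (e : ℝ) (k : ℕ) (y : G) (x : ℕ → G) : Prop where
  far : ∀ j, j < k → e ≤ ρ (x j * y⁻¹)
  inv : Iv ρ (s k) y
  com : ∀ j, j < k → ∀ m : ℤ, m.natAbs ≤ k → Cm ρ (s k) {x j ^ m} y
  coq : ∀ i, i ≤ k → Cm ρ (s k) {q i} y
  cD1 : ∀ i, i ≤ k → ∀ W ∈ WW x L 0 k, ∀ c ∈ D i, ∀ m : ℤ, m.natAbs ≤ L k →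
    ρ (W * (y ^ m * c * (y ^ m)⁻¹ * c⁻¹) * W⁻¹) < s k
  cD2 : ∀ i, i ≤ k → ∀ W ∈ WW x L 0 k, ∀ c ∈ D i, ∀ m : ℤ, m.natAbs ≤ L k →
    ρ ((y ^ m)⁻¹ * (W⁻¹ * c * W) * y ^ m * (W⁻¹ * c * W)⁻¹) < s k
  pow : ∀ i, i ≤ k → ∀ W ∈ WW x L 0 k, ∀ m : ℤ, m.natAbs ≤ L k →
    ρ ((W * y ^ m) ^ L i * (W ^ L i * y ^ (m * (L i : ℤ)))⁻¹) < s k
  sml : ∀ i, i ≤ k → ∀ W ∈ WW x L 0 k, ∀ m : ℤ, m.natAbs ≤ L k →
    ρ (W ^ L i * y ^ (m * (L i : ℤ)) * (W ^ L i)⁻¹) < 2 * η i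
  squ : ∀ W ∈ WW x L 0 k, ∀ m : ℤ, m.natAbs ≤ L k →
    ρ ((W * y ^ m) ^ 2 * (W ^ 2 * y ^ (2 * m))⁻¹) < s k
  tor : ∀ W ∈ WW x L 0 k, ρ (W * y ^ (L k : ℤ) * W⁻¹) < 2 * η k

section

variable {G : Type u} [Group G] [TopologicalSpace G] [IsTopologicalGroup G] {ρ : G → ℝ}

theorem seq_cD1 (hG : Gen ρ) (hP : S_PWR.{u}) {P : Ultrafilter G} (hPa : AI ρ P) (W c : G)
    (m : ℤ) {t : ℝ} (ht : 0 < t) :
    ∀ᶠ y in (P : Filter G), ρ (W * (y ^ m * c * (y ^ m)⁻¹ * c⁻¹) * W⁻¹) < t := by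
  refine small hG ?_ ht
  have h1 := (hP G ρ hG P hPa).1 m c
  have h2 : Tendsto (fun y : G => W * (y ^ m * c * (y ^ m)⁻¹ * c⁻¹) * W⁻¹) P
      (𝓝 (W * (c * c⁻¹) * W⁻¹)) := ((h1.mul_const c⁻¹).const_mul W).mul_const W⁻¹
  rwa [mul_inv_cancel, mul_one, mul_inv_cancel] at h2

theorem seq_cD2 (hG : Gen ρ) (hP : S_PWR.{u}) {P : Ultrafilter G} (hPa : AI ρ P) (c : G)
    (m : ℤ) {t : ℝ} (ht : 0 < t) :
    ∀ᶠ y in (P : Filter G), ρ ((y ^ m)⁻¹ * c * y ^ m * c⁻¹) < t := by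
  have h1 := seq_cD1 hG hP hPa 1 c (-m) ht
  refine h1.mono fun y hy => ?_
  rw [zpow_neg, inv_inv, inv_one, mul_one, one_mul] at hy
  exact hy

theorem seq_pow (hG : Gen ρ) (hP : S_PWR.{u}) {P : Ultrafilter G} (hPa : AI ρ P) (W : G)
    (N : ℕ) (m : ℤ) {t : ℝ} (ht : 0 < t) :
    ∀ᶠ y in (P : Filter G), ρ ((W * y ^ m) ^ N * (W ^ N * y ^ (m * (N : ℤ)))⁻¹) < t := by
  refine small hG ?_ ht
  have h1 := (hP G ρ hG P hPa).2 N m W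
  have h2 := h1.mul_const (W ^ N)⁻¹
  rw [mul_inv_cancel] at h2
  refine h2.congr fun y => ?_
  rw [mul_inv_rev, mul_assoc]

/-- the powers with exponents divisible by `L i` of a typical element are small -/
theorem seq_small (hG : Gen ρ) (hP : S_PWR.{u}) {F : Ultrafilter G} (hF : AI ρ F)
    {l : ℕ} {r : ℝ} (hr : 0 < r)
    (hcau : ∀ m : ℕ, ∀ᶠ a in (F : Filter G), ∀ᶠ b in (F : Filter G),
      ρ (a ^ (m * l) * (b ^ (m * l))⁻¹) < r) (m : ℤ) :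
    ∀ᶠ a in (F : Filter G), ∀ᶠ b in (F : Filter G),
      ρ ((a * b⁻¹) ^ (m * (l : ℤ))) < 3 / 2 * r := by
  have key : ∀ n : ℕ, ∀ᶠ a in (F : Filter G), ∀ᶠ b in (F : Filter G),
      ρ ((a * b⁻¹) ^ (n * l)) < 3 / 2 * r := by
    intro n
    refine (hcau n).mono fun a ha => ?_
    have h1 := (hP G ρ hG F hF).2 (n * l) (-1) a
    have h2 := h1.mul_const (a ^ (n * l))⁻¹
    rw [mul_inv_cancel] at h2
    have h3 := small hG h2 (show 0 < r / 2 by linarith)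
    filter_upwards [ha, h3] with b hb h4
    have e1 : (a * b⁻¹) ^ (n * l) = ((a * b ^ (-1 : ℤ)) ^ (n * l) *
        (b ^ ((-1 : ℤ) * ((n * l : ℕ) : ℤ)))⁻¹ * (a ^ (n * l))⁻¹) *
          (a ^ (n * l) * (b ^ (n * l))⁻¹) := by
      have z1 : b ^ (-1 : ℤ) = b⁻¹ := zpow_neg_one b
      have z2 : b ^ ((-1 : ℤ) * ((n * l : ℕ) : ℤ)) = (b ^ (n * l))⁻¹ := by
        rw [neg_one_mul, zpow_neg, zpow_natCast]
      rw [z1, z2, inv_inv]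
      generalize (a * b⁻¹) ^ (n * l) = z
      generalize a ^ (n * l) = w
      generalize b ^ (n * l) = w'
      group
    have e2 := hG.pn.mul ((a * b ^ (-1 : ℤ)) ^ (n * l) *
        (b ^ ((-1 : ℤ) * ((n * l : ℕ) : ℤ)))⁻¹ * (a ^ (n * l))⁻¹)
          (a ^ (n * l) * (b ^ (n * l))⁻¹)
    rw [e1]
    linarith
  rcases le_total 0 m with hm | hm
  · obtain ⟨n, rfl⟩ := Int.eq_ofNat_of_zero_le hm
    refine (key n).mono fun a ha => ha.mono fun b hb => ?_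
    have e1 : ((n : ℤ) * (l : ℤ)) = ((n * l : ℕ) : ℤ) := by push_cast; ring
    rw [e1, zpow_natCast]
    exact hb
  · obtain ⟨n, hn⟩ := Int.eq_ofNat_of_zero_le (neg_nonneg.2 hm)
    refine (key n).mono fun a ha => ha.mono fun b hb => ?_
    have e1 : (m * (l : ℤ)) = -((n * l : ℕ) : ℤ) := by
      have : m = -(n : ℤ) := by omega
      rw [this]
      push_cast
      ring
    rw [e1, zpow_neg, zpow_natCast, hG.pn.inv]
    exact hb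

omit [IsTopologicalGroup G] in
theorem seq_far (hG : Gen ρ) {F : Ultrafilter G} (hF : AI ρ F) {e : ℝ} (he : 0 < e)
    (hFe : ∀ᶠ a in (F : Filter G), ∀ᶠ b in (F : Filter G), e ≤ ρ (a * b⁻¹)) (g a : G) :
    ∀ᶠ b in (F : Filter G), e / 4 ≤ ρ (g * (a * b⁻¹)⁻¹) := by
  by_contra hcon
  rw [← Ultrafilter.eventually_not] at hcon
  have h1 := AI.cm1 hF (show 0 < e / 4 by linarith) g
  obtain ⟨b, hb1, hb2, hb3⟩ := (hcon.and (h1.and hFe)).exists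
  obtain ⟨b', hc1, hc2, hc3⟩ := (hcon.and (h1.and hb3)).exists
  have e1 : b * b'⁻¹ = (g * b * g⁻¹ * b⁻¹)⁻¹ * ((g * (a * b⁻¹)⁻¹) * (g * (a * b'⁻¹)⁻¹)⁻¹ *
      (b' * g * b'⁻¹ * g⁻¹)⁻¹) := by
    group
  have e2 := hG.pn.mul (g * b * g⁻¹ * b⁻¹)⁻¹ ((g * (a * b⁻¹)⁻¹) * (g * (a * b'⁻¹)⁻¹)⁻¹ *
      (b' * g * b'⁻¹ * g⁻¹)⁻¹)
  have e3 := hG.pn.mul ((g * (a * b⁻¹)⁻¹) * (g * (a * b'⁻¹)⁻¹)⁻¹) (b' * g * b'⁻¹ * g⁻¹)⁻¹
  have e4 := hG.pn.mul (g * (a * b⁻¹)⁻¹) (g * (a * b'⁻¹)⁻¹)⁻¹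
  have e5 : g * b * g⁻¹ * b⁻¹ = (b * g * b⁻¹ * g⁻¹)⁻¹ := by group
  rw [hG.pn.inv] at e2 e3 e4
  rw [e5, hG.pn.inv] at e2
  rw [← e5, ← e1] at e2
  rw [not_le] at hb1 hc1
  have e6 := hb2.1
  have e7 := hc2.1
  linarith

theorem seq_st (hA : S_AIC.{u, 0}) (hP : S_PWR.{u}) (hG : Gen ρ) {C : Subgroup G} {L : ℕ → ℕ}
    {η : ℕ → ℝ} {E : ℕ → Set G} {t : ℕ → ℝ} {D : ℕ → Set G} (hS : Scl ρ C L η E t D)
    {F : Ultrafilter G} (hF : AI ρ F) {e : ℝ} (he : 0 < e)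
    (hFe : ∀ᶠ a in (F : Filter G), ∀ᶠ b in (F : Filter G), e ≤ ρ (a * b⁻¹))
    (q : ℕ → G) {s : ℕ → ℝ} (hs : ∀ k, 0 < s k) (k : ℕ) (x : ℕ → G) :
    ∃ y, SeqSt ρ L η D q s (e / 4) k y x := by
  obtain ⟨A1, A2, -, -⟩ := hA G ρ hG.pn
  let P : Ultrafilter G := um F (F.map fun x => x ^ (-1 : ℤ))
  have hPa : AI ρ P := A2 _ _ hF (A1 F hF (-1))
  have hPF : ∀ p : G → Prop, (∀ᶠ a in (F : Filter G), ∀ᶠ b in (F : Filter G), p (a * b⁻¹)) →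
      ∀ᶠ y in (P : Filter G), p y := by
    intro p hp
    change ∀ᶠ a in (F : Filter G), ∀ᶠ b in (F : Filter G), p (a * b ^ (-1 : ℤ))
    simpa only [zpow_neg_one] using hp
  have hW := WW_finite x L 0 k
  have hk : ({i | i ≤ k} : Set ℕ).Finite := Set.finite_Iic k
  have hk' : ({i | i < k} : Set ℕ).Finite := Set.finite_Iio k
  have hpw : ∀ i (m : ℤ), ∀ᶠ y in (P : Filter G), ρ (y ^ (m * (L i : ℤ))) < 3 / 2 * η i :=
    fun i m => hPF _ (seq_small hG hP hF (hS.ηpos i) (hS.cau i F hF) m)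
  have hcj : ∀ i (g : G) (m : ℤ), ∀ᶠ y in (P : Filter G),
      ρ (g * y ^ (m * (L i : ℤ)) * g⁻¹) < 2 * η i := by
    intro i g m
    have h1 := seq_cD1 hG hP hPa g g⁻¹ (m * (L i : ℤ)) (show 0 < η i / 2 by
      have := hS.ηpos i; linarith)
    filter_upwards [h1, hpw i m] with y h2 h3
    have e1 : g * y ^ (m * (L i : ℤ)) * g⁻¹ =
        (g * (y ^ (m * (L i : ℤ)) * g⁻¹ * (y ^ (m * (L i : ℤ)))⁻¹ * g⁻¹⁻¹) * g⁻¹) *
          y ^ (m * (L i : ℤ)) := by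
      generalize y ^ (m * (L i : ℤ)) = z
      group
    have e2 := hG.pn.mul
      (g * (y ^ (m * (L i : ℤ)) * g⁻¹ * (y ^ (m * (L i : ℤ)))⁻¹ * g⁻¹⁻¹) * g⁻¹)
      (y ^ (m * (L i : ℤ)))
    rw [e1]
    linarith
  have c1 : ∀ᶠ y in (P : Filter G), ∀ j ∈ {i | i < k}, e / 4 ≤ ρ (x j * y⁻¹) :=
    (eventually_all_finite hk').2 fun j _ => hPF _ (Eventually.of_forall fun a =>
      seq_far hG hF he hFe (x j) a)
  have c2 : ∀ᶠ y in (P : Filter G), Iv ρ (s k) y := AI.iv hPa (hs k)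
  have c3 : ∀ᶠ y in (P : Filter G), ∀ j ∈ {i | i < k}, ∀ m ∈ {m : ℤ | m.natAbs ≤ k},
      Cm ρ (s k) {x j ^ m} y :=
    (eventually_all_finite hk').2 fun j _ => (eventually_all_finite (fin_int k)).2 fun m _ =>
      AI.cm hPa (hs k) (Set.finite_singleton _)
  have c4 : ∀ᶠ y in (P : Filter G), ∀ i ∈ {i | i ≤ k}, Cm ρ (s k) {q i} y :=
    (eventually_all_finite hk).2 fun i _ => AI.cm hPa (hs k) (Set.finite_singleton _)
  have c5 : ∀ᶠ y in (P : Filter G), ∀ i ∈ {i | i ≤ k}, ∀ W ∈ WW x L 0 k, ∀ c ∈ D i,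
      ∀ m ∈ {m : ℤ | m.natAbs ≤ L k}, ρ (W * (y ^ m * c * (y ^ m)⁻¹ * c⁻¹) * W⁻¹) < s k :=
    (eventually_all_finite hk).2 fun i _ => (eventually_all_finite hW).2 fun W _ =>
      (eventually_all_finite (hS.Dfin i)).2 fun c _ =>
        (eventually_all_finite (fin_int (L k))).2 fun m _ => seq_cD1 hG hP hPa W c m (hs k)
  have c6 : ∀ᶠ y in (P : Filter G), ∀ i ∈ {i | i ≤ k}, ∀ W ∈ WW x L 0 k, ∀ c ∈ D i,
      ∀ m ∈ {m : ℤ | m.natAbs ≤ L k},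
        ρ ((y ^ m)⁻¹ * (W⁻¹ * c * W) * y ^ m * (W⁻¹ * c * W)⁻¹) < s k :=
    (eventually_all_finite hk).2 fun i _ => (eventually_all_finite hW).2 fun W _ =>
      (eventually_all_finite (hS.Dfin i)).2 fun c _ =>
        (eventually_all_finite (fin_int (L k))).2 fun m _ =>
          seq_cD2 hG hP hPa (W⁻¹ * c * W) m (hs k)
  have c7 : ∀ᶠ y in (P : Filter G), ∀ i ∈ {i | i ≤ k}, ∀ W ∈ WW x L 0 k,
      ∀ m ∈ {m : ℤ | m.natAbs ≤ L k},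
        ρ ((W * y ^ m) ^ L i * (W ^ L i * y ^ (m * (L i : ℤ)))⁻¹) < s k :=
    (eventually_all_finite hk).2 fun i _ => (eventually_all_finite hW).2 fun W _ =>
        (eventually_all_finite (fin_int (L k))).2 fun m _ =>
          seq_pow hG hP hPa W (L i) m (hs k)
  have c8 : ∀ᶠ y in (P : Filter G), ∀ i ∈ {i | i ≤ k}, ∀ W ∈ WW x L 0 k,
      ∀ m ∈ {m : ℤ | m.natAbs ≤ L k},
        ρ (W ^ L i * y ^ (m * (L i : ℤ)) * (W ^ L i)⁻¹) < 2 * η i :=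
    (eventually_all_finite hk).2 fun i _ => (eventually_all_finite hW).2 fun W _ =>
        (eventually_all_finite (fin_int (L k))).2 fun m _ => hcj i (W ^ L i) m
  have c9 : ∀ᶠ y in (P : Filter G), ∀ W ∈ WW x L 0 k, ∀ m ∈ {m : ℤ | m.natAbs ≤ L k},
        ρ ((W * y ^ m) ^ 2 * (W ^ 2 * y ^ (m * ((2 : ℕ) : ℤ)))⁻¹) < s k :=
    (eventually_all_finite hW).2 fun W _ =>
        (eventually_all_finite (fin_int (L k))).2 fun m _ =>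
          seq_pow hG hP hPa W 2 m (hs k)
  have c10 : ∀ᶠ y in (P : Filter G), ∀ W ∈ WW x L 0 k,
        ρ (W * y ^ ((1 : ℤ) * (L k : ℤ)) * W⁻¹) < 2 * η k :=
    (eventually_all_finite hW).2 fun W _ => hcj k W 1
  obtain ⟨y, d1, d2, d3, d4, d5, d6, d7, d8, d9, d10⟩ :=
    (c1.and (c2.and (c3.and (c4.and (c5.and (c6.and (c7.and (c8.and (c9.and c10))))))))).exists
  exact ⟨y, {
    far := d1
    inv := d2
    com := d3
    coq := d4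
    cD1 := d5
    cD2 := d6
    pow := d7
    sml := d8
    squ := fun W hW m hm => by
      have := d9 W hW m hm
      rw [mul_comm m ((2 : ℕ) : ℤ)] at this
      exact this
    tor := fun W hW => by
      have := d10 W hW
      rw [one_mul] at this
      exact this }⟩

end

theorem t_SEQ (hA : S_AIC.{u, 0}) (hP : S_PWR.{u}) : S_SEQ.{u} := by
  intro G _ _ _ ρ hG C L η E t D hS F hF e he hFe q s hs
  obtain ⟨x, x', h1, h2⟩ := exists_seq' (1 : G) (SeqSt ρ L η D q s (e / 4))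
    fun k y => seq_st hA hP hG hS hF he hFe q hs k y
  refine ⟨x, fun k => ?_⟩
  have hWW : WW (x' k) L 0 k = WW x L 0 k := WW_congr L 0 k fun j hj => h1 k j hj
  obtain ⟨d1, d2, d3, d4, d5, d6, d7, d8, d9, d10⟩ := h2 k
  rw [hWW] at d5 d6 d7 d8 d9 d10
  exact {
    far := fun j hj => by
      have := d1 j hj
      rwa [h1 k j hj] at this
    inv := d2
    com := fun j hj m hm => by
      have := d3 j hj m hm
      rwa [h1 k j hj] at this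
    coq := d4
    cD1 := d5
    cD2 := d6
    pow := d7
    sml := d8
    squ := d9
    tor := d10 }

end Pool.Agent.K6.H97.UP
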