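import Pool.Agent.K6.H97.UP.Base

set_option autoImplicit false

/-!
Project UP (helper97), leaf SLY (helper96): the selection property in the second case.
-/

open Filter Topology

universe u

namespace Pool.Agent.K6.H97.UP

open Pool.Agent.N709.UM

/-- `(a b⁻¹)^M b^M a^(-M) → 1` as `b → X` -/
theorem sly_phi (hA : S_AIC.{u, 0}) (hP : S_PWR.{u}) (G : Type u) [Group G] [TopologicalSpace G]
    [IsTopologicalGroup G] (ρ : G → ℝ) (hG : Gen ρ) (X : Ultrafilter G) (hX : AI ρ X) (M : ℤ)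
    (a : G) : Tendsto (fun b : G => (a * b⁻¹) ^ M * b ^ M * (a ^ M)⁻¹) X (𝓝 1) := by
  have hnat : ∀ n : ℕ, Tendsto (fun b : G => (a * b⁻¹) ^ n * b ^ n * (a ^ n)⁻¹) X (𝓝 1) := by
    intro n
    have h1 := (hP G ρ hG X hX).2 n (-1) a
    have h2 : Tendsto (fun x : G => (a * x ^ (-1 : ℤ)) ^ n * (x ^ (-1 * (n : ℤ)))⁻¹ * (a ^ n)⁻¹) X
        (𝓝 (a ^ n * (a ^ n)⁻¹)) := h1.mul_const _
    rw [mul_inv_cancel] at h2
    refine h2.congr fun x => ?_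
    rw [zpow_neg_one, neg_one_mul, zpow_neg, inv_inv, zpow_natCast]
  obtain ⟨n, rfl | rfl⟩ := M.eq_nat_or_neg
  · refine (hnat n).congr fun b => ?_
    rw [zpow_natCast, zpow_natCast, zpow_natCast]
  · have hXn := (hA G ρ hG.pn).1 X hX (n : ℤ)
    have h1 : Tendsto (fun b : G => b ^ (n : ℤ) * (a ^ n)⁻¹ * (b ^ (n : ℤ))⁻¹ * ((a ^ n)⁻¹)⁻¹) X
        (𝓝 1) := by
      refine tendsto_one hG _ _ fun t ht => ?_
      have h2 : ∀ᶠ b in (X : Filter G), ρ (b ^ (n : ℤ) * (a ^ n)⁻¹ * (b ^ (n : ℤ))⁻¹ *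
          ((a ^ n)⁻¹)⁻¹) < t ∧ ρ ((b ^ (n : ℤ))⁻¹ * (a ^ n)⁻¹ * b ^ (n : ℤ) * ((a ^ n)⁻¹)⁻¹) < t :=
        AI.cm1 hXn ht (a ^ n)⁻¹
      exact h2.mono fun b hb => hb.1
    have h3 : Tendsto (fun b : G => b ^ (n : ℤ) * ((a * b⁻¹) ^ n * b ^ n * (a ^ n)⁻¹)⁻¹ *
        (b ^ (n : ℤ))⁻¹) X (𝓝 1) := by
      refine tendsto_one hG _ _ fun t ht => ?_
      have h4 : ∀ᶠ b in (X : Filter G), Iv ρ (t / 2) (b ^ (n : ℤ)) := AI.iv hXn (by linarith)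
      have h5 := small hG (hnat n) (show 0 < t / 2 by linarith)
      filter_upwards [h4, h5] with b hb1 hb2
      have h6 := (hb1 ((a * b⁻¹) ^ n * b ^ n * (a ^ n)⁻¹)⁻¹).1
      rw [hG.pn.inv] at h6
      linarith
    have h7 : Tendsto (fun b : G => (b ^ (n : ℤ) * (a ^ n)⁻¹ * (b ^ (n : ℤ))⁻¹ * ((a ^ n)⁻¹)⁻¹) *
        ((a ^ n)⁻¹ * (b ^ (n : ℤ) * ((a * b⁻¹) ^ n * b ^ n * (a ^ n)⁻¹)⁻¹ *
        (b ^ (n : ℤ))⁻¹) * a ^ n)) X (𝓝 (1 * ((a ^ n)⁻¹ * 1 * a ^ n))) :=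
      h1.mul ((h3.const_mul _).mul_const _)
    have h8 : (1 : G) * ((a ^ n)⁻¹ * 1 * a ^ n) = 1 := by group
    rw [h8] at h7
    refine h7.congr fun b => ?_
    rw [zpow_neg, zpow_neg, zpow_neg, zpow_natCast, zpow_natCast, zpow_natCast]
    group

/-- comparison of `(a b⁻¹)^M` with `a^M b^(-M)` -/
theorem sly_cmp (hA : S_AIC.{u, 0}) (hP : S_PWR.{u}) (G : Type u) [Group G] [TopologicalSpace G]
    [IsTopologicalGroup G] (ρ : G → ℝ) (hG : Gen ρ) (X : Ultrafilter G) (hX : AI ρ X)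
    (N : G → ℝ) (hN : PN N) (hNρ : ∀ g, N g ≤ ρ g) (M : ℤ) (a h q : G) (t : ℝ) (ht : 0 < t) :
    ∀ᶠ b in (X : Filter G), N (h * (a ^ M * (b ^ M)⁻¹) * q) - t < N (h * (a * b⁻¹) ^ M * q) := by
  have h1 : Tendsto (fun b : G => h * ((a * b⁻¹) ^ M * b ^ M * (a ^ M)⁻¹) * h⁻¹) X
      (𝓝 (h * 1 * h⁻¹)) := ((sly_phi hA hP G ρ hG X hX M a).const_mul _).mul_const _
  have h2 : h * 1 * h⁻¹ = 1 := by group
  rw [h2] at h1
  filter_upwards [small hG h1 ht] with b hb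
  have h3 : h * (a ^ M * (b ^ M)⁻¹) * q = (h * ((a * b⁻¹) ^ M * b ^ M * (a ^ M)⁻¹) * h⁻¹)⁻¹ *
      (h * (a * b⁻¹) ^ M * q) := by
    have h4 : ∀ x y z : G, h * (x * y⁻¹) * q = (h * (z * y * x⁻¹) * h⁻¹)⁻¹ * (h * z * q) := by
      intro x y z
      group
    exact h4 _ _ _
  have h5 := hN.mul (h * ((a * b⁻¹) ^ M * b ^ M * (a ^ M)⁻¹) * h⁻¹)⁻¹ (h * (a * b⁻¹) ^ M * q)
  rw [← h3, hN.inv] at h5
  have h6 := hNρ (h * ((a * b⁻¹) ^ M * b ^ M * (a ^ M)⁻¹) * h⁻¹)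
  linarith

/-- `a^M b^(-M)` almost commutes with `q` -/
theorem sly_com (hA : S_AIC.{u, 0}) (G : Type u) [Group G] (ρ : G → ℝ) (hρ : PN ρ)
    (X : Ultrafilter G) (hX : AI ρ X) (M : ℤ) (q : G) (t : ℝ) (ht : 0 < t) :
    ∀ᶠ a in (X : Filter G), ∀ᶠ b in (X : Filter G),
      ρ ((a ^ M * (b ^ M)⁻¹)⁻¹ * q⁻¹ * (a ^ M * (b ^ M)⁻¹) * (q⁻¹)⁻¹) < t := by
  have h1 := (hA G ρ hρ).2.1 _ _ ((hA G ρ hρ).1 X hX M) ((hA G ρ hρ).1 X hX (-M))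
  have h2 := AI.cm1 h1 ht q⁻¹
  have h3 : ∀ᶠ a in (X : Filter G), ∀ᶠ b in (X : Filter G),
      ρ ((a ^ M * b ^ (-M)) * q⁻¹ * (a ^ M * b ^ (-M))⁻¹ * (q⁻¹)⁻¹) < t ∧
      ρ ((a ^ M * b ^ (-M))⁻¹ * q⁻¹ * (a ^ M * b ^ (-M)) * (q⁻¹)⁻¹) < t := h2
  refine h3.mono fun a ha => ha.mono fun b hb => ?_
  have h4 := hb.2
  rw [zpow_neg] at h4
  exact h4

/-- null exponents -/
theorem sly_null (hA : S_AIC.{u, 0}) (G : Type u) [Group G] (ρ : G → ℝ) (hρ : PN ρ)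
    (X : Ultrafilter G) (hX : AI ρ X) (N : G → ℝ) (hN : PN N) (hNρ : ∀ g, N g ≤ ρ g) (M : ℤ)
    (hM : ∀ v : ℝ, 0 < v → ∀ᶠ a in (X : Filter G), ∀ᶠ b in (X : Filter G),
      N (a ^ M * (b ^ M)⁻¹) < v) (h q : G) (t : ℝ) (ht : 0 < t) :
    ∀ᶠ a in (X : Filter G), ∀ᶠ b in (X : Filter G),
      N (h * q) - t < N (h * (a ^ M * (b ^ M)⁻¹) * q) := by
  filter_upwards [hM (t / 2) (by linarith), sly_com hA G ρ hρ X hX M q (t / 2) (by linarith)]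
    with a ha1 ha2
  filter_upwards [ha1, ha2] with b hb1 hb2
  obtain ⟨g, hg⟩ : ∃ g : G, g = a ^ M * (b ^ M)⁻¹ := ⟨_, rfl⟩
  rw [← hg] at hb1 hb2 ⊢
  have h1 : h * q = (h * g * q) * (q⁻¹ * g * q)⁻¹ := by group
  have h2 := hN.mul (h * g * q) (q⁻¹ * g * q)⁻¹
  rw [← h1, hN.inv] at h2
  have h3 : q⁻¹ * g * q = g * (g⁻¹ * q⁻¹ * g * (q⁻¹)⁻¹) := by group
  have h4 := hN.mul g (g⁻¹ * q⁻¹ * g * (q⁻¹)⁻¹)
  rw [← h3] at h4
  have h5 := hNρ (g⁻¹ * q⁻¹ * g * (q⁻¹)⁻¹)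
  linarith

/-- exponents which are not null -/
theorem sly_big (hA : S_AIC.{u, 0}) (G : Type u) [Group G] (ρ : G → ℝ) (hρ : PN ρ)
    (X : Ultrafilter G) (hX : AI ρ X) (N : G → ℝ) (hN : PN N) (hNρ : ∀ g, N g ≤ ρ g) (M : ℤ)
    (v : ℝ) (hM : ∀ᶠ a in (X : Filter G), ∀ᶠ b in (X : Filter G), v ≤ N (a ^ M * (b ^ M)⁻¹))
    (h q a : G) (s : ℝ) (hs : 2 * s < v) :
    ∀ᶠ b in (X : Filter G), s ≤ N (h * (a ^ M * (b ^ M)⁻¹) * q) := by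
  by_contra hcon
  rw [← Ultrafilter.eventually_not] at hcon
  have h1 : ∀ᶠ b in (X : Filter G), N (h * (a ^ M * (b ^ M)⁻¹) * q) < s :=
    hcon.mono fun b hb => not_le.1 hb
  obtain ⟨b, hb1, hb2, hb3⟩ := (h1.and (hM.and (sly_com hA G ρ hρ X hX M q (v - 2 * s)
    (by linarith)))).exists
  obtain ⟨c, hc1, hc2, hc3⟩ := (h1.and (hb2.and hb3)).exists
  obtain ⟨g, hg⟩ : ∃ g : G, g = b ^ M * (c ^ M)⁻¹ := ⟨_, rfl⟩
  rw [← hg] at hc2 hc3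
  have h2 : q⁻¹ * g * q = (h * (a ^ M * (b ^ M)⁻¹) * q)⁻¹ * (h * (a ^ M * (c ^ M)⁻¹) * q) := by
    rw [hg]
    have h4 : ∀ x y z : G, q⁻¹ * (y * z⁻¹) * q = (h * (x * y⁻¹) * q)⁻¹ * (h * (x * z⁻¹) * q) := by
      intro x y z
      group
    exact h4 _ _ _
  have h3 := hN.mul (h * (a ^ M * (b ^ M)⁻¹) * q)⁻¹ (h * (a ^ M * (c ^ M)⁻¹) * q)
  rw [← h2, hN.inv] at h3
  have h5 : g = (q⁻¹ * g * q) * (g⁻¹ * q⁻¹ * g * (q⁻¹)⁻¹)⁻¹ := by group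
  have h6 := hN.mul (q⁻¹ * g * q) (g⁻¹ * q⁻¹ * g * (q⁻¹)⁻¹)⁻¹
  rw [← h5, hN.inv] at h6
  have h7 := hNρ (g⁻¹ * q⁻¹ * g * (q⁻¹)⁻¹)
  linarith

theorem t_SLY (hA : S_AIC.{u, 0}) (hP : S_PWR.{u}) : S_SLY.{u} := by
  classical
  intro G _ _ _ ρ hG X hX e he hXe N L hN hNρ hL hLN
  have hρ := hG.pn
  -- thresholds for the residues
  have hdich : ∀ (i : ℕ) (m : ℤ), ∃ v : ℝ, 0 < v ∧
      ((∀ v' : ℝ, 0 < v' → ∀ᶠ a in (X : Filter G), ∀ᶠ b in (X : Filter G),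
        N i (a ^ m * (b ^ m)⁻¹) < v') ∨
      (∀ᶠ a in (X : Filter G), ∀ᶠ b in (X : Filter G), v ≤ N i (a ^ m * (b ^ m)⁻¹))) := by
    intro i m
    by_cases h : ∀ v' : ℝ, 0 < v' → ∀ᶠ a in (X : Filter G), ∀ᶠ b in (X : Filter G),
        N i (a ^ m * (b ^ m)⁻¹) < v'
    · exact ⟨1, one_pos, Or.inl h⟩
    · push Not at h
      obtain ⟨v, hv, h1⟩ := h
      exact ⟨v, hv, Or.inr h1⟩
  choose v hv hdv using hdich
  have hne : ∀ i, (Finset.range (L i)).Nonempty := fun i =>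
    ⟨0, Finset.mem_range.2 (hL i)⟩
  obtain ⟨r, hr⟩ : ∃ r : ℕ → ℝ, r = fun i => (Finset.range (L i)).inf' (hne i)
    (fun m => v i (m : ℤ)) / 4 := ⟨_, rfl⟩
  have hr0 : ∀ i, 0 < r i := by
    intro i
    rw [hr]
    have h1 : 0 < (Finset.range (L i)).inf' (hne i) (fun m => v i (m : ℤ)) := by
      rw [Finset.lt_inf'_iff]
      intro m _
      exact hv i _
    exact div_pos h1 (by norm_num)
  have hrv : ∀ i (m : ℤ), 0 ≤ m → m < L i → 4 * r i ≤ v i m := by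
    intro i m hm0 hm
    obtain ⟨n, rfl⟩ := Int.eq_ofNat_of_zero_le hm0
    have h1 : (Finset.range (L i)).inf' (hne i) (fun m => v i (m : ℤ)) ≤ v i (n : ℤ) :=
      Finset.inf'_le _ (Finset.mem_range.2 (by exact_mod_cast hm))
    rw [hr]
    show 4 * ((Finset.range (L i)).inf' (hne i) (fun m => v i (m : ℤ)) / 4) ≤ _
    linarith
  refine ⟨r, hr0, ?_⟩
  -- all exponents
  have hall : ∀ (i : ℕ) (M : ℤ) (h q : G) (t : ℝ), 0 < t →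
      ∀ᶠ a in (X : Filter G), ∀ᶠ b in (X : Filter G),
        min (N i (h * q)) (r i) - t < N i (h * (a ^ M * (b ^ M)⁻¹) * q) := by
    intro i M h q t ht
    have hLi : (0 : ℤ) < L i := by exact_mod_cast hL i
    obtain ⟨m, hm⟩ : ∃ m : ℤ, m = M % (L i : ℤ) := ⟨_, rfl⟩
    obtain ⟨w, hw⟩ : ∃ w : ℤ, w = M / (L i : ℤ) := ⟨_, rfl⟩
    have hm0 : 0 ≤ m := by rw [hm]; exact Int.emod_nonneg _ hLi.ne'
    have hm1 : m < L i := by rw [hm]; exact Int.emod_lt_of_pos _ hLi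
    have hMm : M = (L i : ℤ) * w + m := by
      rw [hm, hw]
      exact (Int.mul_ediv_add_emod M (L i : ℤ)).symm
    have hsplit : ∀ a b : G, a ^ M * (b ^ M)⁻¹ =
        a ^ ((L i : ℤ) * w) * (a ^ m * (b ^ m)⁻¹) * (b ^ ((L i : ℤ) * w))⁻¹ := by
      intro a b
      rw [hMm, zpow_add, zpow_add]
      have h4 : ∀ x y z u : G, x * y * (z * u)⁻¹ = x * (y * u⁻¹) * z⁻¹ := by
        intro x y z u
        group
      exact h4 _ _ _ _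
    rcases hdv i m with hnull | hbig
    · have h1 : ∀ v' : ℝ, 0 < v' → ∀ᶠ a in (X : Filter G), ∀ᶠ b in (X : Filter G),
          N i (a ^ M * (b ^ M)⁻¹) < v' := by
        intro v' hv'
        filter_upwards [hnull (v' / 3) (by linarith), hLN i w (v' / 3) (by linarith)] with a ha1 ha2
        filter_upwards [ha1, hLN i w (v' / 3) (by linarith)] with b hb1 hb2
        rw [hsplit]
        have h3 := (hN i).mul (a ^ ((L i : ℤ) * w) * (a ^ m * (b ^ m)⁻¹)) (b ^ ((L i : ℤ) * w))⁻¹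
        have h4 := (hN i).mul (a ^ ((L i : ℤ) * w)) (a ^ m * (b ^ m)⁻¹)
        rw [(hN i).inv] at h3
        linarith
      refine (sly_null hA G ρ hρ X hX (N i) (hN i) (hNρ i) M h1 h q t ht).mono
        fun a ha => ha.mono fun b hb => ?_
      have := min_le_left (N i (h * q)) (r i)
      linarith
    · have h1 : ∀ᶠ a in (X : Filter G), ∀ᶠ b in (X : Filter G),
          v i m / 2 ≤ N i (a ^ M * (b ^ M)⁻¹) := by
        filter_upwards [hbig, hLN i w (v i m / 4) (by have := hv i m; linarith)] with a ha1 ha2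
        filter_upwards [ha1, hLN i w (v i m / 4) (by have := hv i m; linarith)] with b hb1 hb2
        have h2 : a ^ m * (b ^ m)⁻¹ =
            (a ^ ((L i : ℤ) * w))⁻¹ * (a ^ M * (b ^ M)⁻¹) * b ^ ((L i : ℤ) * w) := by
          rw [hsplit]
          group
        have h3 := (hN i).mul ((a ^ ((L i : ℤ) * w))⁻¹ * (a ^ M * (b ^ M)⁻¹))
          (b ^ ((L i : ℤ) * w))
        have h4 := (hN i).mul (a ^ ((L i : ℤ) * w))⁻¹ (a ^ M * (b ^ M)⁻¹)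
        rw [(hN i).inv] at h4
        rw [← h2] at h3
        linarith
      have h5 := hrv i m hm0 hm1
      refine Eventually.of_forall fun a => ?_
      refine (sly_big hA G ρ hρ X hX (N i) (hN i) (hNρ i) M _ h1 h q a (r i - t / 2)
        (by linarith)).mono fun b hb => ?_
      have := min_le_right (N i (h * q)) (r i)
      linarith
  intro D hD t ht k
  have hUm := (hA G ρ hρ).2.1 _ _ hX ((hA G ρ hρ).1 X hX (-1))
  have c1 : ∀ᶠ a in (X : Filter G), ∀ᶠ b in (X : Filter G), Iv ρ t (a * b ^ (-1 : ℤ)) :=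
    AI.iv hUm ht
  have c2 : ∀ᶠ a in (X : Filter G), ∀ᶠ b in (X : Filter G), Cm ρ t D (a * b ^ (-1 : ℤ)) :=
    AI.cm hUm ht hD
  have hfin : (({i : ℕ | i ≤ k} ×ˢ (D ×ˢ D)) ×ˢ {M : ℤ | M.natAbs ≤ k} :
      Set ((ℕ × (G × G)) × ℤ)).Finite := by
    refine Set.Finite.prod (Set.Finite.prod (Set.finite_le_nat k) (hD.prod hD)) ?_
    refine (Set.finite_Icc (-(k : ℤ)) k).subset ?_
    intro M hM
    have hM' : M.natAbs ≤ k := hM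
    simp only [Set.mem_Icc]
    omega
  have c3 : ∀ᶠ a in (X : Filter G), ∀ p ∈ (({i : ℕ | i ≤ k} ×ˢ (D ×ˢ D)) ×ˢ
      {M : ℤ | M.natAbs ≤ k} : Set ((ℕ × (G × G)) × ℤ)), ∀ᶠ b in (X : Filter G),
      min (N p.1.1 (p.1.2.1 * p.1.2.2)) (r p.1.1) - t <
        N p.1.1 (p.1.2.1 * (a * b⁻¹) ^ p.2 * p.1.2.2) := by
    rw [eventually_all_finite hfin]
    intro p _
    filter_upwards [hall p.1.1 p.2 p.1.2.1 p.1.2.2 (t / 2) (by linarith)] with a ha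
    filter_upwards [ha, sly_cmp hA hP G ρ hG X hX (N p.1.1) (hN _) (hNρ _) p.2 a p.1.2.1 p.1.2.2
      (t / 2) (by linarith)] with b hb1 hb2
    linarith
  obtain ⟨a, ha1, ha2, ha3, ha4⟩ := (c1.and (c2.and (c3.and hXe))).exists
  rw [← eventually_all_finite hfin] at ha3
  obtain ⟨b, hb1, hb2, hb3, hb4⟩ := (ha1.and (ha2.and (ha3.and ha4))).exists
  rw [zpow_neg_one] at hb1 hb2
  refine ⟨a * b⁻¹, by linarith, hb1, hb2, ?_⟩
  intro i hi h hh q hq M hM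
  exact (hb3 ((i, (h, q)), M) ⟨⟨hi, ⟨hh, hq⟩⟩, hM⟩).le

end Pool.Agent.K6.H97.UP
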