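import Pool.Agent.K6.H97.UP.Base
import Pool.Agent.N709.UM.Rm3
import Pool.Agent.N564.UM3LW3

set_option autoImplicit false

/-!
Project UP (helper97), leaf WD (helper96): decomposition of words; adapted from
`Pool/Agent/N564/UM3LW3.lean`.
-/

universe u

namespace Pool.Agent.K6.H97.UP

open Pool.Agent.N709.UM Pool.Agent.N564.UM3LW3

theorem t_WD : S_WD.{u} := by
  intro G _ ρ hρ y t K hK ht htk hcj hcom w hw1 hw2
  obtain ⟨S, hS⟩ : ∃ S : ℕ → ℝ, S = fun k => ∑ j ∈ Finset.Ico K k,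
      (j : ℝ) * ((2 * (j : ℝ) + 1) * t j) := ⟨_, rfl⟩
  have hS1 : ∀ k, K ≤ k → S (k + 1) = S k + (k : ℝ) * ((2 * (k : ℝ) + 1) * t k) := by
    intro k hk
    rw [hS]
    exact Finset.sum_Ico_succ_top hk _
  have hSK : S K = 0 := by
    rw [hS]
    simp
  have hS2 : ∀ k, K ≤ k → S k ≤ (4 / 3) * ((1 / 4 : ℝ) ^ K - (1 / 4) ^ k) := by
    intro k hk
    induction k, hk using Nat.le_induction with
    | base => rw [hSK, sub_self, mul_zero]
    | succ k hk ih =>
      rw [hS1 k hk]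
      have h1 := htk k hk
      have h2 : (1 / 4 : ℝ) ^ (k + 1) = (1 / 4) ^ k * (1 / 4) := pow_succ _ _
      rw [h2]
      linarith
  have hS3 : ∀ k, K ≤ k → S k ≤ 2 * (1 / 4 : ℝ) ^ K := by
    intro k hk
    have h1 := hS2 k hk
    have h2 : (0 : ℝ) < (1 / 4) ^ k := by positivity
    have h3 : (0 : ℝ) < (1 / 4) ^ K := by positivity
    linarith
  have claim : ∀ k, K ≤ k → ∀ w : List (G ⊕ (ℕ × Bool)), Bel k w → (∀ j, j < K → cnt j w = 0) →
      (∀ j, K ≤ j → cnt j w ≤ j - 1) →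
      ∃ v : G, ∃ h ∈ WW y (fun j => j) K k, ρ v ≤ rw ρ w + S k ∧ ev y w = v * h := by
    intro k hk
    induction k, hk using Nat.le_induction with
    | base =>
      intro w hb hc _
      refine ⟨ev y w, 1, one_mem_WW y _ K K, ?_, ?_⟩
      · rw [hSK, add_zero]
        refine noletter hρ y w (fun j s hj => ?_)
        have h1 := hb j s hj
        have h2 := cnt_mem hj
        rw [hc j h1] at h2
        omega
      · rw [mul_one]
    | succ k hk ih =>
      intro w hb hc1 hc2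
      have hck := hc2 k hk
      have hckr : ((cnt k w : ℕ) : ℝ) ≤ k := by exact_mod_cast (by omega : cnt k w ≤ k)
      have hkt : ((cnt k w : ℕ) : ℝ) * ((2 * (k : ℝ) + 1) * t k) ≤
          (k : ℝ) * ((2 * (k : ℝ) + 1) * t k) :=
        mul_le_mul_of_nonneg_right hckr (mul_nonneg (by positivity) (ht k hk))
      obtain ⟨w', M, g1, g2, g3, g4, g5⟩ := Pool.Agent.N709.UM.RM3.rm3 G ρ hρ (t k) (ht k hk) y k
        (hcj k hk) (hcom k hk) w hb (by omega)
      have hc1' : ∀ j, j < K → cnt j w' = 0 := by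
        intro j hj
        have h6 := g2 j
        rw [hc1 j hj] at h6
        omega
      have hc2' : ∀ j, K ≤ j → cnt j w' ≤ j - 1 := fun j hj => (g2 j).trans (hc2 j hj)
      obtain ⟨v, h, hh, hv, hev⟩ := ih w' g1 hc1' hc2'
      have hMk : M.natAbs ≤ k := by omega
      refine ⟨v, h * y k ^ M, ⟨h, hh, M, hMk, fun h7 => absurd h7 (not_lt.2 hk), rfl⟩, ?_, ?_⟩
      · rw [hS1 k hk]
        linarith
      · rw [g5, hev, mul_assoc]
  obtain ⟨k, hk, hb⟩ := ex_bel K w
  obtain ⟨v, h, hh, hv, hev⟩ := claim k hk w hb hw1 hw2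
  exact ⟨k, v, h, hh, hv.trans (add_le_add le_rfl (hS3 k hk)), hev⟩

end Pool.Agent.K6.H97.UP
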