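import Pool.Agent.K6.H97.UP.Main
import Pool.Agent.K6.H97.UP.Ker
import Pool.Agent.K6.H97.UP.Aic
import Pool.Agent.K6.H97.UP.Pwr
import Pool.Agent.K6.H97.UP.Nc1
import Pool.Agent.K6.H97.UP.Nc2
import Pool.Agent.K6.H97.UP.D1
import Pool.Agent.K6.H97.UP.Ex
import Pool.Agent.K6.H97.UP.Csg
import Pool.Agent.K6.H97.UP.Ccp
import Pool.Agent.K6.H97.UP.Cap
import Pool.Agent.K6.H97.UP.Lock
import Pool.Agent.K6.H97.UP.Col
import Pool.Agent.K6.H97.UP.Seq
import Pool.Agent.K6.H97.UP.Der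
import Pool.Agent.K6.H97.UP.Wd
import Pool.Agent.K6.H97.UP.Ni
import Pool.Agent.K6.H97.UP.Sly

set_option autoImplicit false

/-!
Project UP (helper97): `Star'` for all second countable Raikov complete minimal groups.
-/

open Filter Topology

universe u v

namespace Pool.Agent.K6.H97.UP

open Pool.Agent.N709.UM

/-- asymptotically central ultrafilters on second countable Raikov complete minimal groups
converge -/
theorem star4 (G : Type u) [Group G] [TopologicalSpace G] [IsTopologicalGroup G] [T2Space G]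
    [SecondCountableTopology G] (hrc : RC G) (hmin : Pool.Agent.N709.UM.Min G) : Star' G :=
  ⟨inferInstance, fun ρ hρ F hF =>
    conv (t_D1 t_AIC (t_PWR t_AIC) (t_NC1 t_AIC (t_PWR t_AIC)) (t_NC2 (t_PWR t_AIC)))
      (t_EX t_AIC) (t_CSG t_AIC (t_PWR t_AIC)) (t_CCP t_AIC) (t_CAP t_AIC) t_LOCK
      (t_SEQ t_AIC (t_PWR t_AIC)) (t_DER t_COL) (t_NI t_WD) (t_SLY t_AIC (t_PWR t_AIC))
      G hrc hmin ρ hρ F hF⟩

end Pool.Agent.K6.H97.UP
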