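import Pool.Agent.K6.H97.UP.Sep
import Pool.Agent.N521.UM3CAU3

set_option autoImplicit false

/-!
Project UP (helper97): assembly.  Asymptotically central ultrafilters on second countable Raikov
complete minimal groups converge.
-/

open Filter Topology

universe u v

namespace Pool.Agent.K6.H97.UP

open Pool.Agent.N709.UM

/-- the data of all scales -/
theorem exists_scl (hEX : S_EX.{u}) (hCSG : S_CSG.{u}) (hCCP : S_CCP.{u}) (hCAP : S_CAP.{u})
    (hLOCK : S_LOCK.{u}) (G : Type u) [Group G] [TopologicalSpace G] [IsTopologicalGroup G]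
    [T2Space G] (ρ : G → ℝ) (hρ : Gen ρ) (hrc : RC G) (hD2 : D2 ρ) :
    ∃ (C : Subgroup G) (L : ℕ → ℕ) (η : ℕ → ℝ) (E : ℕ → Set G) (t : ℕ → ℝ) (D : ℕ → Set G),
      C ≤ Subgroup.center G ∧ Scl ρ C L η E t D := by
  obtain ⟨L0, hL0⟩ := hEX G ρ hρ.pn hD2
  obtain ⟨C, hCc, hCm⟩ := hCSG G ρ hρ L0
  have hCk := hCCP G ρ hρ hrc L0 hL0 C hCc hCm
  have h1 : ∀ i : ℕ, ∃ (E : Set G) (η : ℝ), 0 < η ∧ η ≤ (1 / 4 : ℝ) ^ i ∧ E ⊆ C ∧
      (∀ c ∈ E, ρ c < 1 / ((i : ℝ) + 1)) ∧ (∀ c ∈ C, ρ c ≤ 10 * η → c ∈ E) ∧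
      ∀ c ∈ C, (∃ d ∈ E, ρ (c * d⁻¹) ≤ 10 * η) → (∃ d ∈ E, ρ (c ^ 2 * d⁻¹) ≤ 10 * η) →
        c ∈ E := by
    intro i
    obtain ⟨E, η0, h0, h1, h2, h3, h4⟩ := hLOCK G ρ hρ C hCc hCk (1 / ((i : ℝ) + 1))
      (by positivity)
    have h5 : 10 * min (η0 / 10) ((1 / 4 : ℝ) ^ i) ≤ η0 := by
      have := min_le_left (η0 / 10) ((1 / 4 : ℝ) ^ i)
      linarith
    refine ⟨E, min (η0 / 10) ((1 / 4 : ℝ) ^ i), lt_min (by linarith) (by positivity),
      min_le_right _ _, h1, h2, fun c hc h => h3 c hc (h.trans h5), ?_⟩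
    rintro c hc ⟨d, hd, hd'⟩ ⟨d2, hd2, hd2'⟩
    exact h4 c hc ⟨d, hd, hd'.trans h5⟩ ⟨d2, hd2, hd2'.trans h5⟩
  choose E η hη hηle hEs hElt hnear hlock using h1
  have h2 : ∀ i : ℕ, ∃ n, i ≤ n ∧ 1 / ((n : ℝ) + 1) ≤ η i ∧ ∃ t : ℝ, 0 < t ∧
      ∃ D : Set G, D.Finite ∧ ∀ x, Iv ρ t x → Cm ρ t D x → ∃ c ∈ C, ρ (x ^ L0 n * c⁻¹) < η i := by
    intro i
    obtain ⟨n0, hn0⟩ := exists_nat_one_div_lt (hη i)
    obtain ⟨n, hn, t, ht, D, hD, h⟩ := hCAP G ρ hρ hrc L0 hL0 C hCm (η i) (hη i) (max i n0)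
    refine ⟨n, (le_max_left _ _).trans hn, ?_, t, ht, D, hD, h⟩
    have h3 : (n0 : ℝ) ≤ n := by exact_mod_cast (le_max_right _ _).trans hn
    refine le_trans ?_ hn0.le
    exact one_div_le_one_div_of_le (by positivity) (by linarith)
  choose n hn hnη t ht D hD happ using h2
  refine ⟨C, fun i => L0 (n i), η, E, t, D, hCc, ?_⟩
  exact
    { Lpos := fun i => le_trans (by have := hn i; omega) (hL0.pos (n i))
      ηpos := hη
      ηle := hηle
      tpos := ht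
      Dfin := hD
      Esub := hEs
      Elt := hElt
      near := hnear
      lock := hlock
      app := happ
      cau := by
        intro i H hH m
        filter_upwards [hL0.cau (n i) H hH m] with a ha
        filter_upwards [ha] with b hb
        exact lt_of_lt_of_le hb (hnη i) }

/-- a sequence whose letters are almost central defines asymptotically central ultrafilters -/
theorem m_ai_map {G : Type u} [Group G] [TopologicalSpace G] [IsTopologicalGroup G] {ρ : G → ℝ}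
    (hρ : Gen ρ) (x : ℕ → G) (s : ℕ → ℝ) (hs : Tendsto s atTop (𝓝 0))
    (hinv : ∀ k, Iv ρ (s k) (x k)) (q : ℕ → G) (hq : DenseRange q)
    (hcq : ∀ k i, i ≤ k → Cm ρ (s k) {q i} (x k)) (V : Ultrafilter ℕ)
    (hV : (V : Filter ℕ) ≤ atTop) : AI ρ (V.map x) := by
  have hsV : ∀ t > 0, ∀ᶠ k in (V : Filter ℕ), s k < t := fun t ht =>
    hV (hs.eventually (gt_mem_nhds ht))
  constructor
  · intro t ht
    show ∀ᶠ k in (V : Filter ℕ), _
    filter_upwards [hsV t ht] with k hk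
    intro c
    have h := hinv k c
    exact ⟨by linarith [h.1], by linarith [h.2]⟩
  · intro t ht c
    show ∀ᶠ k in (V : Filter ℕ), _
    have hop : IsOpen {g : G | ρ (c * g⁻¹) < t / 8} :=
      isOpen_lt (hρ.cont.comp (continuous_const.mul continuous_inv)) continuous_const
    obtain ⟨i, hi⟩ := hq.exists_mem_open hop ⟨c, by
      show ρ (c * c⁻¹) < t / 8
      rw [mul_inv_cancel, hρ.pn.one]
      linarith⟩
    have hi' : ρ (c * (q i)⁻¹) < t / 8 := hi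
    filter_upwards [hsV (t / 8) (by linarith), hV (eventually_ge_atTop i)] with k hk hik
    have h1 := hcq k i hik (q i) rfl
    have h2 := hinv k (c * (q i)⁻¹)
    constructor
    · have h3 : x k * c * (x k)⁻¹ * c⁻¹ = (x k * (c * (q i)⁻¹) * (x k)⁻¹) *
          (x k * q i * (x k)⁻¹ * (q i)⁻¹) * (c * (q i)⁻¹)⁻¹ := by group
      show ρ (x k * c * (x k)⁻¹ * c⁻¹) < t
      rw [h3]
      have h4 := hρ.pn.mul ((x k * (c * (q i)⁻¹) * (x k)⁻¹) *
          (x k * q i * (x k)⁻¹ * (q i)⁻¹)) (c * (q i)⁻¹)⁻¹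
      have h5 := hρ.pn.mul (x k * (c * (q i)⁻¹) * (x k)⁻¹) (x k * q i * (x k)⁻¹ * (q i)⁻¹)
      rw [hρ.pn.inv] at h4
      linarith [h1.1, h2.1]
    · have h3 : (x k)⁻¹ * c * x k * c⁻¹ = ((x k)⁻¹ * (c * (q i)⁻¹) * x k) *
          ((x k)⁻¹ * q i * x k * (q i)⁻¹) * (c * (q i)⁻¹)⁻¹ := by group
      show ρ ((x k)⁻¹ * c * x k * c⁻¹) < t
      rw [h3]
      have h4 := hρ.pn.mul (((x k)⁻¹ * (c * (q i)⁻¹) * x k) *
          ((x k)⁻¹ * q i * x k * (q i)⁻¹)) (c * (q i)⁻¹)⁻¹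
      have h5 := hρ.pn.mul ((x k)⁻¹ * (c * (q i)⁻¹) * x k) ((x k)⁻¹ * q i * x k * (q i)⁻¹)
      rw [hρ.pn.inv] at h4
      linarith [h1.2, h2.2]

/-- asymptotically central ultrafilters converge -/
theorem conv (hD1 : S_D1.{u}) (hEX : S_EX.{u}) (hCSG : S_CSG.{u}) (hCCP : S_CCP.{u})
    (hCAP : S_CAP.{u}) (hLOCK : S_LOCK.{u}) (hSEQ : S_SEQ.{u}) (hDER : S_DER.{u})
    (hNI : S_NI.{u}) (hSLY : S_SLY.{u}) (G : Type u) [Group G] [TopologicalSpace G]
    [IsTopologicalGroup G] [T2Space G] [SecondCountableTopology G] (hrc : RC G)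
    (hmin : Pool.Agent.N709.UM.Min G) (ρ : G → ℝ) (hρ : Gen ρ) (F : Ultrafilter G)
    (hF : AI ρ F) : ∃ z : G, (F : Filter G) ≤ 𝓝 z := by
  classical
  by_contra hno
  have hpos : ∀ z : G, z ≠ 1 → 0 < ρ z := by
    intro z hz
    by_contra hcon
    have h1 : ({z}ᶜ : Set G) ∈ 𝓝 (1 : G) := isOpen_compl_singleton.mem_nhds (by
      simpa using hz.symm)
    obtain ⟨r', hr', hrU⟩ := hρ.gen _ h1
    exact hrU z (lt_of_le_of_lt (not_lt.mp hcon) hr') rfl
  obtain ⟨e, he, heF⟩ := Pool.Agent.N521.UM3CAU3.cau3 G hrc ρ hρ F hF hno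
  by_cases hD2 : D2 ρ
  · obtain ⟨C, L, η, E, t, D, hCc, hS⟩ := exists_scl hEX hCSG hCCP hCAP hLOCK G ρ hρ hrc hD2
    let q : ℕ → G := TopologicalSpace.denseSeq G
    have hq : DenseRange q := TopologicalSpace.denseRange_denseSeq G
    -- the tolerances
    let μ : ℕ → ℝ := fun k => (Finset.range (k + 1)).inf' Finset.nonempty_range_add_one fun i => min (t i) (η i)
    have hμ0 : ∀ k, 0 < μ k := by
      intro k
      exact (Finset.lt_inf'_iff _).2 fun i _ => lt_min (hS.tpos i) (hS.ηpos i)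
    have hμle : ∀ k i, i ≤ k → μ k ≤ min (t i) (η i) := by
      intro k i hi
      exact Finset.inf'_le _ (by simp; omega)
    have hμ1 : ∀ k, μ k ≤ 1 := by
      intro k
      refine (hμle k k le_rfl).trans ((min_le_right _ _).trans ((hS.ηle k).trans ?_))
      exact pow_le_one₀ (by norm_num) (by norm_num)
    let s : ℕ → ℝ := fun k => (1 / 4 : ℝ) ^ k * μ k /
      (((L k : ℝ) + 1) * ((2 * (k : ℝ) + 1) * (2 * ((k : ℝ) + 1) * ((k : ℝ) + 1))))
    have hs0 : ∀ k, 0 < s k := by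
      intro k
      have := hμ0 k
      simp only [s]
      positivity
    have hsm : ∀ k, s k * (((L k : ℝ) + 1) *
        ((2 * (k : ℝ) + 1) * (2 * ((k : ℝ) + 1) * ((k : ℝ) + 1)))) = (1 / 4 : ℝ) ^ k * μ k := by
      intro k
      have : (((L k : ℝ) + 1) * ((2 * (k : ℝ) + 1) * (2 * ((k : ℝ) + 1) * ((k : ℝ) + 1)))) ≠ 0 := by
        positivity
      simp only [s]
      rw [div_mul_cancel₀ _ this]
    have hs1 : ∀ k i, i ≤ k → ((L k : ℝ) + 1) * s k ≤ (1 / 4 : ℝ) ^ k * min (t i) (η i) := by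
      intro k i hi
      have h1 := hsm k
      have h2 : (1 / 4 : ℝ) ^ k * μ k ≤ (1 / 4 : ℝ) ^ k * min (t i) (η i) :=
        mul_le_mul_of_nonneg_left (hμle k i hi) (by positivity)
      have h3 : (1 : ℝ) ≤ (2 * (k : ℝ) + 1) * (2 * ((k : ℝ) + 1) * ((k : ℝ) + 1)) := by
        have h0 : (0 : ℝ) ≤ k := Nat.cast_nonneg k
        have h4 : (1 : ℝ) ≤ 2 * (k : ℝ) + 1 := by linarith
        have h5 : (1 : ℝ) ≤ 2 * ((k : ℝ) + 1) * ((k : ℝ) + 1) := by nlinarith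
        nlinarith
      have h4 : 0 ≤ ((L k : ℝ) + 1) * s k := by
        have := (hs0 k).le
        positivity
      have h5 := mul_le_mul_of_nonneg_left h3 h4
      have h6 : ((L k : ℝ) + 1) * s k * ((2 * (k : ℝ) + 1) * (2 * ((k : ℝ) + 1) * ((k : ℝ) + 1))) =
          s k * (((L k : ℝ) + 1) * ((2 * (k : ℝ) + 1) * (2 * ((k : ℝ) + 1) * ((k : ℝ) + 1)))) := by
        ring
      rw [h6, h1] at h5
      linarith
    have hs2 : ∀ k : ℕ, (k : ℝ) * ((2 * (k : ℝ) + 1) * (2 * (k : ℝ) * s k)) ≤ (1 / 4 : ℝ) ^ k := by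
      intro k
      have h1 := hsm k
      have h0 : (0 : ℝ) ≤ k := Nat.cast_nonneg k
      have hs := (hs0 k).le
      have h2 : (1 / 4 : ℝ) ^ k * μ k ≤ (1 / 4 : ℝ) ^ k * 1 :=
        mul_le_mul_of_nonneg_left (hμ1 k) (by positivity)
      rw [mul_one] at h2
      have hL : (0 : ℝ) ≤ L k := Nat.cast_nonneg _
      have h3 : (k : ℝ) * ((2 * (k : ℝ) + 1) * (2 * (k : ℝ))) ≤
          ((L k : ℝ) + 1) * ((2 * (k : ℝ) + 1) * (2 * ((k : ℝ) + 1) * ((k : ℝ) + 1))) := by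
        have h4 : (k : ℝ) * ((2 * (k : ℝ) + 1) * (2 * (k : ℝ))) ≤
            (2 * (k : ℝ) + 1) * (2 * ((k : ℝ) + 1) * ((k : ℝ) + 1)) := by nlinarith
        have h5 : 0 ≤ (2 * (k : ℝ) + 1) * (2 * ((k : ℝ) + 1) * ((k : ℝ) + 1)) := by positivity
        nlinarith
      have h4 := mul_le_mul_of_nonneg_left h3 hs
      rw [h1] at h4
      calc (k : ℝ) * ((2 * (k : ℝ) + 1) * (2 * (k : ℝ) * s k))
          = s k * ((k : ℝ) * ((2 * (k : ℝ) + 1) * (2 * (k : ℝ)))) := by ring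
        _ ≤ _ := h4.trans h2
    have hsle : ∀ k, s k ≤ (1 / 4 : ℝ) ^ k := by
      intro k
      have h1 := hs1 k k le_rfl
      have h2 : min (t k) (η k) ≤ 1 := by
        refine (min_le_right _ _).trans ((hS.ηle k).trans ?_)
        exact pow_le_one₀ (by norm_num) (by norm_num)
      have h3 : (1 / 4 : ℝ) ^ k * min (t k) (η k) ≤ (1 / 4 : ℝ) ^ k * 1 :=
        mul_le_mul_of_nonneg_left h2 (by positivity)
      have hL : (0 : ℝ) ≤ L k := Nat.cast_nonneg _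
      have h4 := (hs0 k).le
      nlinarith
    have hslim : Tendsto s atTop (𝓝 0) :=
      squeeze_zero (fun k => (hs0 k).le) hsle
        (tendsto_pow_atTop_nhds_zero_of_lt_one (by norm_num) (by norm_num))
    obtain ⟨x, hx⟩ := hSEQ G ρ hρ C L η E t D hS F hF e he heF q s hs0
    have hder := hDER G ρ hρ.pn C hCc L η E t D hS q s (e / 4) hs0 hs1 x hx
    -- the ultrafilter
    let V : Ultrafilter ℕ := Ultrafilter.of atTop
    have hV : (V : Filter ℕ) ≤ atTop := Ultrafilter.of_le _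
    have hX : AI ρ (V.map x) := m_ai_map hρ x s hslim (fun k => (hx k).inv) q hq
      (fun k i hi => (hx k).coq i hi) V hV
    have hXe : ∀ᶠ a in ((V.map x : Ultrafilter G) : Filter G),
        ∀ᶠ b in ((V.map x : Ultrafilter G) : Filter G), e / 4 ≤ ρ (a * b⁻¹) := by
      show ∀ᶠ j in (V : Filter ℕ), ∀ᶠ k in (V : Filter ℕ), e / 4 ≤ ρ (x j * (x k)⁻¹)
      refine Eventually.of_forall fun j => ?_
      filter_upwards [hV (eventually_gt_atTop j)] with k hk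
      exact (hx k).far j hk
    -- the norms
    have hN : ∀ i : ℕ, ∃ N : G → ℝ, PN N ∧ (∀ g, N g ≤ ρ g) ∧
        (∀ g, min (ρ g) 1 - 2 * (3 / ((i : ℝ) + 1)) ≤ N g) ∧
        ∀ m : ℤ, Tendsto (fun j => N (x j ^ ((L i : ℤ) * m))) atTop (𝓝 0) := by
      intro i
      obtain ⟨K, hK⟩ := hder i
      exact hNI G ρ hρ.pn x s hs0 hs2 (fun k => (hx k).inv) (fun k => (hx k).com) (L i)
        (le_trans (by omega) (hS.Lpos i)) K (3 / ((i : ℝ) + 1)) (by positivity) hK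
    choose N hNpn hNle hNge hNlim using hN
    obtain ⟨r, hr, hSlp⟩ := hSLY G ρ hρ (V.map x) hX (e / 4) (by linarith) hXe N L hNpn hNle
      (fun i => le_trans (by omega) (hS.Lpos i)) (by
        intro i m ν hν
        show ∀ᶠ j in (V : Filter ℕ), N i (x j ^ ((L i : ℤ) * m)) < ν
        exact hV ((hNlim i m).eventually (gt_mem_nhds hν)))
    refine t_SEP G hmin ρ hρ N r (e / 4 / 2) (by linarith) hNpn hNle hr ?_ hSlp
    intro z hz
    have h1 : 0 < min (ρ z) 1 := lt_min (hpos z hz) one_pos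
    obtain ⟨i, hi⟩ := exists_nat_one_div_lt (show 0 < min (ρ z) 1 / 6 by linarith)
    refine ⟨i, lt_of_lt_of_le ?_ (hNge i z)⟩
    have h2 : 3 / ((i : ℝ) + 1) = 3 * (1 / ((i : ℝ) + 1)) := by ring
    rw [h2]
    linarith
  · have hB : ∃ δ : ℝ, 0 < δ ∧ ∀ k : ℕ, 1 ≤ k → ∃ H : Ultrafilter G, AI ρ H ∧ Big ρ H k δ := by
      have h0 : ∃ δ : ℝ, 0 < δ ∧ ∀ k : ℕ, 1 ≤ k → ∃ H : Ultrafilter G, AI ρ H ∧
          ¬ ∀ᶠ a in (H : Filter G), ∀ᶠ b in (H : Filter G), ρ (a ^ k * (b ^ k)⁻¹) < δ := by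
        by_contra hcon
        apply hD2
        intro δ hδ
        by_contra hcon2
        apply hcon
        refine ⟨δ, hδ, fun k hk => ?_⟩
        by_contra hcon3
        apply hcon2
        refine ⟨k, hk, fun H hH => ?_⟩
        by_contra hcon4
        exact hcon3 ⟨H, hH, hcon4⟩
      obtain ⟨δ, hδ, h⟩ := h0
      refine ⟨δ, hδ, fun k hk => ?_⟩
      obtain ⟨H, hH, h2⟩ := h k hk
      refine ⟨H, hH, ?_⟩
      have h3 := (not_ev2 H (fun _ => H) fun a b => ρ (a ^ k * (b ^ k)⁻¹) < δ).1 h2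
      filter_upwards [h3] with a ha
      filter_upwards [ha] with b hb
      exact not_lt.1 hb
    obtain ⟨δ, hδ, h⟩ := hB
    exact t_SEP G hmin ρ hρ (fun _ => ρ) (fun _ => δ / 4) (δ / 4) (by linarith)
      (fun _ => hρ.pn) (fun _ _ => le_rfl) (fun _ => by linarith) (fun z hz => ⟨0, hpos z hz⟩)
      (hD1 G ρ hρ δ hδ h)

end Pool.Agent.K6.H97.UP
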