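import Pool.Agent.K6.H97.UP.Base
import Pool.Agent.N709.UM.Star2
import Pool.Agent.N709.UM.Rm3
import Pool.Agent.N564.UM3LW3
import Pool.Agent.N187.UMTOP
import Pool.Agent.N618.UM2CJ
import Pool.Agent.N499.UMNWD

set_option autoImplicit false

/-!
Project UP (helper97), leaf SEP: the selection property contradicts minimality (after
`Pool/Agent/N709/UM/Star3.lean` and `Pool/Agent/N564/UM3LW3.lean`).
-/

open Filter Topology

universe u v

namespace Pool.Agent.K6.H97.UP

open Pool.Agent.N709.UM Pool.Agent.N564.UM3LW3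

theorem lw4 {G : Type u} [Group G] (ρ : G → ℝ) (hρ : PN ρ) (N : G → ℝ) (hNρ : ∀ g, N g ≤ ρ g)
    (y : ℕ → G) (t : ℕ → ℝ) (K : ℕ) (r : ℝ) (z q : G) (hK : 1 ≤ K) (ht : ∀ k, 0 ≤ t k)
    (htk : ∀ k : ℕ, (k : ℝ) * ((2 * (k : ℝ) + 1) * t k) ≤ (1 / 4 : ℝ) ^ k)
    (hcj : ∀ k, K ≤ k → ∀ c, ρ (y k * c * (y k)⁻¹) ≤ ρ c + t k ∧ ρ ((y k)⁻¹ * c * y k) ≤ ρ c + t k)
    (hcom : ∀ k, K ≤ k → ∀ j, j < k → ∀ c, (c = y j ∨ c = (y j)⁻¹) →
      ρ (y k * c * (y k)⁻¹ * c⁻¹) ≤ t k ∧ ρ ((y k)⁻¹ * c * y k * c⁻¹) ≤ t k)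
    (hloss : ∀ k, K ≤ k → ∀ h ∈ pp y k, ∀ M : ℤ, M.natAbs ≤ k →
      min (N (h * q)) r - t k ≤ N (h * y k ^ M * q))
    (w : List (G ⊕ (ℕ × Bool))) (hw1 : ∀ j, j < K → cnt j w = 0)
    (hw2 : ∀ j, K ≤ j → cnt j w ≤ j - 1)
    (hw3 : rw ρ w + ρ (z * q) + 4 * (1 / 4 : ℝ) ^ K < min (N q) r) : ev y w ≠ z := by
  intro he
  have hR : Rm3.{u} := Pool.Agent.N709.UM.RM3.rm3
  obtain ⟨S, hS⟩ : ∃ S : ℕ → ℝ, S = fun k => ∑ j ∈ Finset.Ico K k,
      (j : ℝ) * ((2 * (j : ℝ) + 1) * t j) := ⟨_, rfl⟩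
  obtain ⟨T, hT⟩ : ∃ T : ℕ → ℝ, T = fun k => ∑ j ∈ Finset.Ico K k, t j := ⟨_, rfl⟩
  have hS1 : ∀ k, K ≤ k → S (k + 1) = S k + (k : ℝ) * ((2 * (k : ℝ) + 1) * t k) := by
    intro k hk
    rw [hS]
    exact Finset.sum_Ico_succ_top hk _
  have hSK : S K = 0 := by
    rw [hS]
    simp
  have hT1 : ∀ k, K ≤ k → T (k + 1) = T k + t k := by
    intro k hk
    rw [hT]
    exact Finset.sum_Ico_succ_top hk _
  have hTK : T K = 0 := by
    rw [hT]
    simp
  have hT0 : ∀ k, 0 ≤ T k := by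
    intro k
    rw [hT]
    exact Finset.sum_nonneg fun j _ => ht j
  have hTS : ∀ k, T k ≤ S k := by
    intro k
    rw [hT, hS]
    refine Finset.sum_le_sum fun j hj => ?_
    have hj1 : 1 ≤ j := hK.trans (Finset.mem_Ico.1 hj).1
    have hj2 : (1 : ℝ) ≤ j := by exact_mod_cast hj1
    have h1 : (1 : ℝ) ≤ (j : ℝ) * (2 * (j : ℝ) + 1) := by nlinarith
    have h2 := mul_le_mul_of_nonneg_right h1 (ht j)
    rw [one_mul, mul_assoc] at h2
    exact h2
  have hS2 : ∀ k, K ≤ k → S k ≤ (4 / 3) * ((1 / 4 : ℝ) ^ K - (1 / 4) ^ k) := by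
    intro k hk
    induction k, hk using Nat.le_induction with
    | base => rw [hSK, sub_self, mul_zero]
    | succ k hk ih =>
      rw [hS1 k hk]
      have h1 := htk k
      have h2 : (1 / 4 : ℝ) ^ (k + 1) = (1 / 4) ^ k * (1 / 4) := pow_succ _ _
      rw [h2]
      linarith
  have hS3 : ∀ k, K ≤ k → S k ≤ 2 * (1 / 4 : ℝ) ^ K := by
    intro k hk
    have h1 := hS2 k hk
    have h2 : (0 : ℝ) < (1 / 4) ^ k := by positivity
    have h3 : (0 : ℝ) < (1 / 4) ^ K := by positivity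
    linarith
  have claim : ∀ k, K ≤ k → ∀ w : List (G ⊕ (ℕ × Bool)), Bel k w → (∀ j, j < K → cnt j w = 0) →
      (∀ j, K ≤ j → cnt j w ≤ j - 1) →
      ∃ v : G, ∃ h ∈ pp y k, ρ v ≤ wt ρ (fun _ => 0) w + S k ∧
        min (N q) r - T k ≤ N (h * q) ∧ ev y w = v * h := by
    intro k hk
    induction k, hk using Nat.le_induction with
    | base =>
      intro w hb hc _
      refine ⟨ev y w, 1, pp_one y K, ?_, ?_, ?_⟩
      · rw [hSK, add_zero]
        refine noletter hρ y w (fun j s hj => ?_)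
        have h1 := hb j s hj
        have h2 := cnt_mem hj
        rw [hc j h1] at h2
        omega
      · rw [hTK, sub_zero, one_mul]
        exact min_le_left _ _
      · rw [mul_one]
    | succ k hk ih =>
      intro w hb hc1 hc2
      have hck := hc2 k hk
      have hckr : ((cnt k w : ℕ) : ℝ) ≤ k := by exact_mod_cast (by omega : cnt k w ≤ k)
      have hkt : ((cnt k w : ℕ) : ℝ) * ((2 * (k : ℝ) + 1) * t k) ≤
          (k : ℝ) * ((2 * (k : ℝ) + 1) * t k) :=
        mul_le_mul_of_nonneg_right hckr (mul_nonneg (by positivity) (ht k))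
      obtain ⟨w', M, g1, g2, g3, g4, g5⟩ := hR G ρ hρ (t k) (ht k) y k (hcj k hk) (hcom k hk)
        w hb (by omega)
      have g4' : wt ρ (fun _ => 0) w' ≤ wt ρ (fun _ => 0) w +
          ((cnt k w : ℕ) : ℝ) * ((2 * (k : ℝ) + 1) * t k) := g4
      have hc1' : ∀ j, j < K → cnt j w' = 0 := by
        intro j hj
        have h6 := g2 j
        rw [hc1 j hj] at h6
        omega
      have hc2' : ∀ j, K ≤ j → cnt j w' ≤ j - 1 := fun j hj => (g2 j).trans (hc2 j hj)
      obtain ⟨v, h, hh, hv, hd, hev⟩ := ih w' g1 hc1' hc2'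
      have hMk : M.natAbs ≤ k := by omega
      refine ⟨v, h * y k ^ M, ⟨h, hh, M, hMk, rfl⟩, ?_, ?_, ?_⟩
      · rw [hS1 k hk]
        linarith
      · have h1 := hloss k hk h hh M hMk
        have h2 : min (N q) r - T k ≤ min (N (h * q)) r :=
          le_min hd (by have := min_le_right (N q) r; have := hT0 k; linarith)
        rw [hT1 k hk]
        linarith
      · rw [g5, hev, mul_assoc]
  obtain ⟨k, hk, hb⟩ := ex_bel K w
  obtain ⟨v, h, hh, hv, hd, hev⟩ := claim k hk w hb hw1 hw2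
  have h1 : h * q = v⁻¹ * (z * q) := by
    rw [← he, hev]
    group
  have h2 : N (h * q) ≤ ρ v + ρ (z * q) := by
    refine (hNρ _).trans ?_
    rw [h1]
    have h3 := hρ.mul v⁻¹ (z * q)
    rwa [hρ.inv] at h3
  have h3 := hS3 k hk
  have h4 := hTS k
  have h5 : wt ρ (fun _ => 0) w + ρ (z * q) + 4 * (1 / 4 : ℝ) ^ K < min (N q) r := hw3
  linarith


theorem t_SEP : S_SEP.{u} := by
  intro G _ _ _ _ _ hmin ρ hρ N r e he hN hNρ hr hsep hS
  classical
  have hρ0 : ∀ g, 0 ≤ ρ g := hρ.pn.nonneg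
  let q : ℕ → G := TopologicalSpace.denseSeq G
  have hq : DenseRange q := TopologicalSpace.denseRange_denseSeq G
  let t : ℕ → ℝ := fun k => (1 / 4 : ℝ) ^ k / ((2 * (k : ℝ) + 1) * ((k : ℝ) + 1))
  have htp : ∀ k, 0 < t k := fun k => by positivity
  have htm : ∀ k : ℕ, ((2 * (k : ℝ) + 1) * ((k : ℝ) + 1)) * t k = (1 / 4 : ℝ) ^ k := by
    intro k
    have : ((2 * (k : ℝ) + 1) * ((k : ℝ) + 1)) ≠ 0 := by positivity
    simp only [t]
    rw [mul_div_cancel₀ _ this]
  have htm' : ∀ k : ℕ, (k : ℝ) * ((2 * (k : ℝ) + 1) * t k) ≤ (1 / 4 : ℝ) ^ k := by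
    intro k
    have h1 := htm k
    have h2 := htp k
    have h3 : (0 : ℝ) ≤ k := Nat.cast_nonneg k
    have h4 : 0 ≤ (2 * (k : ℝ) + 1) * t k := by positivity
    nlinarith
  have htle : ∀ k, t k ≤ (1 / 4 : ℝ) ^ k := by
    intro k
    have h1 := htm k
    have h2 := htp k
    have h3 : (0 : ℝ) ≤ k := Nat.cast_nonneg k
    have h4 : (1 : ℝ) ≤ (2 * (k : ℝ) + 1) * ((k : ℝ) + 1) := by nlinarith
    nlinarith
  have htlim : Tendsto t atTop (𝓝 0) :=
    squeeze_zero (fun k => (htp k).le) htle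
      (tendsto_pow_atTop_nhds_zero_of_lt_one (by norm_num) (by norm_num))
  -- the data of the stages
  let D : ℕ → (ℕ → G) → Set G := fun k y' =>
    ({c | ∃ j, j < k ∧ (c = y' j ∨ c = (y' j)⁻¹)} ∪ {c | ∃ i, i ≤ k ∧ c = q i}) ∪ pp y' k
  have hDf : ∀ k y', (D k y').Finite := by
    intro k y'
    have h1 : ({c | ∃ j, j < k ∧ (c = y' j ∨ c = (y' j)⁻¹)} : Set G).Finite := by
      have h2 : ({c | ∃ j, j < k ∧ (c = y' j ∨ c = (y' j)⁻¹)} : Set G) =
          (fun j => y' j) '' (Set.Iio k) ∪ (fun j => (y' j)⁻¹) '' (Set.Iio k) := by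
        ext c
        constructor
        · rintro ⟨j, hj, h | h⟩
          · exact Or.inl ⟨j, hj, h.symm⟩
          · exact Or.inr ⟨j, hj, h.symm⟩
        · rintro (⟨j, hj, h⟩ | ⟨j, hj, h⟩)
          · exact ⟨j, hj, Or.inl h.symm⟩
          · exact ⟨j, hj, Or.inr h.symm⟩
      rw [h2]
      exact ((Set.finite_Iio k).image _).union ((Set.finite_Iio k).image _)
    have h3 : ({c | ∃ i, i ≤ k ∧ c = q i} : Set G).Finite := by
      refine ((Set.finite_Iic k).image q).subset ?_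
      rintro c ⟨i, hi, rfl⟩
      exact ⟨i, hi, rfl⟩
    exact (h1.union h3).union (pp_finite y' k)
  obtain ⟨y, s, hys, hyP⟩ := exists_seq' (1 : G)
    (fun k x y' => e ≤ ρ x ∧ Iv ρ (t k) x ∧ Cm ρ (t k) (D k y') x ∧
      ∀ i, i ≤ k → ∀ h ∈ D k y', ∀ p ∈ D k y', ∀ M : ℤ, M.natAbs ≤ k →
        min (N i (h * p)) (r i) - t k ≤ N i (h * x ^ M * p)) (by
    intro k y'
    exact hS (D k y') (hDf k y') (t k) (htp k) k)
  have hpp : ∀ k, pp (s k) k = pp y k := fun k => pp_congr k (hys k)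
  have hinv : ∀ k c, ρ (y k * c * (y k)⁻¹) ≤ ρ c + t k ∧ ρ ((y k)⁻¹ * c * y k) ≤ ρ c + t k :=
    fun k => (hyP k).2.1
  have hcomj : ∀ k j, j < k → ∀ c, (c = y j ∨ c = (y j)⁻¹) →
      ρ (y k * c * (y k)⁻¹ * c⁻¹) < t k ∧ ρ ((y k)⁻¹ * c * y k * c⁻¹) < t k := by
    intro k j hj c hc
    refine (hyP k).2.2.1 c (Or.inl (Or.inl ⟨j, hj, ?_⟩))
    rw [hys k j hj]
    exact hc
  have hcomq : ∀ i k, i ≤ k → ρ (y k * q i * (y k)⁻¹ * (q i)⁻¹) < t k := by
    intro i k hi
    exact ((hyP k).2.2.1 (q i) (Or.inl (Or.inr ⟨i, hi, rfl⟩))).1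
  have hnl : ∀ k n i, n ≤ k → i ≤ k → ∀ h ∈ pp y k, ∀ M : ℤ, M.natAbs ≤ k →
      min (N n (h * q i)) (r n) - t k ≤ N n (h * y k ^ M * q i) := by
    intro k n i hn hi h hh M hM
    rw [← hpp k] at hh
    exact (hyP k).2.2.2 n hn h (Or.inr hh) (q i) (Or.inl (Or.inr ⟨i, hi, rfl⟩)) M hM
  have hy1 : Tendsto y atTop (𝓝 1) := by
    apply Pool.Agent.N187.UMTOP.top G hmin y
    · exact Pool.Agent.N618.UM2.cj G ρ hρ y t htlim (fun k c => (hinv k c).1) q hq hcomq
    · intro z hz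
      obtain ⟨n, hn⟩ := hsep z hz
      let c0 : ℝ := min (N n z / 2) (r n)
      have hc0 : 0 < c0 := lt_min (by linarith) (hr n)
      have hc0z : c0 ≤ N n z / 2 := min_le_left _ _
      obtain ⟨i, hi⟩ : ∃ i, ρ (z * q i) < c0 / 8 := by
        have hop : IsOpen {x : G | ρ (z * x) < c0 / 8} :=
          isOpen_lt (hρ.cont.comp (continuous_const.mul continuous_id)) continuous_const
        obtain ⟨i, hi⟩ := hq.exists_mem_open hop ⟨z⁻¹, by
          show ρ (z * z⁻¹) < c0 / 8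
          rw [mul_inv_cancel, hρ.pn.one]
          linarith⟩
        exact ⟨i, hi⟩
      have hdq : c0 ≤ min (N n (q i)) (r n) := by
        refine le_min ?_ (min_le_right _ _)
        refine hc0z.trans ?_
        have h1 := le_mul_right (hN n) z (q i)
        have h2 := hNρ n (z * q i)
        linarith
      have h4 : ∀ᶠ k : ℕ in atTop, 4 * (1 / 4 : ℝ) ^ k < c0 / 4 := by
        have h5 : Tendsto (fun k : ℕ => 4 * (1 / 4 : ℝ) ^ k) atTop (𝓝 (4 * 0)) :=
          (tendsto_pow_atTop_nhds_zero_of_lt_one (by norm_num) (by norm_num)).const_mul 4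
        rw [mul_zero] at h5
        exact h5.eventually (gt_mem_nhds (by linarith))
      obtain ⟨K, hK1, hK2, hK3, hK4⟩ := (h4.and ((eventually_ge_atTop n).and
        ((eventually_ge_atTop i).and (eventually_ge_atTop 1)))).exists
      let δ : ℝ := c0 / 4
      have hδ : 0 < δ := by simp only [δ]; linarith
      let ε : ℕ → ℝ := fun j => if j < K then δ else δ / j
      have hεp : ∀ k, 0 < ε k := by
        intro k
        simp only [ε]
        split_ifs with h
        · exact hδ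
        · have : (0 : ℝ) < k := by
            have : 0 < k := by omega
            exact_mod_cast this
          positivity
      have hε1 : ∀ j, j < K → ∀ i, i ≤ j → δ ≤ ε i := by
        intro j hj i hi
        simp only [ε]
        rw [if_pos (lt_of_le_of_lt hi hj)]
      have hε2 : ∀ j, K ≤ j → ∀ i, i ≤ j → δ / j ≤ ε i := by
        intro j hj i hi
        have hj1 : (1 : ℝ) ≤ j := by
          have : 1 ≤ j := by omega
          exact_mod_cast this
        simp only [ε]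
        split_ifs with h
        · exact div_le_self hδ.le hj1
        · have hi1 : (0 : ℝ) < i := by
            have : 0 < i := by omega
            exact_mod_cast this
          apply div_le_div_of_nonneg_left hδ.le hi1
          exact_mod_cast hi
      have hlow : ∀ w : List (G ⊕ (ℕ × Bool)), ev y w = z → δ ≤ wt ρ ε w := by
        intro w hw
        by_contra hlt
        rw [not_le] at hlt
        refine lw4 ρ hρ.pn (N n) (hNρ n) y t K (r n) z (q i) hK4 (fun k => (htp k).le) htm'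
          (fun k _ => hinv k) ?_ ?_ w ?_ ?_ ?_ hw
        · intro k hk j hj c hc
          have h6 := hcomj k j hj c hc
          exact ⟨h6.1.le, h6.2.le⟩
        · intro k hk h hh M hM
          exact hnl k n i (hK2.trans hk) (hK3.trans hk) h hh M hM
        · intro j hj
          have h1 := cnt_mul_le_wt hρ0 (fun j => (hεp j).le) (hε1 j hj) w
          by_contra hne
          have h2 : (1 : ℝ) ≤ cnt j w := by
            have : 1 ≤ cnt j w := Nat.one_le_iff_ne_zero.mpr hne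
            exact_mod_cast this
          nlinarith
        · intro j hj
          have h1 := cnt_mul_le_wt hρ0 (fun j => (hεp j).le) (hε2 j hj) w
          have hj0 : (0 : ℝ) < j := by
            have : 0 < j := by omega
            exact_mod_cast this
          have h2 : (cnt j w : ℝ) * (δ / j) < δ := lt_of_le_of_lt h1 hlt
          have h3 : (cnt j w : ℝ) < j := by
            have h5 : (cnt j w : ℝ) * (δ / j) = ((cnt j w : ℝ) / j) * δ := by ring
            rw [h5] at h2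
            have h6 : (cnt j w : ℝ) / j < 1 := by
              by_contra hcon
              rw [not_lt] at hcon
              nlinarith
            rwa [div_lt_one hj0] at h6
          have h4 : cnt j w < j := by exact_mod_cast h3
          omega
        · have h6 := rw_le_wt (ρ := ρ) (fun j => (hεp j).le) w
          have h7 : rw ρ w < c0 / 4 := lt_of_le_of_lt h6 hlt
          linarith
      obtain ⟨N', hNP, hNρ', hNy, hNz⟩ :=
        Pool.Agent.N499.UM.nwd G ρ hρ.pn ε hεp y z δ hlow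
      refine ⟨N', hNP, hNP.continuous_of_le hρ.pn hρ.cont hNρ', ?_, lt_of_lt_of_le hδ hNz⟩
      have h7 : Tendsto (fun k : ℕ => δ / (k : ℝ)) atTop (𝓝 0) :=
        tendsto_const_div_atTop_nhds_zero_nat δ
      refine tendsto_of_tendsto_of_tendsto_of_le_of_le' tendsto_const_nhds h7
        (Eventually.of_forall fun k => hNP.nonneg _) ?_
      filter_upwards [eventually_ge_atTop K] with k hk
      have h8 := hNy k
      simp only [ε] at h8
      rwa [if_neg (not_lt.mpr hk)] at h8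
  have hlim : Tendsto (fun k => ρ (y k)) atTop (𝓝 (ρ 1)) := (hρ.cont.tendsto 1).comp hy1
  rw [hρ.pn.one] at hlim
  obtain ⟨k, hk⟩ := (hlim.eventually (gt_mem_nhds he)).exists
  exact absurd (hyP k).1 (not_le.mpr hk)

end Pool.Agent.K6.H97.UP
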