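import Pool.Agent.N709.UM.Stm3

set_option autoImplicit false

/-!
Project UP (helper97), MP_c4a55f_al: arbitrary products of second countable Raikov complete minimal
groups are minimal.  Statements of the leaves.  `PN`, `Gen`, `AI`, `RC`, `Min`, `ev`, `wt`, `rw`,
`cnt`, `Bel`, `pp`, `Cau3`, ... are in `Pool.Agent.N709.UM.Stm`, `Stm2`, `Stm3`.
-/

open Filter Topology

universe u v

namespace Pool.Agent.K6.H97.UP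

open Pool.Agent.N709.UM

/-- conjugation by `x` changes `ρ` by at most `t` -/
def Iv {G : Type u} [Group G] (ρ : G → ℝ) (t : ℝ) (x : G) : Prop :=
  ∀ c, ρ (x * c * x⁻¹) ≤ ρ c + t ∧ ρ (x⁻¹ * c * x) ≤ ρ c + t

/-- `x` almost commutes with the elements of `D` -/
def Cm {G : Type u} [Group G] (ρ : G → ℝ) (t : ℝ) (D : Set G) (x : G) : Prop :=
  ∀ c ∈ D, ρ (x * c * x⁻¹ * c⁻¹) < t ∧ ρ (x⁻¹ * c * x * c⁻¹) < t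

/-- the product of two ultrafilters (`a` is chosen first) -/
def um {G : Type u} [Group G] (F H : Ultrafilter G) : Ultrafilter G :=
  F.bind fun a => H.map fun b => a * b

/-- Leaf AIC: closure properties of the set of asymptotically central ultrafilters -/
def S_AIC : Prop := ∀ (G : Type u) [Group G] (ρ : G → ℝ), PN ρ →
  (∀ F : Ultrafilter G, AI ρ F → ∀ n : ℤ, AI ρ (F.map fun x => x ^ n)) ∧
  (∀ F H : Ultrafilter G, AI ρ F → AI ρ H → AI ρ (um F H)) ∧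
  (∀ (ι : Type v) (V : Ultrafilter ι) (H : ι → Ultrafilter G), (∀ i, AI ρ (H i)) →
    AI ρ (V.bind H)) ∧
  (∀ F : Ultrafilter G, (Subgroup.center G : Set G) ∈ F → AI ρ F)

/-- Leaf PWR: limits of conjugates and of powers -/
def S_PWR : Prop := ∀ (G : Type u) [Group G] [TopologicalSpace G] [IsTopologicalGroup G]
  (ρ : G → ℝ), Gen ρ → ∀ F : Ultrafilter G, AI ρ F →
  (∀ (m : ℤ) (g : G), Tendsto (fun x : G => x ^ m * g * (x ^ m)⁻¹) F (𝓝 g)) ∧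
  (∀ (N : ℕ) (m : ℤ) (g : G),
    Tendsto (fun x : G => (g * x ^ m) ^ N * (x ^ (m * (N : ℤ)))⁻¹) F (𝓝 (g ^ N)))

/-! ### first case: there are ultrafilters with large powers -/

/-- no concentration of the `e`-th powers -/
def NC {G : Type u} [Group G] (ρ : G → ℝ) (F : Ultrafilter G) (e : ℕ) (r : ℝ) : Prop :=
  ∀ s < r, ∀ g : G, ∀ᶠ x in (F : Filter G), s < ρ (g * x ^ e)

/-- the `e`-th powers of two typical elements are far apart -/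
def Big {G : Type u} [Group G] (ρ : G → ℝ) (F : Ultrafilter G) (e : ℕ) (δ : ℝ) : Prop :=
  ∀ᶠ a in (F : Filter G), ∀ᶠ b in (F : Filter G), δ ≤ ρ (a ^ e * (b ^ e)⁻¹)

/-- Leaf NC1 -/
def S_NC1 : Prop := ∀ (G : Type u) [Group G] [TopologicalSpace G] [IsTopologicalGroup G]
  (ρ : G → ℝ), Gen ρ → ∀ F H : Ultrafilter G, AI ρ F → AI ρ H → ∀ (e : ℕ) (δ : ℝ),
  Big ρ F e δ → NC ρ (um F H) e (δ / 2)

/-- Leaf NC2 -/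
def S_NC2 : Prop := ∀ (G : Type u) [Group G] [TopologicalSpace G] [IsTopologicalGroup G]
  (ρ : G → ℝ), Gen ρ → ∀ F H : Ultrafilter G, AI ρ F → AI ρ H → ∀ (e : ℕ) (r : ℝ),
  NC ρ H e r → NC ρ (um F H) e r

/-- the selection property: `N i` are auxiliary norms, `r i` thresholds -/
def Slp {G : Type u} [Group G] (ρ : G → ℝ) (N : ℕ → G → ℝ) (r : ℕ → ℝ) (e : ℝ) : Prop :=
  ∀ D : Set G, D.Finite → ∀ t : ℝ, 0 < t → ∀ k : ℕ, ∃ y : G, e ≤ ρ y ∧ Iv ρ t y ∧ Cm ρ t D y ∧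
    ∀ i, i ≤ k → ∀ h ∈ D, ∀ q ∈ D, ∀ M : ℤ, M.natAbs ≤ k →
      min (N i (h * q)) (r i) - t ≤ N i (h * y ^ M * q)

/-- Leaf D1: the selection property in the first case -/
def S_D1 : Prop := ∀ (G : Type u) [Group G] [TopologicalSpace G] [IsTopologicalGroup G]
  (ρ : G → ℝ), Gen ρ → ∀ δ : ℝ, 0 < δ →
  (∀ e : ℕ, 1 ≤ e → ∃ H : Ultrafilter G, AI ρ H ∧ Big ρ H e δ) →
  Slp ρ (fun _ => ρ) (fun _ => δ / 4) (δ / 4)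

/-- Leaf SEP (helper97): the selection property contradicts minimality -/
def S_SEP : Prop := ∀ (G : Type u) [Group G] [TopologicalSpace G] [IsTopologicalGroup G]
  [T2Space G] [SecondCountableTopology G], Pool.Agent.N709.UM.Min G → ∀ ρ : G → ℝ, Gen ρ →
  ∀ (N : ℕ → G → ℝ) (r : ℕ → ℝ) (e : ℝ), 0 < e → (∀ i, PN (N i)) → (∀ i g, N i g ≤ ρ g) →
  (∀ i, 0 < r i) → (∀ z : G, z ≠ 1 → ∃ i, 0 < N i z) → Slp ρ N r e → False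

/-! ### second case: structure -/

/-- the second case -/
def D2 {G : Type u} [Group G] (ρ : G → ℝ) : Prop := ∀ δ : ℝ, 0 < δ → ∃ e : ℕ, 1 ≤ e ∧
  ∀ H : Ultrafilter G, AI ρ H →
    ∀ᶠ a in (H : Filter G), ∀ᶠ b in (H : Filter G), ρ (a ^ e * (b ^ e)⁻¹) < δ

/-- a sequence of exponents -/
structure Ex {G : Type u} [Group G] (ρ : G → ℝ) (L : ℕ → ℕ) : Prop where
  pos : ∀ n, n + 1 ≤ L n
  dvd : ∀ j n, j ≤ n → L j ∣ L n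
  cau : ∀ (n : ℕ) (H : Ultrafilter G), AI ρ H → ∀ m : ℕ,
    ∀ᶠ a in (H : Filter G), ∀ᶠ b in (H : Filter G),
      ρ (a ^ (m * L n) * (b ^ (m * L n))⁻¹) < 1 / ((n : ℝ) + 1)

/-- `c` is a limit of `n`-th powers of asymptotically central elements -/
def Lp {G : Type u} [Group G] [TopologicalSpace G] (ρ : G → ℝ) (n : ℕ) (c : G) : Prop :=
  ∃ H : Ultrafilter G, AI ρ H ∧ Tendsto (fun x : G => x ^ n) H (𝓝 c)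

/-- Leaf EX -/
def S_EX : Prop := ∀ (G : Type u) [Group G] (ρ : G → ℝ), PN ρ → D2 ρ → ∃ L, Ex ρ L

/-- Leaf CSG: these limits form a central subgroup -/
def S_CSG : Prop := ∀ (G : Type u) [Group G] [TopologicalSpace G] [IsTopologicalGroup G]
  [T2Space G] (ρ : G → ℝ), Gen ρ → ∀ L : ℕ → ℕ,
  ∃ C : Subgroup G, C ≤ Subgroup.center G ∧ ∀ c, c ∈ C ↔ ∀ n, Lp ρ (L n) c

/-- Leaf CCP: it is compact -/
def S_CCP : Prop := ∀ (G : Type u) [Group G] [TopologicalSpace G] [IsTopologicalGroup G]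
  [T2Space G] (ρ : G → ℝ), Gen ρ → RC G → ∀ L : ℕ → ℕ, Ex ρ L →
  ∀ C : Subgroup G, C ≤ Subgroup.center G → (∀ c, c ∈ C ↔ ∀ n, Lp ρ (L n) c) →
  IsCompact (C : Set G)

/-- Leaf CAP: powers of almost central elements are close to it -/
def S_CAP : Prop := ∀ (G : Type u) [Group G] [TopologicalSpace G] [IsTopologicalGroup G]
  [T2Space G] (ρ : G → ℝ), Gen ρ → RC G → ∀ L : ℕ → ℕ, Ex ρ L →
  ∀ C : Subgroup G, (∀ c, c ∈ C ↔ ∀ n, Lp ρ (L n) c) →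
  ∀ ε : ℝ, 0 < ε → ∀ n0 : ℕ, ∃ n, n0 ≤ n ∧ ∃ t : ℝ, 0 < t ∧ ∃ D : Set G, D.Finite ∧
    ∀ x, Iv ρ t x → Cm ρ t D x → ∃ c ∈ C, ρ (x ^ L n * c⁻¹) < ε

/-- Leaf LOCK: neighbourhoods of `1` in a compact central subgroup which are stable under doubling -/
def S_LOCK : Prop := ∀ (G : Type u) [Group G] [TopologicalSpace G] [IsTopologicalGroup G]
  [T2Space G] (ρ : G → ℝ), Gen ρ → ∀ C : Subgroup G, C ≤ Subgroup.center G →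
  IsCompact (C : Set G) → ∀ ε : ℝ, 0 < ε → ∃ (D : Set G) (η : ℝ), 0 < η ∧ D ⊆ C ∧
    (∀ c ∈ D, ρ c < ε) ∧ (∀ c ∈ C, ρ c ≤ η → c ∈ D) ∧
    ∀ c ∈ C, (∃ d ∈ D, ρ (c * d⁻¹) ≤ η) → (∃ d ∈ D, ρ (c ^ 2 * d⁻¹) ≤ η) → c ∈ D

/-- products of powers `x j ^ (M j)`, `K ≤ j < k`, `|M j| ≤ T j`, in increasing order of `j` -/
def WW {G : Type u} [Group G] (x : ℕ → G) (T : ℕ → ℕ) (K : ℕ) : ℕ → Set G
  | 0 => {1}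
  | k + 1 => {g | ∃ h ∈ WW x T K k, ∃ m : ℤ, m.natAbs ≤ T k ∧ (k < K → m = 0) ∧
      g = h * x k ^ m}

/-- Leaf COL: collective smallness of the `L`-th powers -/
def S_COL : Prop := ∀ (G : Type u) [Group G] (ρ : G → ℝ), PN ρ → ∀ C : Subgroup G,
  C ≤ Subgroup.center G → ∀ (D : Set G) (ε η : ℝ) (L : ℕ) (x : ℕ → G) (T : ℕ → ℕ) (K : ℕ)
  (τ : ℕ → ℝ) (σ : ℝ), 0 < η → D ⊆ C → (∀ c ∈ D, ρ c < ε) →
  (∀ c ∈ C, ρ c ≤ 10 * η → c ∈ D) →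
  (∀ c ∈ C, (∃ d ∈ D, ρ (c * d⁻¹) ≤ 10 * η) → (∃ d ∈ D, ρ (c ^ 2 * d⁻¹) ≤ 10 * η) → c ∈ D) →
  (∀ k, ∀ W ∈ WW x T K k, ∃ c ∈ C, ρ (W ^ L * c⁻¹) < η) →
  (∀ k, K ≤ k → ∀ h ∈ WW x T K k, ∀ m : ℤ, m.natAbs ≤ T k →
    ρ ((h * x k ^ m) ^ L * (h ^ L)⁻¹) ≤ 3 * η) →
  (∀ k, K ≤ k → ∀ h ∈ WW x T K k, ∀ m : ℤ, m.natAbs ≤ T k →
    ρ ((h * x k ^ m) ^ 2 * (h ^ 2 * x k ^ (2 * m))⁻¹) ≤ τ k) →
  (∀ k, K ≤ k → ∀ h ∈ WW x T K k, ρ (h * x k ^ (T k : ℤ) * h⁻¹) ≤ τ k) →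
  (∀ k, 0 ≤ τ k) → (∀ k, ∑ j ∈ Finset.Ico K k, 2 * τ j ≤ σ) →
  (∀ k, ∀ W ∈ WW x T K k, ∀ W' ∈ WW x T K k, ρ (W ^ 2 * W'⁻¹) ≤ σ →
    ρ (W ^ (2 * L) * (W' ^ L)⁻¹) ≤ η) →
  ∀ k, ∀ W ∈ WW x T K k, ρ (W ^ L) ≤ ε + η

/-! ### second case: construction -/

/-- the data of scale `i`: exponent `L i`, error `η i`, lock set `E i`, and the neighbourhood
`(t i, D i)` -/
structure Scl {G : Type u} [Group G] (ρ : G → ℝ) (C : Subgroup G) (L : ℕ → ℕ) (η : ℕ → ℝ)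
    (E : ℕ → Set G) (t : ℕ → ℝ) (D : ℕ → Set G) : Prop where
  Lpos : ∀ i, i + 1 ≤ L i
  ηpos : ∀ i, 0 < η i
  ηle : ∀ i, η i ≤ (1 / 4 : ℝ) ^ i
  tpos : ∀ i, 0 < t i
  Dfin : ∀ i, (D i).Finite
  Esub : ∀ i, E i ⊆ C
  Elt : ∀ i, ∀ c ∈ E i, ρ c < 1 / ((i : ℝ) + 1)
  near : ∀ i, ∀ c ∈ C, ρ c ≤ 10 * η i → c ∈ E i
  lock : ∀ i, ∀ c ∈ C, (∃ d ∈ E i, ρ (c * d⁻¹) ≤ 10 * η i) →
    (∃ d ∈ E i, ρ (c ^ 2 * d⁻¹) ≤ 10 * η i) → c ∈ E i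
  app : ∀ i x, Iv ρ (t i) x → Cm ρ (t i) (D i) x → ∃ c ∈ C, ρ (x ^ L i * c⁻¹) < η i
  cau : ∀ (i : ℕ) (H : Ultrafilter G), AI ρ H → ∀ m : ℕ,
    ∀ᶠ a in (H : Filter G), ∀ᶠ b in (H : Filter G), ρ (a ^ (m * L i) * (b ^ (m * L i))⁻¹) < η i

/-- the properties of the letter `x k` of stage `k` (with `s k` the tolerance, `q` a dense
sequence, `e` a lower bound for the distances) -/
structure Stg {G : Type u} [Group G] (ρ : G → ℝ) (L : ℕ → ℕ) (η : ℕ → ℝ) (D : ℕ → Set G)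
    (q : ℕ → G) (s : ℕ → ℝ) (e : ℝ) (x : ℕ → G) (k : ℕ) : Prop where
  far : ∀ j, j < k → e ≤ ρ (x j * (x k)⁻¹)
  inv : Iv ρ (s k) (x k)
  com : ∀ j, j < k → ∀ m : ℤ, m.natAbs ≤ k → Cm ρ (s k) {x j ^ m} (x k)
  coq : ∀ i, i ≤ k → Cm ρ (s k) {q i} (x k)
  cD1 : ∀ i, i ≤ k → ∀ W ∈ WW x L 0 k, ∀ c ∈ D i, ∀ m : ℤ, m.natAbs ≤ L k →
    ρ (W * (x k ^ m * c * (x k ^ m)⁻¹ * c⁻¹) * W⁻¹) < s k
  cD2 : ∀ i, i ≤ k → ∀ W ∈ WW x L 0 k, ∀ c ∈ D i, ∀ m : ℤ, m.natAbs ≤ L k →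
    ρ ((x k ^ m)⁻¹ * (W⁻¹ * c * W) * x k ^ m * (W⁻¹ * c * W)⁻¹) < s k
  pow : ∀ i, i ≤ k → ∀ W ∈ WW x L 0 k, ∀ m : ℤ, m.natAbs ≤ L k →
    ρ ((W * x k ^ m) ^ L i * (W ^ L i * x k ^ (m * (L i : ℤ)))⁻¹) < s k
  sml : ∀ i, i ≤ k → ∀ W ∈ WW x L 0 k, ∀ m : ℤ, m.natAbs ≤ L k →
    ρ (W ^ L i * x k ^ (m * (L i : ℤ)) * (W ^ L i)⁻¹) < 2 * η i
  squ : ∀ W ∈ WW x L 0 k, ∀ m : ℤ, m.natAbs ≤ L k →
    ρ ((W * x k ^ m) ^ 2 * (W ^ 2 * x k ^ (2 * m))⁻¹) < s k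
  tor : ∀ W ∈ WW x L 0 k, ρ (W * x k ^ (L k : ℤ) * W⁻¹) < 2 * η k

/-- Leaf SEQ: existence of the sequence -/
def S_SEQ : Prop := ∀ (G : Type u) [Group G] [TopologicalSpace G] [IsTopologicalGroup G]
  (ρ : G → ℝ), Gen ρ → ∀ (C : Subgroup G) (L : ℕ → ℕ) (η : ℕ → ℝ) (E : ℕ → Set G) (t : ℕ → ℝ)
  (D : ℕ → Set G), Scl ρ C L η E t D → ∀ (F : Ultrafilter G), AI ρ F → ∀ e : ℝ, 0 < e →
  (∀ᶠ a in (F : Filter G), ∀ᶠ b in (F : Filter G), e ≤ ρ (a * b⁻¹)) →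
  ∀ (q : ℕ → G) (s : ℕ → ℝ), (∀ k, 0 < s k) →
  ∃ x : ℕ → G, ∀ k, Stg ρ L η D q s (e / 4) x k

/-- Leaf DER: collective smallness for the sequence -/
def S_DER : Prop := ∀ (G : Type u) [Group G] (ρ : G → ℝ), PN ρ → ∀ (C : Subgroup G),
  C ≤ Subgroup.center G → ∀ (L : ℕ → ℕ) (η : ℕ → ℝ) (E : ℕ → Set G) (t : ℕ → ℝ)
  (D : ℕ → Set G), Scl ρ C L η E t D → ∀ (q : ℕ → G) (s : ℕ → ℝ) (e : ℝ), (∀ k, 0 < s k) →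
  (∀ k i, i ≤ k → ((L k : ℝ) + 1) * s k ≤ (1 / 4 : ℝ) ^ k * min (t i) (η i)) →
  ∀ x : ℕ → G, (∀ k, Stg ρ L η D q s e x k) →
  ∀ i, ∃ K, ∀ k, ∀ h ∈ WW (fun j => x j ^ L i) (fun j => j) K k, ρ h ≤ 3 / ((i : ℝ) + 1)

/-- Leaf WD: decomposition of words (generalises the proof of `Lw3`) -/
def S_WD : Prop := ∀ (G : Type u) [Group G] (ρ : G → ℝ), PN ρ → ∀ (y : ℕ → G)
  (t : ℕ → ℝ) (K : ℕ), 1 ≤ K → (∀ k, K ≤ k → 0 ≤ t k) →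
  (∀ k : ℕ, K ≤ k → (k : ℝ) * ((2 * (k : ℝ) + 1) * t k) ≤ (1 / 4 : ℝ) ^ k) →
  (∀ k, K ≤ k → Iv ρ (t k) (y k)) →
  (∀ k, K ≤ k → ∀ j, j < k → ∀ c, (c = y j ∨ c = (y j)⁻¹) →
    ρ (y k * c * (y k)⁻¹ * c⁻¹) ≤ t k ∧ ρ ((y k)⁻¹ * c * y k * c⁻¹) ≤ t k) →
  ∀ w : List (G ⊕ (ℕ × Bool)), (∀ j, j < K → cnt j w = 0) → (∀ j, K ≤ j → cnt j w ≤ j - 1) →
    ∃ (k : ℕ) (v : G), ∃ h ∈ WW y (fun j => j) K k, ρ v ≤ rw ρ w + 2 * (1 / 4 : ℝ) ^ K ∧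
      ev y w = v * h

/-- Leaf NI: the norm in which the `L`-th powers of the letters tend to `1` -/
def S_NI : Prop := ∀ (G : Type u) [Group G] (ρ : G → ℝ), PN ρ → ∀ (x : ℕ → G) (s : ℕ → ℝ),
  (∀ k, 0 < s k) →
  (∀ k : ℕ, (k : ℝ) * ((2 * (k : ℝ) + 1) * (2 * (k : ℝ) * s k)) ≤ (1 / 4 : ℝ) ^ k) →
  (∀ k, Iv ρ (s k) (x k)) →
  (∀ k j, j < k → ∀ m : ℤ, m.natAbs ≤ k → Cm ρ (s k) {x j ^ m} (x k)) →
  ∀ (L : ℕ), 1 ≤ L → ∀ (K : ℕ) (ε : ℝ), 0 < ε →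
  (∀ k, ∀ h ∈ WW (fun j => x j ^ L) (fun j => j) K k, ρ h ≤ ε) →
  ∃ N : G → ℝ, PN N ∧ (∀ g, N g ≤ ρ g) ∧ (∀ g, min (ρ g) 1 - 2 * ε ≤ N g) ∧
    ∀ m : ℤ, Tendsto (fun j => N (x j ^ ((L : ℤ) * m))) atTop (𝓝 0)

/-- Leaf SLY: the selection property in the second case -/
def S_SLY : Prop := ∀ (G : Type u) [Group G] [TopologicalSpace G] [IsTopologicalGroup G]
  (ρ : G → ℝ), Gen ρ → ∀ X : Ultrafilter G, AI ρ X → ∀ e : ℝ, 0 < e →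
  (∀ᶠ a in (X : Filter G), ∀ᶠ b in (X : Filter G), e ≤ ρ (a * b⁻¹)) →
  ∀ (N : ℕ → G → ℝ) (L : ℕ → ℕ), (∀ i, PN (N i)) → (∀ i g, N i g ≤ ρ g) → (∀ i, 1 ≤ L i) →
  (∀ i (m : ℤ) (η : ℝ), 0 < η → ∀ᶠ a in (X : Filter G), N i (a ^ ((L i : ℤ) * m)) < η) →
  ∃ r : ℕ → ℝ, (∀ i, 0 < r i) ∧ Slp ρ N r (e / 2)

end Pool.Agent.K6.H97.UP
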